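import Pool.Agent.MP_1246c0_nt.S15.CY
import Pool.Agent.MP_1246c0_nt.H7.XAX0
import Pool.Agent.MP_1246c0_nt.H79.DEC
import Pool.Agent.MP_1246c0_nt.H83.RA
import Pool.Agent.MP_1246c0_nt.H20.RB
import Pool.Agent.MP_1246c0_nt.H84.QR
import Pool.Agent.MP_1246c0_nt.H62.RC
import Pool.Agent.MP_1246c0_nt.H9.RD
import Pool.Agent.MP_1246c0_nt.H49.XRBG
import Pool.Agent.MP_1246c0_nt.H99.XWA
import Pool.Agent.MP_1246c0_nt.H77.XRDG
import Pool.Agent.MP_1246c0_nt.H84.XTQ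
import Pool.Agent.MP_1246c0_nt.H71.XBRG
import Pool.Agent.MP_1246c0_nt.H53.XLIFT
import Pool.Agent.MP_1246c0_nt.H24.XKUM
import Pool.Agent.MP_1246c0_nt.S55.XFE
import Pool.Agent.MP_1246c0_nt.H16.XAXV
import Pool.Agent.MP_1246c0_nt.H93.UN
import Pool.Agent.MP_1246c0_nt.H73.ODD
import Pool.Agent.MP_1246c0_nt.H56.RE
import Pool.Agent.MP_1246c0_nt.H40.XDT2
import Pool.Agent.MP_1246c0_nt.R12.XFF
import Pool.Agent.MP_1246c0_nt.H35.XREL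
import Pool.Agent.MP_1246c0_nt.H82.XGEN
import Pool.Agent.MP_1246c0_nt.H29.LAM
import Pool.Agent.MP_1246c0_nt.H65.XCC
import Pool.Agent.MP_1246c0_nt.H95.DAT
import Pool.Agent.MP_1246c0_nt.H14.RF
import Pool.Agent.MP_1246c0_nt.H94.SYM
import Pool.Agent.MP_1246c0_nt.H85.XDC1
import Pool.Agent.MP_1246c0_nt.H73.XSY2
import Pool.Agent.MP_1246c0_nt.H26.XFS
import Pool.Agent.MP_1246c0_nt.H26.XELM
import Pool.Agent.MP_1246c0_nt.H70.XLWA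
import Pool.Agent.MP_1246c0_nt.H26.XSQ
import Pool.Agent.MP_1246c0_nt.H94.XYB1
import Pool.Agent.MP_1246c0_nt.H27.XYB2
import Pool.Agent.MP_1246c0_nt.H61.XISO
import Pool.Agent.MP_1246c0_nt.H86.XEXQ
import Pool.Agent.MP_1246c0_nt.H93.XTWR
import Pool.Agent.MP_1246c0_nt.H4.XBAU
import Pool.Agent.MP_1246c0_nt.H22.XEXC
import Pool.Agent.MP_1246c0_nt.H69.XTQP
import Pool.Agent.MP_1246c0_nt.H36.XHU
import Pool.Agent.MP_1246c0_nt.H66.XLNM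
import Pool.Agent.MP_1246c0_nt.H37.XLEO
import Pool.Agent.MP_1246c0_nt.H74.XCLS
import Pool.Agent.MP_1246c0_nt.H46.XRNK
import Pool.Agent.MP_1246c0_nt.H50.XIND
import Pool.Agent.MP_1246c0_nt.H97.XCHR
import Pool.Agent.MP_1246c0_nt.H54.XGAP
import Pool.Agent.MP_1246c0_nt.H56.XEG2
import Pool.Agent.MP_1246c0_nt.H41.XCR0
import Pool.Agent.MP_1246c0_nt.H10.XLWL
import Pool.Agent.MP_1246c0_nt.H35.V1
import Pool.Agent.MP_1246c0_nt.H93.XHIG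
import Pool.Agent.MP_1246c0_nt.H45.XCRT
import Pool.Agent.MP_1246c0_nt.H35.CFG
import Pool.Agent.MP_1246c0_nt.H93.XG0
import Pool.Agent.MP_1246c0_nt.H68.XNIC
import Pool.Agent.MP_1246c0_nt.H33.PRM
import Pool.Agent.MP_1246c0_nt.H44.XPR2
import Pool.Agent.MP_1246c0_nt.H22.LOG
import Pool.Agent.MP_1246c0_nt.H36.MASS
import Pool.Agent.MP_1246c0_nt.H41.CHI
import Pool.Agent.MP_1246c0_nt.H92.DET
import Pool.Agent.MP_1246c0_nt.H93.XWIN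
import Pool.Agent.MP_1246c0_nt.H15.XHT
import Pool.Agent.MP_1246c0_nt.H65.XNL
import Pool.Agent.MP_1246c0_nt.H46.XDJ
import Pool.Agent.MP_1246c0_nt.H16.XEUX
import Pool.Agent.MP_1246c0_nt.H85.XTRC
import Pool.Agent.MP_1246c0_nt.H72.XCHS
import Pool.Agent.MP_1246c0_nt.H35.XAL1
import Pool.Agent.MP_1246c0_nt.H74.XAL2
import Pool.Agent.MP_1246c0_nt.H36.XLCH
import Pool.Agent.MP_1246c0_nt.H84.XUNT
import Pool.Agent.MP_1246c0_nt.H70.XNU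
import Pool.Agent.MP_1246c0_nt.H74.AVG
import Pool.Agent.MP_1246c0_nt.H80.QF
import Pool.Agent.MP_1246c0_nt.H89.CR
import Pool.Agent.MP_1246c0_nt.R59.ROB
import Pool.Agent.MP_1246c0_nt.H63.ML
import Pool.Agent.MP_1246c0_nt.H13.NS
import Pool.Agent.MP_1246c0_nt.H46.MOM
import Pool.Agent.MP_1246c0_nt.H36.LD
import Pool.Agent.MP_1246c0_nt.H79.HP
import Pool.Agent.MP_1246c0_nt.H89.XCHO
import Pool.Agent.MP_1246c0_nt.R12.XGDO
import Pool.Agent.MP_1246c0_nt.H36.XNGO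
import Pool.Agent.MP_1246c0_nt.H16.XHDO
import Pool.Agent.MP_1246c0_nt.H97.XMLO
import Pool.Agent.MP_1246c0_nt.H7.XNSO
import Pool.Agent.MP_1246c0_nt.H24.XMOO
import Pool.Agent.MP_1246c0_nt.H54.XLDO
import Pool.Agent.MP_1246c0_nt.H57.XQUO
import Pool.Agent.MP_1246c0_nt.H46.XLVO
import Pool.Agent.MP_1246c0_nt.H44.XOKO
import Pool.Agent.MP_1246c0_nt.H76.XRML
import Pool.Agent.MP_1246c0_nt.H29.AMP
import Pool.Agent.MP_1246c0_nt.H37.RECT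
import Pool.Agent.MP_1246c0_nt.H30.HYP
import Pool.Agent.MP_1246c0_nt.H57.SH1
import Pool.Agent.MP_1246c0_nt.H60.SH2
import Pool.Agent.MP_1246c0_nt.H44.BIL
import Pool.Agent.MP_1246c0_nt.H62.UL
import Pool.Agent.MP_1246c0_nt.H86.XEQ2
import Pool.Agent.MP_1246c0_nt.H50.XGEQ
import Pool.Agent.MP_1246c0_nt.H60.XE1
import Pool.Agent.MP_1246c0_nt.H50.XRKN
import Pool.Agent.MP_1246c0_nt.H2.XRG
import Pool.Agent.MP_1246c0_nt.H66.XRGN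
import Pool.Agent.MP_1246c0_nt.H31.XRLO
import Pool.Agent.MP_1246c0_nt.H84.XLMD
import Pool.Agent.MP_1246c0_nt.H8.XPR
import Pool.Agent.MP_1246c0_nt.H16.XUS
import Pool.Agent.MP_1246c0_nt.H56.XDS
import Pool.Agent.MP_1246c0_nt.H60.XCNT
import Pool.Agent.MP_1246c0_nt.H44.XZR
import Pool.Agent.MP_1246c0_nt.H2.XGOOD
import Pool.Agent.MP_1246c0_nt.H74.XE2
import Pool.Agent.MP_1246c0_nt.H50.CH
import Pool.Agent.MP_1246c0_nt.H42.GD
import Pool.Agent.MP_1246c0_nt.H56.NG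
import Pool.Agent.MP_1246c0_nt.H94.HD
import Pool.Agent.MP_1246c0_nt.H73.LV
import Pool.Agent.MP_1246c0_nt.H81.IDC
import Pool.Agent.MP_1246c0_nt.H14.WIN
import Pool.Agent.MP_1246c0_nt.H1.MOD
import Pool.Agent.MP_1246c0_nt.H22.XRMH
import Pool.Agent.MP_1246c0_nt.H69.XPAO
import Pool.Agent.MP_1246c0_nt.H44.XE3
import Pool.Agent.MP_1246c0_nt.H45.XSZ
import Pool.Agent.MP_1246c0_nt.H94.XTPR
import Pool.Agent.MP_1246c0_nt.H72.XRMT
import Pool.Agent.MP_1246c0_nt.R12.XE4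
import Pool.Agent.MP_1246c0_nt.H14.XORB
import Pool.Agent.MP_1246c0_nt.H53.XADM
import Pool.Agent.MP_1246c0_nt.H45.XBOX
import Pool.Agent.MP_1246c0_nt.H46.XTAB
import Pool.Agent.MP_1246c0_nt.H70.XCLO
import Pool.Agent.MP_1246c0_nt.H24.XCLP
import Pool.Agent.MP_1246c0_nt.H84.XAMQ
import Pool.Agent.MP_1246c0_nt.H53.XGAM
import Pool.Agent.MP_1246c0_nt.H73.XLAB
import Pool.Agent.MP_1246c0_nt.H85.XDEN
import Pool.Agent.MP_1246c0_nt.H40.XCOD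
import Pool.Agent.MP_1246c0_nt.H57.XHOE
import Pool.Agent.MP_1246c0_nt.H37.XGRA
import Pool.Agent.MP_1246c0_nt.H14.XGRS
import Pool.Agent.MP_1246c0_nt.H45.XGRT
import Pool.Agent.MP_1246c0_nt.H69.XGVA
import Pool.Agent.MP_1246c0_nt.H13.XGVB
import Pool.Agent.MP_1246c0_nt.H51.XGVC
import Pool.Agent.MP_1246c0_nt.R12.XGOV
import Pool.Agent.MP_1246c0_nt.H27.XSMP
import Pool.Agent.MP_1246c0_nt.H2.XFOU
import Pool.Agent.MP_1246c0_nt.H71.XCL1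
import Pool.Agent.MP_1246c0_nt.H69.XLBC
import Pool.Agent.MP_1246c0_nt.H37.XCL2
import Pool.Agent.MP_1246c0_nt.H35.XGLB
import Pool.Agent.MP_1246c0_nt.H77.XREC
import Pool.Agent.MP_1246c0_nt.H26.XE5
import Pool.Agent.MP_1246c0_nt.H8.XMN
import Pool.Agent.MP_1246c0_nt.H15.XFN

/-! Assembly of all the pieces. -/

namespace Pool.Agent.MP_1246c0_nt.H25.All

theorem bCY : H12.SCY := H12.rowCY
theorem aAX0 : Ax0 ∧ SKQ := H25.rowAX0 bCY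
theorem bDEC : H12.SDEC := H12.rowDEC bCY
theorem bRA : H12.SRA := H12.rowRA
theorem bRB : H12.SRB := H12.rowRB bRA
theorem bQR : H12.SQR := H12.rowQR bDEC
theorem bRC : H12.SRC := H12.rowRC bQR bRA
theorem bRD : H12.SRD := H12.rowRD bCY bRA bRB bRC
theorem aRBG : H25.SRBG := H25.rowRBG bRA
theorem aWA : H25.SWA := H25.rowWA
theorem aRDG : H25.SRDG := H25.rowRDG bRA aRBG aWA
theorem aTQ : H25.STQ := H25.rowTQ bCY bDEC bRD aRDG aAX0.1 aAX0.2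
theorem aBRG : H25.SBRG := H25.rowBRG aAX0.2 aTQ
theorem aLIFT : H25.SLIFT := H25.rowLIFT
theorem aKUM : H25.SKUM := H25.rowKUM aLIFT
theorem aFE : H25.SFE := H25.rowFE aLIFT aKUM
theorem aAXV : H25.SAXV := H25.rowAXV bCY bDEC bQR aLIFT aKUM aAX0.1 aAX0.2
theorem bUN : H12.SUN := H12.rowUN bCY
theorem bODD : H12.SODD := H12.rowODD bCY bUN
theorem bRE : H12.SRE := H12.rowRE bCY bUN bRA bRD
theorem aDT2 : H25.SDT2 := H25.rowDT2 bCY bDEC bUN bODD bQR bRA bRE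
theorem aFF : H25.SFF := H25.rowFF bCY bDEC bQR bRA aLIFT aKUM aAX0.1 aAX0.2 aAXV aDT2
theorem aREL : H25.SREL := H25.rowREL
theorem aGEN : H25.SGEN := H25.rowGEN aAX0.1 aAXV
theorem exs : ∃ S, Ax S := by
  obtain ⟨Φ⟩ := aFE
  obtain ⟨S, h1, h2⟩ := aFF Φ
  exact ⟨S, ⟨aAX0.1, aAXV _, aREL _, aGEN _⟩, h2⟩
theorem bLAM : H12.SLAM := H12.rowLAM
theorem aCC : H25.SCC := H25.rowCC bDEC bQR
theorem bDAT : H12.SDAT := H12.rowDAT bCY bDEC bUN bODD bQR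
theorem bRF : H12.SRF := H12.rowRF bCY bDEC bUN bQR bRA bRE bDAT
theorem bSYM : H12.SSYM := H12.rowSYM bLAM bRF bDAT
theorem aDC1 : H25.SDC1 := H25.rowDC1 bDEC bQR aCC
theorem aSY2 : H25.SSY2 := H25.rowSY2 bDEC bQR bLAM bRF bDAT bSYM aCC aDC1
theorem aFS : H25.SFS := H25.rowFS bDEC bLAM aCC aDC1 aSY2
theorem aELM : H25.SELM := H25.rowELM
theorem aLWA : H25.SLWA := H25.rowLWA bDEC bLAM aCC aSY2 aFS aELM
theorem aSQ : H25.SSQ := H25.rowSQ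
theorem aYB1 : H25.SYB1 := H25.rowYB1
theorem aYB2 : H25.SYB2 := H25.rowYB2
theorem aISO : H25.SISO := H25.rowISO
theorem aEXQ : H25.SEXQ := H25.rowEXQ bRA aSQ aYB1 aYB2 aWA aISO
theorem aTWR : H25.STWR := H25.rowTWR aRDG aSQ aEXQ aLIFT aKUM
theorem aBAU : H25.SBAU := H25.rowBAU aSQ aLIFT aKUM
theorem aEXC : H25.SEXC := H25.rowEXC aLIFT aTWR aBAU
theorem aTQP : H25.STQP := H25.rowTQP bCY bDEC aTQ
theorem aHU : H25.SHU := H25.rowHU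
theorem aLNM : H25.SLNM := H25.rowLNM bCY bDEC aTQ aTQP
theorem aLEO : H25.SLEO := H25.rowLEO aTQ aTQP aHU aLNM
theorem aCLS : H25.SCLS := H25.rowCLS
theorem aRNK : H25.SRNK := H25.rowRNK aCC
theorem aIND : H25.SIND := H25.rowIND aLIFT aCC
theorem aCHR : H25.SCHR := H25.rowCHR aLIFT aEXC aTQ aTQP aLEO aCLS aRNK aIND
theorem aGAP : H25.SGAP := H25.rowGAP
theorem aEG2 : H25.SEG2 := H25.rowEG2 aGAP
theorem aCR0 : H25.SCR0 := H25.rowCR0 aCC aCHR aEG2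
theorem aLWL : H25.SLWL := H25.rowLWL aCC aGAP
theorem bV1 : H12.SV1 := H12.rowV1 bQR bLAM
theorem aHIG : H25.SHIG := H25.rowHIG bDEC bLAM bV1 aCC aSY2 aFS
theorem aCRT : H25.SCRT := H25.rowCRT aCC aCR0 aLWL aHIG
theorem bCFG : H12.SCFG := H12.rowCFG bQR
theorem aG0 : H25.SG0 := H25.rowG0 bCFG
theorem aNIC : H25.SNIC := H25.rowNIC bDEC bQR
theorem bPRM : H12.SPRM := H12.rowPRM
theorem aPR2 : H25.SPR2 := H25.rowPR2
theorem bLOG : H12.SLOG := H12.rowLOG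
theorem bMASS : H12.SMASS := H12.rowMASS bLOG
theorem bCHI : H12.SCHI := H12.rowCHI
theorem bDET : H12.SDET := H12.rowDET bQR bMASS bCHI
theorem aWIN : H25.SWIN := H25.rowWIN bDEC bMASS bDET
theorem aHT : H25.SHT := H25.rowHT aWIN
theorem aNL : H25.SNL := H25.rowNL bDEC bPRM aPR2 aWIN aHT
theorem aDJ : H25.SDJ := H25.rowDJ bLAM
theorem aEUX : H25.SEUX := H25.rowEUX
theorem aTRC : H25.STRC := H25.rowTRC
theorem aCHS : H25.SCHS := H25.rowCHS aEUX aTRC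
theorem aAL1 : H25.SAL1 := H25.rowAL1
theorem aAL2 : H25.SAL2 := H25.rowAL2 aAL1
theorem aLCH : H25.SLCH := H25.rowLCH bCY bUN bQR bRA bRD aAL2
theorem aUNT : H25.SUNT := H25.rowUNT bCY bDEC aDJ aCHS aLCH
theorem aNU : H25.SNU := H25.rowNU bDEC bDAT bPRM aPR2 aDJ aUNT aWIN aHT
theorem bAVG : H12.SAVG := H12.rowAVG
theorem bQF : H12.SQF := H12.rowQF
theorem bCR : H12.SCR := H12.rowCR bAVG bQF
theorem bROB : H12.SROB := H12.rowROB bAVG bQF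
theorem bML : H12.SML := H12.rowML bQF
theorem bNS : H12.SNS := H12.rowNS bAVG bQF bCR
theorem bMOM : H12.SMOM := H12.rowMOM bAVG bQF bCR bROB bML bNS
theorem bLD : H12.SLD := H12.rowLD bAVG bMOM
theorem bHP : H12.SHP := H12.rowHP bAVG bQF
theorem aCHO : H25.SCHO := H25.rowCHO bQF
theorem aGDO : H25.SGDO := H25.rowGDO bAVG bQF bHP aCHO
theorem aNGO : H25.SNGO := H25.rowNGO bAVG bQF bHP aCHO
theorem aHDO : H25.SHDO := H25.rowHDO bAVG aGDO aNGO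
theorem aMLO : H25.SMLO := H25.rowMLO bQF
theorem aNSO : H25.SNSO := H25.rowNSO bAVG bQF bCR
theorem aMOO : H25.SMOO := H25.rowMOO bAVG bQF bCR bROB aMLO aNSO
theorem aLDO : H25.SLDO := H25.rowLDO bAVG aMOO
theorem aQUO : H25.SQUO := H25.rowQUO
theorem aLVO : H25.SLVO := H25.rowLVO bAVG aHDO aLDO aQUO
theorem aOKO : H25.SOKO := H25.rowOKO
theorem aRML : H25.SRML := H25.rowRML bAVG bLD aLVO aOKO aELM
theorem bAMP : H12.SAMP := H12.rowAMP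
theorem bRECT : H12.SRECT := H12.rowRECT bAMP
theorem bHYP : H12.SHYP := H12.rowHYP
theorem bSH1 : H12.SSH1 := H12.rowSH1 bCY bDEC bQR bDAT
theorem bSH2 : H12.SSH2 := H12.rowSH2 bCY bUN bQR bDAT
theorem bBIL : H12.SBIL := H12.rowBIL bRECT bHYP bSH1 bSH2
theorem bUL : H12.SUL := H12.rowUL bAVG
theorem aEQ2 : H25.SEQ2 := H25.rowEQ2 bAVG bDEC bLAM bQR bDAT bUL aSY2
theorem aGEQ : H25.SGEQ := H25.rowGEQ bAVG bDEC bBIL aSY2 aPR2 aG0 aNIC aEQ2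
theorem aE1 : H25.SE1 := H25.rowE1 bLAM bQR bPRM aSY2 aRML aG0 aGEQ
theorem aRKN : H25.SRKN := H25.rowRKN bAVG bQF bCR
theorem aRG : H25.SRG := H25.rowRG bAVG bQF bCR
theorem aRGN : H25.SRGN := H25.rowRGN bAVG bQF aRG
theorem aRLO : H25.SRLO := H25.rowRLO bAVG aRKN aRGN
theorem aLMD : H25.SLMD := H25.rowLMD aCC
theorem aPR : H25.SPR := H25.rowPR bQF aCC
theorem aUS : H25.SUS := H25.rowUS bQF aCC aPR aFS
theorem aDS : H25.SDS := H25.rowDS bDEC bLAM bQF aCC aDC1 aSY2 aLMD aPR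
theorem aCNT : H25.SCNT := H25.rowCNT bQF aCC aDC1 aPR
theorem aZR : H25.SZR := H25.rowZR bQF aPR aCNT
theorem aGOOD : H25.SGOOD := H25.rowGOOD aLMD aPR aUS aDS aZR
theorem aE2 : H25.SE2 := H25.rowE2 bDEC bLAM bPRM aPR2 aSY2 aRLO aG0 aGEQ aGOOD
theorem bCH : H12.SCH := H12.rowCH bQF
theorem bGD : H12.SGD := H12.rowGD bAVG bQF bHP bCH
theorem bNG : H12.SNG := H12.rowNG bAVG bQF bHP bCH
theorem bHD : H12.SHD := H12.rowHD bAVG bGD bNG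
theorem bLV : H12.SLV := H12.rowLV bAVG bHD bLD
theorem bIDC : H12.SIDC := H12.rowIDC
theorem bWIN : H12.SWIN := H12.rowWIN bQF
theorem bMOD : H12.SMOD := H12.rowMOD bAVG bMOM bIDC bWIN
theorem aRMH : H25.SRMH := H25.rowRMH bAVG bLD bLV bMOD aOKO
theorem aPAO : H25.SPAO := H25.rowPAO
theorem aE3 : H25.SE3 := H25.rowE3 bAVG bLAM bQR bPRM aPR2 aSY2 aRMH aPAO aG0 aGEQ
theorem aSZ : H25.SSZ := H25.rowSZ
theorem aTPR : H25.STPR := H25.rowTPR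
theorem aRMT : H25.SRMT := H25.rowRMT bAVG aSZ aTPR
theorem aE4 : H25.SE4 := H25.rowE4 bLAM bPRM aPR2 aDJ aRMT aG0 aGEQ
theorem aORB : H25.SORB := H25.rowORB aCC aPR
theorem aADM : H25.SADM := H25.rowADM aPR aZR
theorem aBOX : H25.SBOX := H25.rowBOX
theorem aTAB : H25.STAB := H25.rowTAB bDEC aCC aDC1 aPR aCNT
theorem aCLO : H25.SCLO := H25.rowCLO aCC
theorem aCLP : H25.SCLP := H25.rowCLP aCC
theorem aAMQ : H25.SAMQ := H25.rowAMQ aCC aPR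
theorem aGAM : H25.SGAM := H25.rowGAM aCC
theorem aLAB : H25.SLAB := H25.rowLAB
theorem aDEN : H25.SDEN := H25.rowDEN
theorem aCOD : H25.SCOD := H25.rowCOD aDEN
theorem aHOE : H25.SHOE := H25.rowHOE
theorem aGRA : H25.SGRA := H25.rowGRA aCOD aHOE
theorem aGRS : H25.SGRS := H25.rowGRS aPR aTAB aCLO aCLP aAMQ aGAM aLAB aGRA
theorem aGRT : H25.SGRT := H25.rowGRT aPR aZR aTAB aGRS
theorem aGVA : H25.SGVA := H25.rowGVA bCY aLIFT aKUM aAX0.2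
theorem aGVB : H25.SGVB := H25.rowGVB bCY aAX0.2
theorem aGVC : H25.SGVC := H25.rowGVC
theorem aGOV : H25.SGOV := H25.rowGOV bQR bRA bRECT aLIFT aKUM aGVA aGVB aGVC
theorem aSMP : H25.SSMP := H25.rowSMP
theorem aFOU : H25.SFOU := H25.rowFOU
theorem aCL1 : H25.SCL1 := H25.rowCL1 bQR aGRT aGOV aSMP aFOU aADM
theorem aLBC : H25.SLBC := H25.rowLBC
theorem aCL2 : H25.SCL2 := H25.rowCL2 bDEC aBOX aADM aCL1 aLBC
theorem aGLB : H25.SGLB := H25.rowGLB bDAT bBIL aPR2 aG0 aADM aCL2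
theorem aREC : H25.SREC := H25.rowREC aZR aG0 aGLB
theorem aE5 : H25.SE5 := H25.rowE5 aORB aG0 aREC
theorem aMN : H25.SMN := H25.rowMN exs aLWA aCRT aG0 aNIC aNL aNU aE1 aE2 aE3 aE4 aE5
theorem aFN : H25.SFN := H25.rowFN aBRG aMN

end Pool.Agent.MP_1246c0_nt.H25.All

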