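import Pool.Agent.MP_1246c0_nt.H12.SpecN

/-! Characters of the absolute Galois group, frames of local elements, cocycles. -/

namespace Pool.Agent.MP_1246c0_nt.H25

open NumberField IsDedekindDomain Polynomial Finset Matrix Pool.Agent.MP_db5b97_nt.H85
open Pool.Agent.MP_1246c0_nt.H12

/-! ### Characters -/

instance : IsAlgClosure ℚ Om := AlgebraicClosure.instIsAlgClosure ℚ

/-- a square root -/
noncomputable def sqr (x : Om) : Om := Classical.choose (IsAlgClosed.exists_eq_mul_self x)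

theorem sqr_mul (x : Om) : sqr x * sqr x = x :=
  (Classical.choose_spec (IsAlgClosed.exists_eq_mul_self x)).symm

/-- generators of the layers of the cyclotomic tower -/
noncomputable def th : ℕ → Om
  | 0 => 0
  | n + 1 => sqr (2 + th n)

open Classical in
/-- the character of Kummer -/
noncomputable def kch (x : Om) (h : Ga) : F2 := if h (sqr x) = sqr x then 0 else 1

/-- the quadratic character of an integer -/
noncomputable def chi (m : ℤ) (h : Ga) : F2 := kch (m : Om) h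

/-- the tripling map -/
noncomputable def cub (x : Om) : Om := x ^ 3 - 3 * x

/-- the character of the layer `n` -/
noncomputable def kap (n : ℕ) (h : Ga) : ZMod (2 ^ n) :=
  Classical.epsilon fun k => h (th n) = cub^[k.val] (th n)

/-- open normal subgroups whose quotient is a `2`-group -/
def Op (U : Subgroup Ga) : Prop := U.Normal ∧ IsOpen (U : Set Ga) ∧ ∀ h : Ga, ∃ k : ℕ, h ^ 2 ^ k ∈ U

/-- all algebraic integers -/
abbrev OO : Type := 𝓞 Om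

/-- inertia -/
def In (Q : Ideal OO) (h : Ga) : Prop := ∀ x : OO, h • x - x ∈ Q

/-- decomposition -/
def Dc (Q : Ideal OO) (h : Ga) : Prop := ∀ x : OO, h • x ∈ Q ↔ x ∈ Q

/-- elements of Frobenius -/
def Fb (Q : Ideal OO) (q : ℕ) (h : Ga) : Prop := ∀ x : OO, h • x - x ^ q ∈ Q

/-- `Q` lies over `w` -/
def Ov (L : IntermediateField ℚ Om) [NumberField L] (Q : Ideal OO) (w : Sp L) : Prop :=
  ∀ x : 𝓞 L, x ∈ w.asIdeal ↔ algebraMap (𝓞 L) OO x ∈ Q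

/-- a choice of primes and of local elements -/
structure Frm where
  Q : ℕ → Ideal OO
  sg : ℕ → Ga
  fr : ℕ → Ga
  f2 : Ga
  cj : Ga
  ρ : Om →+* ℂ
  mx : ∀ l, l.Prime → (Q l).IsMaximal ∧ (l : OO) ∈ Q l
  isg : ∀ l, l.Prime → In (Q l) (sg l)
  ram : ∀ l, Gd 0 l → chi l (sg l) = 1
  ffr : ∀ l, Gd 0 l → Fb (Q l) l (fr l)
  ifr : In (Q 2) (fr 2)
  ff2 : Fb (Q 2) 2 f2
  cyc : ∀ (k : ℕ) (ζ : Om), ζ ^ 2 ^ k = 1 → sg 2 ζ * ζ = 1 ∧ fr 2 ζ * ζ ^ 3 = 1 ∧ f2 ζ = ζ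
  ccj : ∀ x, ρ (cj x) = starRingEnd ℂ (ρ x)

/-- formal properties of the characters -/
structure Ax0 : Prop where
  opt : Op ⊤
  opi : ∀ U V, Op U → Op V → Op (U ⊓ V)
  cmul : ∀ (m : ℤ) (h h' : Ga), chi m (h * h') = chi m h + chi m h'
  cmul' : ∀ (m m' : ℤ) (h : Ga), m ≠ 0 → m' ≠ 0 → chi (m * m') h = chi m h + chi m' h
  cop : ∀ m : ℤ, ∃ U, Op U ∧ ∀ u ∈ U, chi m u = 0
  kdef : ∀ (n : ℕ) (h : Ga) (k : ℕ), h (th n) = cub^[k] (th n) ↔ kap n h = k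
  kmul : ∀ (n : ℕ) (h h' : Ga), kap n (h * h') = kap n h + kap n h'
  kop : ∀ n : ℕ, ∃ U, Op U ∧ ∀ u ∈ U, kap n u = 0
  kcomp : ∀ (n n' : ℕ) (h : Ga), n ≤ n' → kap n h = ((kap n' h).val : ZMod (2 ^ n))
  c2 : ∀ h : Ga, chi 2 h = ((kap 1 h).val : F2)

/-- values of the characters on a frame -/
structure AxV (Φ : Frm) : Prop where
  ksg : ∀ n l, l.Prime → kap n (Φ.sg l) = 0
  kcj : ∀ n, kap n Φ.cj = 0
  kf2 : ∀ n, kap n Φ.f2 = 0
  kf1 : ∀ n, kap n (Φ.fr 2) = 1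
  kfr : ∀ n l, Gd 0 l → ∃ o : ℕ, Odd o ∧ kap n (Φ.fr l) = ((2 ^ lev l * o : ℕ) : ZMod (2 ^ n))
  csg : ∀ (l : ℕ) (m : ℤ), Gd 0 l → m ≠ 0 → chi m (Φ.sg l) = (padicValInt l m : F2)
  cm : chi (-1) (Φ.sg 2) = 1 ∧ chi (-1) (Φ.fr 2) = 0 ∧ chi (-1) Φ.cj = 1 ∧ chi (-1) Φ.f2 = 0 ∧
    ∀ l, Gd 0 l → chi (-1) (Φ.fr l) = eps l
  codd : ∀ m : ℕ, Odd m → chi m (Φ.sg 2) = eps m ∧ chi m (Φ.fr 2) = 0 ∧
    chi m Φ.f2 = if m % 8 = 3 ∨ m % 8 = 5 then 1 else 0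
  ccj : ∀ m : ℕ, chi m Φ.cj = 0
  cfr : ∀ l m : ℕ, Gd 0 l → ¬l ∣ m → chi m (Φ.fr l) = lg m l
  cj2 : Φ.cj * Φ.cj = 1

/-- the tame relation -/
def AxR (Φ : Frm) : Prop :=
  ∀ l U, Gd 0 l → Op U → Φ.fr l * Φ.sg l * (Φ.fr l)⁻¹ * (Φ.sg l ^ l)⁻¹ ∈ U

/-- generation -/
def AxG (Φ : Frm) : Prop :=
  ∀ U H : Subgroup Ga, Op U → U ≤ H → (∀ l, l.Prime → Φ.sg l ∈ H) → (∃ h ∈ H, kap 1 h = 1) → H = ⊤

/-- everything about a frame -/
structure Ax1 (Φ : Frm) : Prop where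
  z : Ax0
  v : AxV Φ
  r : AxR Φ
  g : AxG Φ

/-- a frame together with symbols in all layers -/
structure Sy where
  Φ : Frm
  D : ∀ n, Dat n
  f : ∀ n, ℕ → Ga → Co n

/-- the genus cocycles -/
structure Ax2 (S : Sy) : Prop where
  coc : ∀ n l h h' k, Gd n l → S.f n l (h * h') k = S.f n l h k + S.f n l h' (k - kap n h)
  inv : ∀ n l, Gd n l → ∃ U, Op U ∧ ∀ h, ∀ u ∈ U, S.f n l (h * u) = S.f n l h
  sg : ∀ n l l', Gd n l → l'.Prime → S.f n l (S.Φ.sg l') = if l' = l then Pi.single 0 1 else 0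
  fr2 : ∀ n l, Gd n l → S.f n l (S.Φ.fr 2) = 0
  frq : ∀ n l q k, Gd n l → Gd n q → (q = l → k ≠ 0) → S.f n l (S.Φ.fr q) k = (S.D n).rr q l k
  cj : ∀ n l, Gd n l → S.f n l S.Φ.cj = (S.D n).cc l
  f2 : ∀ n l k k', Gd n l → S.f n l S.Φ.f2 k = S.f n l S.Φ.f2 k'

/-- all the axioms -/
structure Ax (S : Sy) : Prop where
  one : Ax1 S.Φ
  two : Ax2 S

/-! ### Cocycles -/

section Coc

variable {M : Type} [AddCommGroup M]

variable (M) in
/-- multiples of `2 ^ j` -/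
def Mu (j : ℕ) : AddSubgroup M := (nsmulAddMonoidHom (2 ^ j) : M →+ M).range

theorem mem_Mu {j : ℕ} {x : M} : x ∈ Mu M j ↔ ∃ y, 2 ^ j • y = x := Iff.rfl

/-- the action of the Galois group -/
noncomputable def acn (d n : ℕ) (T : Module.End ℤ M) (h : Ga) : Module.End ℤ M :=
  (-1) ^ (chi d h).val * T ^ (kap n h).val

/-- the local obstruction attached to a pair of commuting elements -/
noncomputable def Eo (d n : ℕ) (T : Module.End ℤ M) (ψ : Ga → M) (p : Ga × Ga) : M :=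
  2 • ψ p.1 - (ψ p.2 - acn d n T p.1 (ψ p.2))

/-- the last pair at the prime two -/
noncomputable def p4 (Φ : Frm) (d : ℕ) : Ga × Ga :=
  if d % 8 = 5 then (Φ.fr 2, Φ.f2) else if d % 8 = 3 then (Φ.f2 * Φ.sg 2, 1) else (Φ.f2, 1)

/-- invariance under an open subgroup -/
def Ivt (A : AddSubgroup M) (ψ : Ga → M) : Prop :=
  ∃ U, Op U ∧ ∀ h, ∀ u ∈ U, ψ (h * u) - ψ h ∈ A

/-- cocycles modulo `A` with the local conditions -/
structure Cc (Φ : Frm) (d P n : ℕ) (T : Module.End ℤ M) (A : AddSubgroup M) (ψ : Ga → M) :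
    Prop where
  coc : ∀ h h', ψ (h * h') - ψ h - acn d n T h (ψ h') ∈ A
  inv : Ivt A ψ
  unr : ∀ l, l.Prime → (chi d (Φ.sg l) = 0 ∨ l = P) → ψ (Φ.sg l) ∈ A
  nrm : ψ (Φ.fr P) ∈ A
  two : d % 4 = 3 → Eo d n T ψ (Φ.fr 2, Φ.sg 2) ∈ A
  four : Eo d n T ψ (p4 Φ d) ∈ A

/-- the action is defined modulo `A` -/
def Ad (T : Module.End ℤ M) (n : ℕ) (A : AddSubgroup M) : Prop :=
  (∀ x ∈ A, T x ∈ A) ∧ ∀ x, (T ^ 2 ^ n) x - x ∈ A

/-- the operators attached to an eigenvalue of level `a` -/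
structure Adm (T s u : Module.End ℤ M) (a : ℕ) : Prop where
  tf : ∀ x : M, 2 • x = 0 → x = 0
  ts : ∀ x, T (s x) - s (T x) ∈ Mu M 2
  tu : ∀ x, T (u x) - u (T x) ∈ Mu M 2
  su : ∀ x, s (u x) - u (s x) ∈ Mu M 2
  hs : ∀ x, (T ^ 2 ^ a) x - x - 2 • s x ∈ Mu M 2
  hu : a ≠ 0 → ∀ x, u ((T ^ 2 ^ (a - 1)) x - x) - 2 • x ∈ Mu M 2
  h0 : a = 0 → ∀ x, u x ∈ Mu M 1
  nil : ∃ k : ℕ, ∀ x, (u ^ k) x ∈ Mu M 1

/-- a coefficient function as an operator -/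
noncomputable def cw (T : Module.End ℤ M) {n : ℕ} (c : Co n) : Module.End ℤ M :=
  ∑ k, (c k).val • T ^ k.val

/-- a geometric sum -/
noncomputable def gs (T : Module.End ℤ M) (k : ℕ) : Module.End ℤ M := ∑ i ∈ range k, T ^ i

end Coc

/-- the quadratic field in the layer `M` -/
noncomputable def kM (d M : ℕ) : IntermediateField ℚ Om :=
  IntermediateField.adjoin ℚ {sqr d, th M}

instance (d M : ℕ) : NumberField (kM d M) :=
  have : FiniteDimensional ℚ (kM d M) := IntermediateField.finiteDimensional_adjoin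
    fun x _ => (Algebra.IsAlgebraic.isAlgebraic x).isIntegral
  NumberField.of_module_finite ℚ _

/-- the `2`-class numbers in the tower are bounded -/
def Gr (d : ℕ) : Prop := ∃ B : ℕ, ∀ M : ℕ, padicValNat 2 (Nat.card (ClassGroup (𝓞 (kM d M)))) ≤ B

/-! ### Labelled primes, lattices, the pairings -/

/-- the data of a module -/
structure Md (ℓ : ℕ) where
  g : Matrix (Fin ℓ) (Fin ℓ) ℤ
  s : Matrix (Fin ℓ) (Fin ℓ) ℤ
  u : Matrix (Fin ℓ) (Fin ℓ) ℤ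
  a : ℕ
  n : ℕ

/-- admissible data up to the exponent `J` -/
structure Md.Ok {ℓ : ℕ} (μ : Md ℓ) (J : ℕ) : Prop where
  adm : Adm (toLin' μ.g) (toLin' μ.s) (toLin' μ.u) μ.a
  le : μ.a + J ≤ μ.n
  two : 2 ≤ J

/-- vectors modulo two -/
abbrev Vb (ℓ : ℕ) : Type := Fin ℓ → F2

/-- matrices modulo two -/
abbrev Mb (ℓ : ℕ) : Type := Matrix (Fin ℓ) (Fin ℓ) F2

/-- reduction of a matrix -/
def bar {ℓ : ℕ} (g : Matrix (Fin ℓ) (Fin ℓ) ℤ) : Mb ℓ := g.map fun x => (x : F2)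

/-- the lift of a vector -/
def lf {ℓ : ℕ} (x : Vb ℓ) : Fin ℓ → ℤ := fun i => ((x i).val : ℤ)

/-- functionals that vanish on the fixed vectors -/
def An {ℓ : ℕ} (g : Mb ℓ) : Submodule F2 (Vb ℓ) where
  carrier := {w | ∀ x, g *ᵥ x = x → w ⬝ᵥ x = 0}
  zero_mem' := fun x _ => zero_dotProduct x
  add_mem' := fun ha hb x hx => by rw [add_dotProduct, ha x hx, hb x hx, add_zero]
  smul_mem' := fun c w hw x hx => by rw [smul_dotProduct, hw x hx, smul_zero]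

/-- a complement -/
noncomputable def K4 {ℓ : ℕ} (g : Mb ℓ) : Submodule F2 (Vb ℓ) :=
  Classical.choose (Submodule.exists_isCompl (An g))

theorem K4_spec {ℓ : ℕ} (g : Mb ℓ) : IsCompl (An g) (K4 g) :=
  Classical.choose_spec (Submodule.exists_isCompl (An g))

/-- the family generates under three operators -/
def G3 {ℓ : ℕ} {κ : Type} (g s u : Mb ℓ) (x : κ → Vb ℓ) : Prop :=
  ∀ W : AddSubgroup (Vb ℓ), (∀ y ∈ W, g *ᵥ y ∈ W ∧ s *ᵥ y ∈ W ∧ u *ᵥ y ∈ W) → (∀ o, x o ∈ W) → W = ⊤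

section Lab

variable {ι : Type} [Fintype ι] [DecidableEq ι] {ℓ : ℕ}

/-- a labelling of the primes of `d` other than `P` -/
structure Lb (pr : ι → ℕ) (P : ℕ) (i1 : ι) : Prop where
  inj : pr.Injective
  odd : ∀ i, Gd 0 (pr i)
  prime : P.Prime
  md : P % 8 = 5
  ne : ∀ i, pr i ≠ P
  five : pr i1 % 8 = 5

/-- the product of the primes -/
def dd (pr : ι → ℕ) (P : ℕ) : ℕ := P * ∏ i, pr i

/-- the primes including two -/
def po (pr : ι → ℕ) (o : Option ι) : ℕ := o.elim 2 pr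

/-- the pairs of local elements -/
noncomputable def rws (Φ : Frm) (pr : ι → ℕ) (P : ℕ) : Option ι ⊕ Bool → Ga × Ga
  | .inl o => (Φ.fr (po pr o), Φ.sg (po pr o))
  | .inr false => (Φ.cj, 1)
  | .inr true => p4 Φ (dd pr P)

/-- cocycles modulo `2 ^ j` -/
def CC (Φ : Frm) (μ : Md ℓ) (pr : ι → ℕ) (P j : ℕ) (ψ : Ga → Fin ℓ → ℤ) : Prop :=
  Cc Φ (dd pr P) P μ.n (toLin' μ.g) (Mu _ j) ψ

/-- the values on inertia modulo two -/
def red (Φ : Frm) (pr : ι → ℕ) (ψ : Ga → Fin ℓ → ℤ) : Option ι → Vb ℓ :=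
  fun o i => (ψ (Φ.sg (po pr o)) i : F2)

/-- the pairing before division -/
noncomputable def Pw (Φ : Frm) (μ : Md ℓ) (pr : ι → ℕ) (P : ℕ) (w : Option ι ⊕ Bool → Vb ℓ)
    (ψ : Ga → Fin ℓ → ℤ) : ℤ :=
  ∑ ρ, lf (w ρ) ⬝ᵥ Eo (dd pr P) μ.n (toLin' μ.g) ψ (rws Φ pr P ρ)

/-- the first left group -/
structure W1 (Φ : Frm) (μ : Md ℓ) (pr : ι → ℕ) (P : ℕ) (i1 : ι) (w : Option ι ⊕ Bool → Vb ℓ) :
    Prop where
  one : w (.inl (some i1)) = 0
  two : dd pr P % 4 = 1 → w (.inl none) = 0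
  fix : ∀ o, w (.inl o) ᵥ* bar μ.g ^ (kap μ.n (Φ.fr (po pr o))).val = w (.inl o)
  five : dd pr P % 8 = 5 → w (.inr true) ᵥ* bar μ.g = w (.inr true)
  four : dd pr P % 8 ≠ 5 → w (.inr true) ∈ K4 (bar μ.g)

/-- the right groups -/
def Vs (Φ : Frm) (μ : Md ℓ) (pr : ι → ℕ) (P j : ℕ) : Set (Option ι → Vb ℓ) :=
  {v | ∃ ψ, CC Φ μ pr P j ψ ∧ red Φ pr ψ = v}

/-- the left groups -/
def Ws (Φ : Frm) (μ : Md ℓ) (pr : ι → ℕ) (P : ℕ) (i1 : ι) (j : ℕ) :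
    Set (Option ι ⊕ Bool → Vb ℓ) :=
  {w | W1 Φ μ pr P i1 w ∧ ∀ ψ, CC Φ μ pr P (j - 1) ψ → (2 : ℤ) ^ j ∣ Pw Φ μ pr P w ψ}

open Classical in
/-- the pairing -/
noncomputable def pg (Φ : Frm) (μ : Md ℓ) (pr : ι → ℕ) (P j : ℕ) (w : Option ι ⊕ Bool → Vb ℓ)
    (v : Option ι → Vb ℓ) : F2 :=
  if ∀ ψ, CC Φ μ pr P j ψ → red Φ pr ψ = v → (2 : ℤ) ^ (j + 1) ∣ Pw Φ μ pr P w ψ then 0 else 1

/-- the right kernels -/
def Us (Φ : Frm) (μ : Md ℓ) (pr : ι → ℕ) (P : ℕ) (i1 : ι) (j : ℕ) : Set (Option ι → Vb ℓ) :=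
  {v | v ∈ Vs Φ μ pr P j ∧ ∀ w ∈ Ws Φ μ pr P i1 j, pg Φ μ pr P j w v = 0}

/-- the product of the orders of the right groups -/
noncomputable def vp (Φ : Frm) (μ : Md ℓ) (pr : ι → ℕ) (P j : ℕ) : ℕ :=
  ∏ i ∈ Ico 2 j, (Vs Φ μ pr P i).ncard

/-- the generating members of a right group -/
def Vg (Φ : Frm) (μ : Md ℓ) (pr : ι → ℕ) (P j : ℕ) : Set (Option ι → Vb ℓ) :=
  {v | v ∈ Vs Φ μ pr P j ∧ G3 (bar μ.g) (bar μ.s) (bar μ.u) v}

/-- the counting function -/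
noncomputable def zz (Φ : Frm) (μ : Md ℓ) (pr : ι → ℕ) (P j : ℕ) : ℕ :=
  (Vg Φ μ pr P j).ncard * vp Φ μ pr P j

/-- the genus cocycle of the largest possible layer, extended by zero -/
noncomputable def fl (S : Sy) (n l : ℕ) (h : Ga) : Co n := fun k =>
  if k.val < 2 ^ min (lev l) n then S.f (min (lev l) n) l h k.val else 0

/-- the matrix of symbols in mixed layers -/
noncomputable def MX (D : ∀ n, Dat n) (n : ℕ) {Λ : Type} [CommRing Λ] (g : Λ) (pr : ι → ℕ)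
    (P : ℕ) : Matrix ι ι Λ := fun i j =>
  cv g ((D (min (min (lev (pr i)) (lev (pr j))) n)).Rc (SP pr P) (pr i) (pr j))

/-- the symbols of the unit in mixed layers -/
noncomputable def cX (D : ∀ n, Dat n) (n : ℕ) {Λ : Type} [CommRing Λ] (g : Λ) (l : ℕ) : Λ :=
  cv g ((D (min (lev l) n)).cc l)

/-- matrices that agree in the layer where they are defined -/
def Cg {Λ : Type} [CommRing Λ] (g : Λ) (n : ℕ) (lv : ι → ℕ) (M M' : Matrix ι ι Λ) : Prop :=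
  ∀ i j, (g - 1) ^ 2 ^ min (min (lv i) (lv j)) n ∣ M' i j - M i j

/-- the relation between the unknown and the value of a row of level `i` -/
def rel {Λ G : Type} [CommRing Λ] [AddCommGroup G] [Module Λ G] (g : Λ) (s u : Module.End Λ G)
    (a i : ℕ) (x r : G) : Prop :=
  if i < a then x = (g - 1) ^ (2 ^ (a - 1) - 2 ^ i) • u r else if i = a then r = s x else r = 0

end Lab

end Pool.Agent.MP_1246c0_nt.H25
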