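import Pool.Agent.MP_1246c0_nt.H25.Defs

/-! The arithmetic part: statements of the pieces. -/

namespace Pool.Agent.MP_1246c0_nt.H25

open NumberField IsDedekindDomain Polynomial Finset Matrix Pool.Agent.MP_db5b97_nt.H85
open Pool.Agent.MP_1246c0_nt.H55 (Fund kD)
open Pool.Agent.MP_1246c0_nt.H12

/-! ### Reciprocity and the existence of unramified extensions -/

/-- the symbol vanishes on a ray -/
def Rec (F : Type) [Field F] [NumberField F] : Prop :=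
  ∃ m : ℕ, ∀ a ∈ Ray F 2 m, ∀ b : Un F, dy a b = 0

/-- units outside `S` and two -/
noncomputable def Su (L : Type) [Field L] [NumberField L] (S : Finset (Pr L 2)) :
    AddSubgroup (Un L) := ⨅ w : {w : Pr L 2 // w ∉ S}, (ord w.1.1).ker

/-- doubles -/
def Db {A : Type} [AddCommGroup A] (U : AddSubgroup A) : AddSubgroup A :=
  U.map (nsmulAddMonoidHom 2)

/-- the projection formula -/
def SRBG : Prop :=
  ∀ (F F' : Type) [Field F] [NumberField F] [Field F'] [NumberField F'] [Algebra F F'],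
    Module.finrank F F' = 2 → IsTotallyReal F' →
    ∀ (a : Un F) (b : Un F'), dy (Un.inc F F' a) b = dy a (Un.nrm F F' b)

/-- reciprocity in a quadratic extension -/
def SRDG : Prop :=
  ∀ (F F' : Type) [Field F] [NumberField F] [Field F'] [NumberField F'] [Algebra F F'],
    Module.finrank F F' = 2 → IsTotallyReal F' → Rec F → Rec F'

/-- squares modulo almost all primes are squares -/
def SSQ : Prop :=
  ∀ (L : Type) [Field L] [NumberField L] (x : Un L), {w : Pr L 2 | qv w.1 x.val ≠ 0}.Finite →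
    ∃ z : Un L, x = 2 • z

/-- the index of the ray modulo squares -/
def SYB1 : Prop :=
  ∀ (L : Type) [Field L] [NumberField L] (m : ℕ), (Ray L 2 m ⊔ Db ⊤).index ≠ 0 ∧
    (Ray L 2 m ⊔ Db ⊤).index ≤ 4 ^ Nat.card (Pl L 2) * 2 ^ Module.finrank ℚ L

/-- units modulo squares -/
def SYB2 : Prop :=
  ∀ (L : Type) [Field L] [NumberField L] (S : Finset (Pr L 2)), IsTotallyReal L →
    2 ^ (S.card + Nat.card (Pl L 2) + Module.finrank ℚ L) ≤ (Db (Su L S)).relIndex (Su L S)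

/-- weak approximation with signs -/
def SWA : Prop :=
  ∀ (L : Type) [Field L] [NumberField L] (T : Finset (Sp L)) (x : Sp L → Un L) (m : ℕ)
    (A : Set (L →+* ℝ)), ∃ b : Un L,
      (∀ w ∈ T, w.valuation L ((b - x w).val - 1) ≤ WithZero.exp (-(m : ℤ))) ∧
      ∀ ρ : L →+* ℝ, ρ b.val < 0 ↔ ρ ∈ A

/-- maximal isotropic subgroups -/
def SISO : Prop :=
  ∀ (A : Type) [AddCommGroup A] (Z U : AddSubgroup A) (B : A →+ A →+ F2) (c : ℕ),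
    (∀ x y, B x y = B y x) → (∀ z ∈ Z, B z = 0) → (∀ x ∈ U, ∀ y ∈ U, B x y = 0) →
    (∀ x ∈ U, B x = 0 → x ∈ Db U) → (∀ x : A, 2 • x ∈ Z) → Z.index ≠ 0 → Z.index ≤ c ^ 2 →
    c ≤ (Db U).relIndex U →
    (∀ lam : A →+ F2, (∀ z ∈ Z, lam z = 0) → (∀ x ∈ U, lam x = 0) → ∃ x ∈ U, B x = lam) ∧
      ∀ y, B y = 0 → y ∈ Z

/-- existence of unramified quadratic extensions -/
def SEXQ : Prop :=
  ∀ (L : Type) [Field L] [NumberField L] (χ : Dv L 2 →+ F2), IsTotallyReal L → Rec L →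
    (∀ x, χ (dv L 2 x) = 0) → ∃ x ∈ Ray L 2 3, (∀ ρ : L →+* ℝ, 0 < ρ x.val) ∧
      ∀ w : Pr L 2, Even (ord w.1 x) ∧ ∀ y : Un L, ord w.1 (x - 2 • y) = 0 →
        qv w.1 (x - 2 • y).val = χ (Finsupp.single w 1)

/-- primes of the ring of all algebraic integers -/
structure SLIFT : Prop where
  lift : ∀ (Q : Ideal OO) (E : IntermediateField ℚ Om) (h : Ga), Q.IsMaximal →
    (∀ x : OO, (x : Om) ∈ E → h • x - x ∈ Q) → ∃ h', In Q h' ∧ ∀ y ∈ E, h' y = h y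
  frob : ∀ (L : IntermediateField ℚ Om) [NumberField L] (Q : Ideal OO) (w : Sp L), Q.IsMaximal →
    Ov L Q w → ∃ F ∈ L.fixingSubgroup, Fb Q (Ideal.absNorm w.asIdeal) F
  frobQ : ∀ (l : ℕ) (Q : Ideal OO), l.Prime → Q.IsMaximal → (l : OO) ∈ Q → ∃ F, Fb Q l F
  ovr : ∀ (L : IntermediateField ℚ Om) [NumberField L] (w : Sp L), ∃ Q, Q.IsMaximal ∧ Ov L Q w
  ovrQ : ∀ l : ℕ, l.Prime → ∃ Q : Ideal OO, Q.IsMaximal ∧ (l : OO) ∈ Q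
  und : ∀ (L : IntermediateField ℚ Om) [NumberField L] (Q : Ideal OO), Q.IsMaximal →
    ∃ w, Ov L Q w
  cnj : ∀ (Q : Ideal OO) (g : Ga), Q.IsMaximal → ∃ Q' : Ideal OO, Q'.IsMaximal ∧
    (∀ x, x ∈ Q' ↔ g • x ∈ Q) ∧ (∀ h, In Q h → In Q' (g⁻¹ * h * g)) ∧
    (∀ h, Dc Q h → Dc Q' (g⁻¹ * h * g)) ∧ ∀ q h, Fb Q q h → Fb Q' q (g⁻¹ * h * g)
  grp : ∀ Q : Ideal OO, Q.IsMaximal → Dc Q 1 ∧ In Q 1 ∧ (∀ h, In Q h → Dc Q h) ∧
    (∀ q h, 0 < q → Fb Q q h → Dc Q h) ∧ (∀ h h', Dc Q h → Dc Q h' → Dc Q (h * h') ∧ Dc Q h⁻¹) ∧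
    (∀ h h', In Q h → In Q h' → In Q (h * h') ∧ In Q h⁻¹) ∧
    (∀ g h, Dc Q g → In Q h → In Q (g⁻¹ * h * g)) ∧
    (∀ g h, Dc Q g → Dc Q h → In Q (g * h * g⁻¹ * h⁻¹)) ∧
    ∀ q h k, Fb Q q h → Fb Q (q ^ k) (h ^ k)
  dec : ∀ (L E : IntermediateField ℚ Om) [NumberField L] [NumberField E] (Q : Ideal OO) (w : Sp L)
    (F h : Ga), Q.IsMaximal → Ov L Q w → L ≤ E → F ∈ L.fixingSubgroup →
    Fb Q (Ideal.absNorm w.asIdeal) F → h ∈ L.fixingSubgroup → Dc Q h →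
    ∃ (k : ℕ) (i : Ga), In Q i ∧ i ∈ L.fixingSubgroup ∧ ∀ y ∈ E, h y = (F ^ k * i) y
  deg : ∀ (L E : IntermediateField ℚ Om) [NumberField L] [NumberField E] (Q : Ideal OO) (w : Sp L)
    (v : Sp E) (F : Ga) (f : ℕ), Q.IsMaximal → Ov L Q w → Ov E Q v → L ≤ E →
    F ∈ L.fixingSubgroup → Fb Q (Ideal.absNorm w.asIdeal) F →
    (∀ i ∈ L.fixingSubgroup, In Q i → i ∈ E.fixingSubgroup) → 0 < f → F ^ f ∈ E.fixingSubgroup →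
    (∀ k, 0 < k → k < f → F ^ k ∉ E.fixingSubgroup) →
    Ideal.absNorm v.asIdeal = Ideal.absNorm w.asIdeal ^ f

/-- the character of Kummer -/
structure SKUM : Prop where
  mul : ∀ (x : Om) (h h' : Ga), h x = x → h' x = x → kch x (h * h') = kch x h + kch x h'
  mul' : ∀ (x y : Om) (h : Ga), x ≠ 0 → y ≠ 0 → h x = x → h y = y →
    kch (x * y) h = kch x h + kch y h
  sq : ∀ (x z : Om) (h : Ga), z ^ 2 = x → h x = x → (kch x h = 0 ↔ h z = z)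
  cnj : ∀ (x : Om) (g h : Ga), h (g x) = g x → kch x (g⁻¹ * h * g) = kch (g x) h
  frb : ∀ (L : IntermediateField ℚ Om) [NumberField L] (Q : Ideal OO) (w : Pr L 2) (y : Un L)
    (F : Ga), Q.IsMaximal → Ov L Q w.1 → ord w.1 y = 0 → F ∈ L.fixingSubgroup →
    Fb Q (Ideal.absNorm w.1.asIdeal) F → kch (y.val : Om) F = qv w.1 y.val
  unr : ∀ (L : IntermediateField ℚ Om) [NumberField L] (Q : Ideal OO) (w : Pr L 2) (y : Un L)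
    (h : Ga), Q.IsMaximal → Ov L Q w.1 → Even (ord w.1 y) → h ∈ L.fixingSubgroup → In Q h →
    kch (y.val : Om) h = 0
  two : ∀ (L : IntermediateField ℚ Om) [NumberField L] (Q : Ideal OO) (y : Un L) (h : Ga),
    Q.IsMaximal → (2 : OO) ∈ Q → h ∈ L.fixingSubgroup →
    (y ∈ Ray L 2 2 → In Q h → kch (y.val : Om) h = 0) ∧
    (y ∈ Ray L 2 3 → Dc Q h → kch (y.val : Om) h = 0)
  opn : ∀ (L : IntermediateField ℚ Om) [NumberField L] (y : Om), Op L.fixingSubgroup → y ∈ L →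
    ∃ U, Op U ∧ U ≤ L.fixingSubgroup ∧ ∀ (g : Ga), ∀ u ∈ U, kch y (g⁻¹ * u * g) = 0

/-- chains of quadratic extensions -/
def Ch : ℕ → IntermediateField ℚ Om → IntermediateField ℚ Om → Prop
  | 0, L, E => E = L
  | J + 1, L, E => ∃ x ∈ L, sqr x ∉ L ∧ Ch J (L ⊔ IntermediateField.adjoin ℚ {sqr x}) E

/-- the law of decomposition in the extension attached to a character -/
structure Tr (L E : IntermediateField ℚ Om) [NumberField L] (J : ℕ) (χ : Dv L 2 →+ ZMod (2 ^ J)) :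
    Prop where
  unr : ∀ Q : Ideal OO, Q.IsMaximal → ∀ h ∈ L.fixingSubgroup, In Q h → h ∈ E.fixingSubgroup
  two : ∀ Q : Ideal OO, Q.IsMaximal → (2 : OO) ∈ Q → ∀ h ∈ L.fixingSubgroup, Dc Q h →
    h ∈ E.fixingSubgroup
  frb : ∀ (Q : Ideal OO) (w : Pr L 2), Q.IsMaximal → Ov L Q w.1 → ∀ F ∈ L.fixingSubgroup,
    Fb Q (Ideal.absNorm w.1.asIdeal) F →
    ∀ k : ℕ, F ^ k ∈ E.fixingSubgroup ↔ k • χ (Finsupp.single w 1) = 0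

/-- the tower -/
def STWR : Prop :=
  ∀ (J : ℕ) (L : IntermediateField ℚ Om) [NumberField L] (χ : Dv L 2 →+ ZMod (2 ^ J)),
    IsTotallyReal L → Rec L → (∀ x, χ (dv L 2 x) = 0) → (∃ D, IsUnit (χ D)) →
    ∃ E, Ch J L E ∧ Tr L E J χ

/-- chains are determined by the decomposition of primes -/
structure SBAU : Prop where
  fin : ∀ (J : ℕ) (L E : IntermediateField ℚ Om) [NumberField L], Ch J L E →
    L ≤ E ∧ NumberField E ∧ E.fixingSubgroup.relIndex L.fixingSubgroup = 2 ^ J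
  map : ∀ (J : ℕ) (L E : IntermediateField ℚ Om) (g : Ga), Ch J L E →
    Ch J (L.map g.toAlgHom) (E.map g.toAlgHom)
  bau : ∀ (J : ℕ) (L E E' : IntermediateField ℚ Om) [NumberField E], Ch J L E' → L ≤ E →
    (∀ Q : Ideal OO, Q.IsMaximal → (2 : OO) ∉ Q → ∀ h ∈ E.fixingSubgroup, Dc Q h →
      h ∈ E'.fixingSubgroup) → E' ≤ E

/-- homomorphisms that are unramified and split above two -/
structure Hm (H : Subgroup Ga) {B : Type} [AddCommGroup B] (ψ : Ga → B) : Prop where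
  add : ∀ h ∈ H, ∀ h' ∈ H, ψ (h * h') = ψ h + ψ h'
  opn : ∃ U, Op U ∧ U ≤ H ∧ ∀ u ∈ U, ψ u = 0
  unr : ∀ Q : Ideal OO, Q.IsMaximal → ∀ h ∈ H, In Q h → ψ h = 0
  two : ∀ Q : Ideal OO, Q.IsMaximal → (2 : OO) ∈ Q → ∀ h ∈ H, Dc Q h → ψ h = 0

/-- existence of unramified cyclic extensions -/
def SEXC : Prop :=
  ∀ (J : ℕ) (L : IntermediateField ℚ Om) [NumberField L] (χ : Dv L 2 →+ ZMod (2 ^ J)),
    IsTotallyReal L → Rec L → Op L.fixingSubgroup → (∀ x, χ (dv L 2 x) = 0) →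
    (∃ D, IsUnit (χ D)) → ∃ ψ : Ga → ZMod (2 ^ J), Hm L.fixingSubgroup ψ ∧
      (∃ h ∈ L.fixingSubgroup, IsUnit (ψ h)) ∧
      ∀ (Q : Ideal OO) (w : Pr L 2), Q.IsMaximal → Ov L Q w.1 →
        ((∀ h ∈ L.fixingSubgroup, Dc Q h → ψ h = 0) ↔ χ (Finsupp.single w 1) = 0)

/-! ### The frame -/

/-- the layers inside the algebraic numbers -/
noncomputable def kQ (n : ℕ) : IntermediateField ℚ Om := IntermediateField.adjoin ℚ {th n}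

instance (n : ℕ) : NumberField (kQ n) :=
  have : FiniteDimensional ℚ (kQ n) := IntermediateField.finiteDimensional_adjoin
    fun x _ => (Algebra.IsAlgebraic.isAlgebraic x).isIntegral
  NumberField.of_module_finite ℚ _

/-- the layers are models -/
structure SKQ : Prop where
  cy : ∀ n, ∃ (θ : kQ n) (γ : kQ n ≃ₐ[ℚ] kQ n), (θ : Om) = th n ∧ Cy (kQ n) n θ γ ∧
    ∀ (h : Ga) (x : kQ n), h x = ((γ ^ (kap n h).val) x : kQ n)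
  mem : ∀ n h, h ∈ (kQ n).fixingSubgroup ↔ kap n h = 0
  root : ∀ n, ∃ ζ : Om, IsPrimitiveRoot ζ (2 ^ (n + 2)) ∧ th n = ζ + ζ⁻¹

def SFE : Prop := Nonempty Frm

def SAXV : Prop := ∀ Φ : Frm, AxV Φ

def SREL : Prop := ∀ Φ : Frm, AxR Φ

def SGEN : Prop := ∀ Φ : Frm, AxG Φ

/-- data of symbols with prescribed primes -/
def SDT2 : Prop :=
  ∀ (F : Type) [Field F] [NumberField F] (n : ℕ) (θ : F) (γ : F ≃ₐ[ℚ] F) (ρ₀ : F →+* ℝ)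
    (ψ : ∀ l : ℕ, 𝓞 F → ZMod l), Cy F n θ γ →
    (∀ l, Gd n l → ∃ ψ' : 𝓞 F →+* ZMod l, ∀ x, ψ l x = ψ' x) →
    ∃ (η : 𝓞 F) (h : ℕ) (π : ℕ → 𝓞 F) (α : ℕ → Un F), IsUnit η ∧ ρ₀ η < 0 ∧
      (∀ ρ : F →+* ℝ, ρ ≠ ρ₀ → 0 < ρ η) ∧ Odd h ∧ ∀ l, Gd n l →
        Ideal.span {π l} = Ideal.span {y | ψ l y = 0} ^ h ∧
        (∀ ρ : F →+* ℝ, 0 < ρ (π l)) ∧ α l ∈ Ray F 2 2 ∧
        (∀ w : Pr F 2, Odd (ord w.1 (α l)) ↔ ∀ x, x ∈ w.1.asIdeal ↔ ψ l x = 0) ∧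
        (∀ k : ℕ, (if ρ₀ ((γ ^ k) (α l).val) < 0 then 1 else 0) = qr (ψ l (γ⁻¹ ^ k • η))) ∧
        ∀ (q k : ℕ) (w : Pr F 2) (y : Un F), Gd n q → (∀ x, x ∈ w.1.asIdeal ↔ ψ q x = 0) →
          (q = l → γ ^ k ≠ 1) → ord w.1 (γ ^ k • α l - 2 • y) = 0 →
          qv w.1 (γ ^ k • α l - 2 • y).val = qr (ψ l (γ⁻¹ ^ k • π q))

/-- existence of the genus cocycles -/
def SFF : Prop := ∀ Φ : Frm, ∃ S : Sy, S.Φ = Φ ∧ Ax2 S

/-! ### The tower over the quadratic field -/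

/-- a model of the layer `M` over the quadratic field -/
structure Tq (L : Type) [Field L] [NumberField L] (d M : ℕ) (s θ : L) (σ γ : L ≃ₐ[ℚ] L) :
    Prop where
  sqf : Squarefree d
  odd : Odd d
  big : 1 < d
  sq : s ^ 2 = d
  rk : Module.finrank ℚ L = 2 ^ (M + 1)
  gen : IntermediateField.adjoin ℚ {s, θ} = ⊤
  root : tw^[M] θ = 0
  ss : σ s = -s
  st : σ θ = θ
  gs : γ s = s
  gt : γ θ = θ ^ 3 - 3 * θ

/-- the layers over the quadratic field -/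
structure STQ : Prop where
  gal : ∀ (L : Type) [Field L] [NumberField L] (d M : ℕ) (s θ : L) (σ γ : L ≃ₐ[ℚ] L),
    Tq L d M s θ σ γ → IsGalois ℚ L ∧ (∀ g : L ≃ₐ[ℚ] L, ∃ k : ℕ, g = γ ^ k ∨ g = σ * γ ^ k) ∧
      σ * σ = 1 ∧ σ * γ = γ * σ ∧ orderOf γ = 2 ^ M ∧ (∀ k : ℕ, σ ≠ γ ^ k) ∧ IsTotallyReal L
  emb : ∀ (L F : Type) [Field L] [NumberField L] [Field F] [NumberField F] (d M : ℕ) (s θ : L)
    (σ γ : L ≃ₐ[ℚ] L) (θ' : F) (γ' : F ≃ₐ[ℚ] F), Tq L d M s θ σ γ → Cy F M θ' γ' →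
    ∃ j : F →+* L, j θ' = θ ∧ (∀ x, j (γ' x) = γ (j x)) ∧ ∀ y, y ∈ j.range ↔ σ y = y
  bot : ∀ (L L' : Type) [Field L] [NumberField L] [Field L'] [NumberField L'] (d M : ℕ)
    (s θ : L) (σ γ : L ≃ₐ[ℚ] L) (s' θ' : L') (σ' γ' : L' ≃ₐ[ℚ] L'), Tq L d M s θ σ γ →
    Tq L' d 0 s' θ' σ' γ' → ∃ j : L' →+* L, j s' = s ∧ ∀ y, y ∈ j.range ↔ γ y = y
  ex : ∀ d M : ℕ, Squarefree d → Odd d → 1 < d → ∃ (s θ : kM d M) (σ γ : kM d M ≃ₐ[ℚ] kM d M),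
    (s : Om) = sqr d ∧ (θ : Om) = th M ∧ Tq (kM d M) d M s θ σ γ
  mem : ∀ (d M : ℕ) (h : Ga), h ∈ (kM d M).fixingSubgroup ↔ chi d h = 0 ∧ kap M h = 0
  rcp : ∀ (L : Type) [Field L] [NumberField L] (d M : ℕ) (s θ : L) (σ γ : L ≃ₐ[ℚ] L),
    Tq L d M s θ σ γ → Rec L

/-- primes in the layers over the quadratic field -/
structure STQP : Prop where
  card : ∀ (L : Type) [Field L] [NumberField L] (d M : ℕ) (s θ : L) (σ γ : L ≃ₐ[ℚ] L),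
    Tq L d M s θ σ γ → Nat.card (Pl L 2) ≤ 2
  non : ∀ (L : Type) [Field L] [NumberField L] (d M : ℕ) (s θ : L) (σ γ : L ≃ₐ[ℚ] L),
    Tq L d M s θ σ γ → d % 8 ≠ 1 → ∀ w : Pl L 2, (w.1.asIdeal ^ 2).IsPrincipal
  spl : ∀ (L : Type) [Field L] [NumberField L] (d M : ℕ) (s θ : L) (σ γ : L ≃ₐ[ℚ] L),
    Tq L d M s θ σ γ → d % 8 = 1 → ∀ w : Pl L 2, γ • w = w ∧ σ • w ≠ w ∧
      (∀ x : Un L, x.val = 2 → ord w.1 x = 2 ^ M) ∧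
      (∀ x : Un L, x.val = 2 + θ → ord w.1 x = 1) ∧
      ∀ x : 𝓞 L, x ∈ w.1.asIdeal ∨ x - 1 ∈ w.1.asIdeal
  unr : ∀ (L : Type) [Field L] [NumberField L] (d M : ℕ) (s θ : L) (σ γ : L ≃ₐ[ℚ] L),
    Tq L d M s θ σ γ → ∀ (w : Pr L 2) (k : ℕ), (∀ x : 𝓞 L, γ ^ k • x - x ∈ w.1.asIdeal) → γ ^ k = 1
  five : ∀ (L : Type) [Field L] [NumberField L] (d M : ℕ) (s θ : L) (σ γ : L ≃ₐ[ℚ] L),
    Tq L d M s θ σ γ → ∀ P : ℕ, P.Prime → P % 8 = 5 → P ∣ d → ∃ w0 : Pr L 2,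
      (∀ v : Sp L, (P : 𝓞 L) ∈ v.asIdeal ↔ v = w0.1) ∧
      ∃ x : Un L, dv L 2 x = 2 • Finsupp.single w0 1

/-- the quotient of Herbrand of the units -/
def SHU : Prop :=
  ∀ (L : Type) [Field L] [NumberField L] (γ : L ≃ₐ[ℚ] L), IsTotallyReal L →
    orderOf γ * hs (Eu L) (Df γ) (Nm γ (orderOf γ)) = hs (Eu L) (Nm γ (orderOf γ)) (Df γ) ∧
      hs (Eu L) (Nm γ (orderOf γ)) (Df γ) ≠ 0

/-- few units are norms -/
def SLNM : Prop :=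
  ∀ d : ℕ, d % 8 = 1 → ∃ c : ℕ, ∀ (L : Type) [Field L] [NumberField L] (M : ℕ) (s θ : L)
    (σ γ : L ≃ₐ[ℚ] L), Tq L d M s θ σ γ → hs (Eu L) (Df γ) (Nm γ (2 ^ M)) ≠ 0 →
    2 ^ M ≤ 2 ^ c * hs (Eu L) (Df γ) (Nm γ (2 ^ M))

/-- the primes above two have bounded order -/
def SLEO : Prop :=
  ∀ d : ℕ, ∃ b : ℕ, ∀ (L : Type) [Field L] [NumberField L] (M : ℕ) (s θ : L) (σ γ : L ≃ₐ[ℚ] L),
    Tq L d M s θ σ γ → ∀ w : Pl L 2, ∃ k : ℕ, Odd k ∧ (w.1.asIdeal ^ (2 ^ b * k)).IsPrincipal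

/-- a bound for the class number -/
def SCLS : Prop :=
  ∀ (L : Type) [Field L] [NumberField L] (w0 : Pr L 2) (b ρ J : ℕ), Nat.card (Pl L 2) ≤ 2 →
    (∃ x : Un L, dv L 2 x = 2 • Finsupp.single w0 1) →
    (∀ w : Pl L 2, ∃ k : ℕ, Odd k ∧ (w.1.asIdeal ^ (2 ^ b * k)).IsPrincipal) →
    (∀ X : Finset (Dv L 2 →+ ZMod (2 ^ 1)), (∀ χ ∈ X, (∀ x, χ (dv L 2 x) = 0) ∧
      χ (Finsupp.single w0 1) = 0) → X.card ≤ 2 ^ ρ) →
    (∀ χ : Dv L 2 →+ ZMod (2 ^ J), (∀ x, χ (dv L 2 x) = 0) → χ (Finsupp.single w0 1) = 0 →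
      ∀ D, ¬IsUnit (χ D)) →
    padicValNat 2 (Nat.card (ClassGroup (𝓞 L))) ≤ J * ρ + 1 + 2 * b

/-- passage to the complex numbers -/
def SBRG : Prop :=
  ∀ d : ℕ, Squarefree d → Odd d → 1 < d → Gr d →
    Green2 (kD d) ∧ Green2 (kD (4 * d)) ∧ Green2 (kD (8 * d))

/-! ### Cocycles -/

/-- elementary properties of cocycles -/
structure SCC : Prop where
  acn : ∀ (M : Type) [AddCommGroup M] (d n : ℕ) (T : Module.End ℤ M) (A : AddSubgroup M), Ax0 →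
    Ad T n A → (∀ h, ∀ x ∈ A, acn d n T h x ∈ A) ∧ (∀ h x, acn d n T h x ∈ A → x ∈ A) ∧
      ∀ h h' x, acn d n T (h * h') x - acn d n T h (acn d n T h' x) ∈ A
  one : ∀ (M : Type) [AddCommGroup M] (Φ : Frm) (d P n : ℕ) (T : Module.End ℤ M)
    (A : AddSubgroup M) (ψ : Ga → M), Ax0 → Cc Φ d P n T A ψ → ψ 1 ∈ A
  mono : ∀ (M : Type) [AddCommGroup M] (Φ : Frm) (d P n : ℕ) (T : Module.End ℤ M)
    (A A' : AddSubgroup M) (ψ : Ga → M), A ≤ A' → Cc Φ d P n T A ψ → Cc Φ d P n T A' ψ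
  add : ∀ (M : Type) [AddCommGroup M] (Φ : Frm) (d P n : ℕ) (T : Module.End ℤ M)
    (A : AddSubgroup M) (ψ ψ' : Ga → M), Ax0 → Cc Φ d P n T A ψ → Cc Φ d P n T A ψ' →
    Cc Φ d P n T A (ψ + ψ') ∧ Cc Φ d P n T A (ψ - ψ')
  cng : ∀ (M : Type) [AddCommGroup M] (Φ : Frm) (d P n : ℕ) (T : Module.End ℤ M)
    (A : AddSubgroup M) (ψ ψ' : Ga → M), Ax0 → (∀ x ∈ A, T x ∈ A) → (∀ h, ψ' h - ψ h ∈ A) →
    Cc Φ d P n T A ψ → Cc Φ d P n T A ψ'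
  map : ∀ (M M' : Type) [AddCommGroup M] [AddCommGroup M'] (Φ : Frm) (d P n : ℕ)
    (T : Module.End ℤ M) (T' : Module.End ℤ M') (A : AddSubgroup M) (A' : AddSubgroup M')
    (lam : M → M') (ψ : Ga → M), (∀ x ∈ A', T' x ∈ A') → (∀ x ∈ A, lam x ∈ A') →
    (∀ x y, lam (x + y) - lam x - lam y ∈ A') → (∀ x, lam (T x) - T' (lam x) ∈ A') →
    Cc Φ d P n T A ψ → Cc Φ d P n T' A' fun h => lam (ψ h)
  lvl : ∀ (M : Type) [AddCommGroup M] (Φ : Frm) (d P n n' : ℕ) (T : Module.End ℤ M)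
    (A : AddSubgroup M) (ψ : Ga → M), Ax0 → Ad T n A → Ad T n' A → Cc Φ d P n T A ψ →
    Cc Φ d P n' T A ψ
  dbl : ∀ (M : Type) [AddCommGroup M] (Φ : Frm) (d P n j : ℕ) (T : Module.End ℤ M) (ψ : Ga → M),
    Cc Φ d P n T (Mu M j) ψ → Cc Φ d P n T (Mu M (j + 1)) fun h => 2 • ψ h
  hlf : ∀ (M : Type) [AddCommGroup M] (Φ : Frm) (d P n i j : ℕ) (T : Module.End ℤ M)
    (ψ : Ga → M), (∀ x : M, 2 • x = 0 → x = 0) →
    Cc Φ d P n T (Mu M (i + j)) (fun h => 2 ^ i • ψ h) → Cc Φ d P n T (Mu M j) ψ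
  odd : ∀ (M : Type) [AddCommGroup M] (Φ : Frm) (d P n l : ℕ) (T : Module.End ℤ M)
    (A : AddSubgroup M) (ψ : Ga → M), Ax1 Φ → Ad T n A → Cc Φ d P n T A ψ → Gd 0 l →
    chi d (Φ.sg l) = 1 → Eo d n T ψ (Φ.fr l, Φ.sg l) ∈ A
  inf : ∀ (M : Type) [AddCommGroup M] (Φ : Frm) (d P n : ℕ) (T : Module.End ℤ M)
    (A : AddSubgroup M) (ψ : Ga → M), Ax1 Φ → Ad T n A → Cc Φ d P n T A ψ →
    Eo d n T ψ (Φ.cj, 1) ∈ A
  det : ∀ (M : Type) [AddCommGroup M] (Φ : Frm) (d P n : ℕ) (T : Module.End ℤ M)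
    (A W : AddSubgroup M) (ψ : Ga → M), Ax1 Φ → Ad T n A → A ≤ W → (∀ x ∈ W, T x ∈ W) →
    P.Prime → P % 8 = 5 → Cc Φ d P n T A ψ →
    (∀ l, l.Prime → l ≠ P → chi d (Φ.sg l) = 1 → ψ (Φ.sg l) ∈ W) → ∀ h, ψ h ∈ W
  lab : ∀ (ι : Type) [Fintype ι] [DecidableEq ι] (Φ : Frm) (pr : ι → ℕ) (P : ℕ) (i1 : ι), Ax1 Φ →
    Lb pr P i1 → Squarefree (dd pr P) ∧ Odd (dd pr P) ∧ 1 < dd pr P ∧
      (dd pr P).primeFactors = SP pr P ∧ Gd 0 P ∧ lev P = 0 ∧ eps P = 0 ∧ lev (pr i1) = 0 ∧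
      eps (pr i1) = 0 ∧ eps (dd pr P) = ∑ i, eps (pr i) ∧
      ((dd pr P % 8 = 3 ∨ dd pr P % 8 = 5) ↔ Even (univ.filter fun i => lev (pr i) = 0).card) ∧
      (∀ h, chi (dd pr P) h = chi P h + ∑ i, chi (pr i) h) ∧
      ∀ l, l.Prime → (chi (dd pr P) (Φ.sg l) = 1 ↔
        l = P ∨ (∃ i, l = pr i) ∨ (l = 2 ∧ dd pr P % 4 = 3))
  adm : ∀ (M : Type) [AddCommGroup M] (T s u : Module.End ℤ M) (a : ℕ), Adm T s u a →
    (∀ j n, a + j ≤ n + 1 → Ad T n (Mu M j)) ∧ (∀ n x, a < n → gs T (2 ^ n) x ∈ Mu M 1) ∧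
    (∀ i x, a < i → (T ^ 2 ^ i) x - x ∈ Mu M 2) ∧
    ∀ i, i < a → ∃ v : Module.End ℤ M,
      (∀ x, v x - ((T - 1) ^ (2 ^ (a - 1) - 2 ^ i) * u : Module.End ℤ M) x ∈ Mu M 1) ∧
      (∀ x, v ((T ^ 2 ^ i) x - x) - 2 • x ∈ Mu M 2) ∧
      ∀ x, (T ^ 2 ^ i) (v x) - v x - 2 • x ∈ Mu M 2

/-- the rank of the module generated by a cocycle -/
def SRNK : Prop :=
  ∀ (M : Type) [AddCommGroup M] [Finite M] (Φ : Frm) (d P n : ℕ) (T : Module.End ℤ M)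
    (ψ : Ga → M), Ax1 Φ → Squarefree d → Odd d → P.Prime → P % 8 = 5 → T ^ 2 ^ n = 1 →
    Cc Φ d P n T ⊥ ψ → AddSubgroup.closure (Set.range ψ) = ⊤ → (Mu M 1).index ≤ 2 ^ (tt d + 1)

/-- induction -/
def SIND : Prop :=
  ∀ (B : Type) [AddCommGroup B] [Finite B] (Φ : Frm) (d P n : ℕ) (H : Subgroup Ga) (ψ : Ga → B),
    Ax1 Φ → Squarefree d → Odd d → P.Prime → P % 8 = 5 → P ∣ d →
    (∀ h, h ∈ H ↔ chi d h = 0 ∧ kap n h = 0) → (∀ b : B, ∃ k : ℕ, 2 ^ k • b = 0) → Hm H ψ →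
    (∀ Q : Ideal OO, Q.IsMaximal → (P : OO) ∈ Q → ∀ h ∈ H, Dc Q h → ψ h = 0) →
    ∃ (M : Type) (_ : AddCommGroup M) (_ : Finite M) (T : Module.End ℤ M) (ψ' : Ga → M),
      T ^ 2 ^ n = 1 ∧ (∀ y : M, ∃ k : ℕ, 2 ^ k • y = 0) ∧ Cc Φ d P n T ⊥ ψ' ∧
      AddSubgroup.closure (Set.range ψ') = ⊤ ∧
      (∀ j : ℕ, (∀ y : M, 2 ^ j • y = 0) → ∀ h ∈ H, 2 ^ (j + 1) • ψ h = 0) ∧
      ((∀ b : B, 2 • b = 0) → (∀ y : M, 2 • y = 0) ∧ (ψ '' H).ncard ≤ Nat.card M ^ 2)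

/-- unbounded class numbers give cocycles of large order -/
def SCHR : Prop :=
  ∀ (Φ : Frm) (d P J : ℕ), Ax1 Φ → Squarefree d → Odd d → P.Prime → P % 8 = 5 → P ∣ d → ¬Gr d →
    ∃ (M : Type) (_ : AddCommGroup M) (_ : Finite M) (n : ℕ) (T : Module.End ℤ M) (ψ : Ga → M),
      T ^ 2 ^ n = 1 ∧ (∀ y : M, ∃ k : ℕ, 2 ^ k • y = 0) ∧ Cc Φ d P n T ⊥ ψ ∧
      AddSubgroup.closure (Set.range ψ) = ⊤ ∧ (Mu M 1).index ≤ 2 ^ (tt d + 1) ∧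
      ∃ y : M, 2 ^ J • y ≠ 0

/-- a gap in the elementary divisors -/
def SGAP : Prop :=
  ∀ (M : Type) [AddCommGroup M] [Finite M] (ρ J : ℕ), (∀ y : M, ∃ k : ℕ, 2 ^ k • y = 0) →
    (Mu M 1).index ≤ 2 ^ ρ → (∃ y : M, 2 ^ (J * (ρ + 1)) • y ≠ 0) →
    ∃ (ℓ i : ℕ) (π : M →+ Fin ℓ → ZMod (2 ^ J)), 1 ≤ ℓ ∧ ℓ ≤ ρ ∧ Function.Surjective π ∧
      ∀ x, π x = 0 ↔ 2 ^ i • x ∈ Mu M (i + J)

/-- eigenfunctionals -/
def SEG2 : Prop :=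
  ∀ (M : Type) [AddCommGroup M] [Finite M] (T : Module.End ℤ M) (ρ J n : ℕ), 1 ≤ J →
    T ^ 2 ^ n = 1 → (∀ y : M, ∃ k : ℕ, 2 ^ k • y = 0) → (Mu M 1).index ≤ 2 ^ ρ →
    (∃ y : M, 2 ^ (J * (ρ + 1)) • y ≠ 0) →
    ∃ (O : Type) (_ : CommRing O) (_ : IsDomain O) (_ : IsDiscreteValuationRing O)
      (_ : CharZero O) (_ : Finite (IsLocalRing.ResidueField O)) (t : O) (lam : M → O), Eg t ∧
      (Mu O 1).index ≠ 0 ∧ (Mu O 1).index ≤ 2 ^ ρ ∧ 2 ^ J ∣ om n t ∧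
      (∀ x y, lam (x + y) - lam x - lam y ∈ Mu O J) ∧
      (∀ x, lam (T x) - (1 + t) * lam x ∈ Mu O J) ∧ lam 0 = 0 ∧ ∃ x, IsUnit (lam x)

/-- a solution with values in a discrete valuation ring -/
structure So (Φ : Frm) (d P n J : ℕ) {O : Type} [CommRing O] (t : O) (a : ℕ) (ψ : Ga → O) :
    Prop where
  eg : Eg t
  lv : Lv t a
  pw : 2 ^ J ∣ om n t
  cc : Cc Φ d P n (LinearMap.mulLeft ℤ (1 + t)) (Mu O J) ψ
  un : ∃ h, IsUnit (ψ h)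

/-- unbounded class numbers give solutions -/
def SCR0 : Prop :=
  ∀ (Φ : Frm) (d P J : ℕ), Ax1 Φ → Squarefree d → Odd d → P.Prime → P % 8 = 5 → P ∣ d → ¬Gr d →
    1 ≤ J → ∃ (O : Type) (_ : CommRing O) (_ : IsDomain O) (_ : IsDiscreteValuationRing O)
      (_ : CharZero O) (_ : Finite (IsLocalRing.ResidueField O)) (t : O) (n a : ℕ) (ψ : Ga → O),
      (Mu O 1).index ≠ 0 ∧ (Mu O 1).index ≤ 2 ^ (tt d + 1) ∧ So Φ d P n J t a ψ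

/-- passage to a lattice -/
def SLWL : Prop :=
  ∀ (ι : Type) [Fintype ι] [DecidableEq ι] (Φ : Frm) (pr : ι → ℕ) (P : ℕ) (i1 : ι) (O : Type)
    [CommRing O] [IsDomain O] [IsDiscreteValuationRing O] [CharZero O] (t : O) (ρ J n n' a : ℕ)
    (ψ : Ga → O), Ax1 Φ → Lb pr P i1 → 2 ≤ J → a + J ≤ n → (Mu O 1).index ≠ 0 →
    (Mu O 1).index ≤ 2 ^ ρ → So Φ (dd pr P) P n' (J * (ρ + 1) + 1) t a ψ →
    ∃ (ℓ : ℕ) (μ : Md ℓ), 1 ≤ ℓ ∧ μ.a = a ∧ μ.n = n ∧ μ.Ok J ∧ (Vg Φ μ pr P J).Nonempty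

def OfRBG : Prop := SRA → SRBG
def OfRDG : Prop := SRA → SRBG → SWA → SRDG
def OfEXQ : Prop := SRA → SSQ → SYB1 → SYB2 → SWA → SISO → SEXQ
def OfKUM : Prop := SLIFT → SKUM
def OfTWR : Prop := SRDG → SSQ → SEXQ → SLIFT → SKUM → STWR
def OfBAU : Prop := SSQ → SLIFT → SKUM → SBAU
def OfEXC : Prop := SLIFT → STWR → SBAU → SEXC
def OfAX0 : Prop := SCY → Ax0 ∧ SKQ
def OfFE : Prop := SLIFT → SKUM → SFE
def OfAXV : Prop := SCY → SDEC → SQR → SLIFT → SKUM → Ax0 → SKQ → SAXV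
def OfGEN : Prop := Ax0 → SAXV → SGEN
def OfDT2 : Prop := SCY → SDEC → SUN → SODD → SQR → SRA → SRE → SDT2
def OfFF : Prop := SCY → SDEC → SQR → SRA → SLIFT → SKUM → Ax0 → SKQ → SAXV → SDT2 → SFF
def OfTQ : Prop := SCY → SDEC → SRD → SRDG → Ax0 → SKQ → STQ
def OfTQP : Prop := SCY → SDEC → STQ → STQP
def OfLNM : Prop := SCY → SDEC → STQ → STQP → SLNM
def OfLEO : Prop := STQ → STQP → SHU → SLNM → SLEO
def OfBRG : Prop := SKQ → STQ → SBRG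
def OfCC : Prop := SDEC → SQR → SCC
def OfRNK : Prop := SCC → SRNK
def OfIND : Prop := SLIFT → SCC → SIND
def OfCHR : Prop := SLIFT → SEXC → STQ → STQP → SLEO → SCLS → SRNK → SIND → SCHR
def OfEG2 : Prop := SGAP → SEG2
def OfCR0 : Prop := SCC → SCHR → SEG2 → SCR0
def OfLWL : Prop := SCC → SGAP → SLWL

end Pool.Agent.MP_1246c0_nt.H25
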