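import Pool.Agent.MP_1246c0_nt.H25.Defs

/-! Random matrices: definitions and statements of the pieces. -/

namespace Pool.Agent.MP_1246c0_nt.H25

open Polynomial Finset Matrix
open Pool.Agent.MP_1246c0_nt.H12

section Gen

variable {Λ ι G : Type} [CommRing Λ] [Fintype ι] [DecidableEq ι] [AddCommGroup G] [Module Λ G]

/-- the right side of the system -/
def rvo (P O : Finset ι) (b : Bool) (u : Module.End Λ G) (g : ι → G) (l : ι) : G :=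
  if l ∈ P then (if b = true then g l + ∑ l' ∈ O, g l' else u (g l + ∑ l' ∈ O, g l')) else 0

/-- solutions of the system -/
def Slo (S : Matrix ι ι Λ) (c : ι → Λ) (P O : Finset ι) (b : Bool) (u : Module.End Λ G)
    (g : ι → G) : Prop :=
  (∀ l, ap S (xv P b u g) l = rvo P O b u g l) ∧ ∑ l, c l • xv P b u g l = 0

/-- the number of generating solutions -/
noncomputable def Suo (S : Matrix ι ι Λ) (c : ι → Λ) (P O : Finset ι) (b : Bool)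
    (u : Module.End Λ G) : ℕ :=
  Nat.card {g : ι → G // Slo S c P O b u g ∧ Gen u g}

/-- the admissible sets of summation -/
structure Oa (B P O : Finset ι) : Prop where
  sub : O ⊆ P
  ev : Even O.card
  all : O = ∅ ∨ P ∩ B ⊆ O

/-- the symmetry of a matrix in mixed layers -/
def SymC (st : Λ →+* Λ) (au : Λ →+* F2) (g : Λ) (n : ℕ) (lv : ι → ℕ) (S : Matrix ι ι Λ)
    (c : ι → Λ) (B : Finset ι) : Prop :=
  ∀ l ∈ B, ∀ l' ∈ B, (g - 1) ^ 2 ^ min (min (lv l) (lv l')) n ∣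
    S l l' + st (S l' l) - (st (c l) * c l' + if l = l' then ((au (c l)).val : Λ) else 0)

/-- a solution over a ring with a unit coordinate -/
def BadT (S : Matrix ι ι Λ) (c : ι → Λ) (P : Finset ι) (b : Bool) : Prop :=
  ∃ (R : Type) (_ : CommRing R) (φ : Λ →+* R) (ν : R) (y : ι → R), Function.Injective φ ∧
    (∀ l, ∑ l', φ (S l l') * (if l' ∈ P ∧ b = true then ν * y l' else y l') =
      if l ∈ P then (if b = true then y l else ν * y l) else 0) ∧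
    ∑ l, φ (c l) * (if l ∈ P ∧ b = true then ν * y l else y l) = 0 ∧
    ∃ l, IsUnit (y l) ∧ (b = true → l ∉ P)

/-- the same on the indices of level at least `a` -/
def BadU (lv : ι → ℕ) (c : ι → Λ) (S : Matrix ι ι Λ) (a : ℕ) (b : Bool) : Prop :=
  BadT (ι := {l // a ≤ lv l}) (S.submatrix Subtype.val Subtype.val) (fun l => c l.1)
    (univ.filter fun l => lv l.1 = a) b

/-- a family of hermitian matrices -/
def HH (st : Λ →+* Λ) (g : Λ) (y : ι × ι → Λ) : Matrix ι ι Λ :=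
  fun l l' => if l = l' then 0 else y (l, l') * g + y (l', l) * st g

/-- the matrix applied to the part of a vector on `B` -/
def apB (B : Finset ι) (S : Matrix ι ι Λ) (y : ι → G) (l : ι) : G := ∑ l' ∈ B, S l l' • y l'

/-- one of the two coordinates determines the other -/
def Fnl (r : G → G → Prop) : Prop :=
  (∀ y R R', r y R → r y R' → R = R') ∨ ∀ y y' R, r y R → r y' R → y = y'

end Gen

section One

variable {ι : Type} [Fintype ι] [DecidableEq ι]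

/-- the pencil operator -/
def pto (P O : Finset ι) (y : ι → F2) (l : ι) : F2 := if l ∈ P then y l + ∑ l' ∈ O, y l' else 0

/-- a nonzero solution over the field defined by `p` -/
def Hto (S : Matrix ι ι F2) (e : ι → F2) (P O : Finset ι) (p : F2[X]) : Prop :=
  ∃ g : ι → AdjoinRoot p, g ≠ 0 ∧ Slo S e P O false (LinearMap.mulLeft F2 (AdjoinRoot.root p)) g

/-- failure of first order, in degree at least `f` -/
def Bdo (S : Matrix ι ι F2) (e : ι → F2) (P O : Finset ι) (f : ℕ) : Prop :=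
  ∃ p : F2[X], Irreducible p ∧ f ≤ p.natDegree ∧ Hto S e P O p

/-- the values prescribed by a chain -/
def vvo {k : ℕ} (S : Matrix ι ι F2) (P O : Finset ι) (y : Fin (k + 1) → ι → F2) (j : Fin k) :
    ι → F2 := pto P O (y j.succ) - S *ᵥ y j.castSucc

/-- the conditions on a chain that do not involve the random part -/
def Cno {k : ℕ} (S : Matrix ι ι F2) (e : ι → F2) (B P O : Finset ι)
    (y : Fin (k + 1) → ι → F2) : Prop :=
  (∀ j, dot univ e (y j) = 0) ∧ (∀ j l, l ∉ B → vvo S P O y j l = 0) ∧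
    ∀ i j : Fin k, dot B (y i.castSucc) (vvo S P O y j) = dot B (y j.castSucc) (vvo S P O y i)

/-- the number of closed independent chains -/
noncomputable def GTo (S : Matrix ι ι F2) (e : ι → F2) (F P O : Finset ι) (f : ℕ) : ℕ :=
  Nat.card {q : (Fin f → ι → F2) × (Fin f → F2) // Idp F q.1 ∧ (∀ j, dot univ e (q.1 j) = 0) ∧
    ∀ j, S *ᵥ q.1 j = pto P O (nxt q.1 q.2 j)}

/-- a chain that starts off `F` -/
def NGo (S : Matrix ι ι F2) (e : ι → F2) (F P O : Finset ι) : Prop :=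
  ∃ y : ℕ → ι → F2, y 0 ≠ 0 ∧ (∀ l ∈ F, y 0 l = 0) ∧
    ∀ j, S *ᵥ y j = pto P O (y (j + 1)) ∧ dot univ e (y j) = 0

/-- a generating solution in a large module -/
def BadG (S : Matrix ι ι F2) (e : ι → F2) (P O : Finset ι) (b : Bool) (γ : ℕ) : Prop :=
  ∃ (G : Type) (_ : AddCommGroup G) (_ : Module F2 G) (_ : Finite G) (u : Module.End F2 G)
    (g : ι → G), 2 ^ γ ≤ Nat.card G ∧ Slo S e P O b u g ∧ Gen u g

/-- good configurations -/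
structure Nc (lv : ι → ℕ) (e : ι → F2) (B : Finset ι) (S : Matrix ι ι F2) (tp j0 : ℕ) : Prop where
  cross : ∀ l ∈ B, ∀ l', l' ∉ B → e l = 0 → S l' l = S l l'
  cnt : ∀ a ≤ tp, ∀ ε : F2, 2 ^ jj tp j0 a ≤ (B.filter fun l => lv l = a ∧ e l = ε).card ∧
    (B.filter fun l => lv l = a ∧ e l = ε).card ≤ 2 ^ (2 * jj tp j0 a)
  low : ∀ l, l ∉ B → lv l ≤ tp / 2
  sml : Bᶜ.card ≤ xx tp j0 (tp / 2 + 1)
  det : ∀ w : ι → F2, (∀ l ∈ B, w l = 0) → w ≠ 0 →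
    ∃ l ∈ B, tp / 2 < lv l ∧ e l = 0 ∧ ∑ l', S l l' * w l' = 1

/-- the distinguished small index -/
structure Fv (lv : ι → ℕ) (e : ι → F2) (B : Finset ι) (S : Matrix ι ι F2) (i1 : ι) : Prop where
  nb : i1 ∉ B
  lv0 : lv i1 = 0
  e0 : e i1 = 0
  sy : ∀ l ∈ B, S l i1 = S i1 l

/-- the indicator of level zero -/
def z0 (lv : ι → ℕ) (l : ι) : F2 := if lv l = 0 then 1 else 0

/-- the matrix after elimination at level zero -/
def elS (lv : ι → ℕ) (e : ι → F2) (i1 : ι) (S : Matrix ι ι F2) : Matrix ι ι F2 := fun l l' =>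
  if ∑ l, e l = 0 ∧ ∑ l, z0 lv l = 0 then S l l'
  else if l = i1 then
    (if l' = i1 then (1 + ∑ l, z0 lv l) * S i1 i1 else S i1 l' + z0 lv l' * S i1 i1)
  else if l' = i1 then e l + (1 + ∑ l, z0 lv l) * (S l i1 + z0 lv l * S i1 i1)
  else S l l' + z0 lv l' * S l i1 + z0 lv l * (S i1 l' + z0 lv l' * S i1 i1)

/-- the last row after elimination -/
def elc (e : ι → F2) (i1 l : ι) : F2 := if l = i1 then ∑ l, e l else e l

/-- the indices that are kept -/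
abbrev Kp (lv : ι → ℕ) (e : ι → F2) (i1 : ι) : Type :=
  {l // l ≠ i1 ∨ ¬(∑ l, e l = 0 ∧ ∑ l, z0 lv l = 1)}

/-- the pencil indices after elimination -/
def elP (lv : ι → ℕ) (e : ι → F2) (i1 : ι) : Finset (Kp lv e i1) := univ.filter fun l => lv l.1 = 0

/-- the indices of summation after elimination -/
def elO (lv : ι → ℕ) (e : ι → F2) (i1 : ι) : Finset (Kp lv e i1) :=
  univ.filter fun l => lv l.1 = 0 ∧ (l.1 ≠ i1 ∨ ∑ l, z0 lv l = 0)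

/-- a large solution with pencil at level `a` -/
def BadLo (lv : ι → ℕ) (e : ι → F2) (i1 : ι) (S : Matrix ι ι F2) (γ a : ℕ) (b : Bool) : Prop :=
  if a = 0 then BadG (ι := Kp lv e i1) ((elS lv e i1 S).submatrix Subtype.val Subtype.val)
    (fun l => elc e i1 l.1) (elP lv e i1) (elO lv e i1) b γ
  else BadG (ι := {l // a ≤ lv l}) (S.submatrix Subtype.val Subtype.val) (fun l => e l.1)
    (univ.filter fun l => lv l.1 = a) ∅ b γ

/-- the graph of `u` -/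
def grf {G : Type} [AddCommGroup G] [Module F2 G] (b : Bool) (u : Module.End F2 G) (x r : G) :
    Prop := if b = true then x = u r else r = u x

/-- the system at level zero before elimination -/
structure Lz {G : Type} [AddCommGroup G] [Module F2 G] (lv : ι → ℕ) (e : ι → F2)
    (S : Matrix ι ι F2) (b : Bool) (u : Module.End F2 G) (x : ι → G) (xt m : G) : Prop where
  pen : ∀ l, lv l = 0 → grf b u (x l) (ap S x l + e l • xt + m)
  off : ∀ l, lv l ≠ 0 → ap S x l + e l • xt = 0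
  inf : ∑ l, e l • x l + xt = 0
  tau : ∑ l, e l = 1 → grf b u xt m
  tz : ∑ l, e l = 0 → xt = 0
  f1 : ∑ l, z0 lv l = 1 → ∑ l, z0 lv l • x l = 0
  f3 : ∑ l, e l = 1 → ∑ l, z0 lv l = 0 → ∑ l, z0 lv l • x l = xt
  q0 : ∑ l, ap S x l = m + xt
  gen : Gen u fun o : Option ι => o.elim xt x

end One

/-! ### The primal and the dual system -/

section Sys

variable {Λ ι : Type} [CommRing Λ] [Fintype ι] [DecidableEq ι] {ℓ : ℕ}

/-- the operators modulo two -/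
structure Mo (φ : Λ →+* Mb ℓ) (g : Λ) (s u : Mb ℓ) (a : ℕ) : Prop where
  ta : φ ((g - 1) ^ 2 ^ a) = 0
  ua : a ≠ 0 → φ ((g - 1) ^ 2 ^ (a - 1)) * u = 0
  h0 : a = 0 → u = 0
  cm : φ g * u = u * φ g
  nil : IsNilpotent u

/-- the operator of a row of low level -/
def vo (φ : Λ →+* Mb ℓ) (g : Λ) (u : Mb ℓ) (a i : ℕ) : Mb ℓ :=
  φ ((g - 1) ^ (2 ^ (a - 1) - 2 ^ i)) * u

/-- a row of the primal system -/
def rlP (φ : Λ →+* Mb ℓ) (g : Λ) (s u : Mb ℓ) (a i : ℕ) (x r : Vb ℓ) : Prop :=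
  if i < a then x = vo φ g u a i *ᵥ r else if i = a then r = s *ᵥ x else r = 0

/-- a row of the dual system -/
def rlD (φ : Λ →+* Mb ℓ) (g : Λ) (s u : Mb ℓ) (a i : ℕ) (β w R : Vb ℓ) : Prop :=
  if i < a then w = R ᵥ* vo φ g u a i + β else if i = a then R = w ᵥ* s + β else R = 0

/-- the primal system -/
structure Ps (φ : Λ →+* Mb ℓ) (g : Λ) (s u : Mb ℓ) (a : ℕ) (lv : ι → ℕ) (e : ι → F2) (i1 : ι)
    (M : Matrix ι ι Λ) (c : ι → Λ) (v : Option ι → Vb ℓ) (m : Vb ℓ) : Prop where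
  row : ∀ l, l ≠ i1 → rlP φ g s u a (lv l) (v (some l))
    (∑ l', φ (M l l') *ᵥ v (some l') + e l • v none + φ (nu (lv l) (g - 1)) *ᵥ m)
  inf : ∑ l, φ (c l) *ᵥ v (some l) + v none = 0

/-- the dual system -/
structure Ds (φ : Λ →+* Mb ℓ) (g : Λ) (s u : Mb ℓ) (a : ℕ) (lv : ι → ℕ) (e c4 : ι → F2) (i1 : ι)
    (M : Matrix ι ι Λ) (c : ι → Λ) (w : ι → Vb ℓ) (θ wi : Vb ℓ) (bt : ℕ → Vb ℓ) : Prop where
  k0 : ∀ l, w l ᵥ* φ ((g - 1) ^ 2 ^ lv l) = 0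
  k1 : θ ᵥ* φ g = θ
  k2 : w i1 = 0
  col : ∀ l', rlD φ g s u a (lv l') (c4 l' • bt (lv l')) (w l')
    (∑ l, (w l + θ) ᵥ* φ (M l l') + e l' • θ + wi ᵥ* φ (c l'))

/-- the number of solutions of the primal system -/
noncomputable def nP (φ : Λ →+* Mb ℓ) (g : Λ) (s u : Mb ℓ) (a : ℕ) (lv : ι → ℕ) (e : ι → F2)
    (i1 : ι) (M : Matrix ι ι Λ) (c : ι → Λ) : ℕ :=
  Nat.card {v : Option ι → Vb ℓ // ∃ m, Ps φ g s u a lv e i1 M c v m}

/-- families whose values on `J1` and `J2` are spread out -/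
structure Spr {κ κ' : Type} (g s u : Mb ℓ) (C : ℕ) (J1 J2 : Finset ι) (v : κ → Option ι → Vb ℓ)
    (w : κ' → ι → Vb ℓ) (nz : κ' → Prop) : Prop where
  one : J1.card ≤ C * Nat.card {l // l ∈ J1 ∧ (∀ i, v i (some l) = 0) ∧ ∀ j, w j l = 0}
  two : ∀ i j, G3 g s u (v i) → nz j → J2.card ^ 2 ≤ C * Nat.card {q : ι × ι //
    q.1 ∈ J2 ∧ q.2 ∈ J2 ∧ (∀ j', w j' q.1 = 0) ∧ w j q.2 ⬝ᵥ v i (some q.1) = 1}

/-- a family of solutions that is not spread out -/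
def BadF (φ : Λ →+* Mb ℓ) (g : Λ) (s u : Mb ℓ) (a : ℕ) (lv : ι → ℕ) (e c4 : ι → F2) (i1 : ι)
    (M : Matrix ι ι Λ) (c : ι → Λ) (J1 J2 : Finset ι) (K : ℕ) : Prop :=
  ∃ (v : Fin K → Option ι → Vb ℓ) (m : Fin K → Vb ℓ) (w : Fin K → ι → Vb ℓ) (θ wi : Fin K → Vb ℓ)
    (bt : Fin K → ℕ → Vb ℓ), (∀ i, Ps φ g s u a lv e i1 M c (v i) (m i)) ∧
    (∀ j, Ds φ g s u a lv e c4 i1 M c (w j) (θ j) (wi j) (bt j)) ∧
    ¬Spr (φ g) s u (4 ^ (2 * K * ℓ + 2)) J1 J2 v w fun j => w j ≠ 0 ∨ θ j ≠ 0 ∨ wi j ≠ 0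

/-- failure for some small module -/
def BadR (g : Λ) (lv : ι → ℕ) (e c4 : ι → F2) (i1 : ι) (M : Matrix ι ι Λ) (c : ι → Λ)
    (J1 J2 : Finset ι) (L A κ : ℕ) : Prop :=
  ∃ ℓ ≤ L, ∃ (φ : Λ →+* Mb ℓ) (s u : Mb ℓ), ∃ a ≤ A, Mo φ g s u a ∧
    (2 ^ κ < nP φ g s u a lv e i1 M c ∨ BadF φ g s u a lv e c4 i1 M c J1 J2 (2 ^ (κ + ℓ)))

/-- the hypotheses on a matrix in mixed layers -/
structure Mx (st : Λ →+* Λ) (au : Λ →+* F2) (g : Λ) (n : ℕ) (lv : ι → ℕ) (e : ι → F2)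
    (B : Finset ι) (i1 : ι) (M : Matrix ι ι Λ) (c : ι → Λ) (tp j0 : ℕ) : Prop where
  lg : LG st au g (2 ^ n)
  nc : Nc lv e B (M.map au) tp j0
  nb : i1 ∉ B
  sym : SymC st au g n lv M c B
  ac : ∀ l, au (c l) = e l

end Sys

/-! ### Statements -/

/-- the number of compatible vectors -/
def SMLO : Prop :=
  ∀ (Λ ι G : Type) [CommRing Λ] [Finite Λ] [Fintype ι] [DecidableEq ι] [AddCommGroup G]
    [Module Λ G] [Finite G] (st : Λ →+* Λ) (au : Λ →+* F2) (τ : Λ) (N : ℕ) (S : Matrix ι ι Λ)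
    (c : ι → Λ) (B P O J : Finset ι) (b : Bool) (m z γ : ℕ) (u : Module.End Λ G),
    LR st au τ N → Ok st au S c B P J b m z → Oa B P O → Nat.card G = 2 ^ γ →
    Nat.card (Alt G st) ≤ 2 ^ (γ * γ) ∧
    |(Nat.card {g : ι → G //
        (∀ β ∈ Alt G st, ∑ l ∈ B, β (xv P b u g l) (rvo P O b u g l - ap S (xv P b u g) l) = 0) ∧
        (∀ l, l ∉ B → ap S (xv P b u g) l = rvo P O b u g l) ∧ ∑ l, c l • xv P b u g l = 0} : ℝ) *
        Nat.card (Alt G st) / (Nat.card G : ℝ) ^ B.card - 1 / 2 ^ γ| ≤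
      2 ^ (γ * γ + γ * (z + 1)) / 2 ^ (m / 2)

/-- solutions that do not span on the big indices -/
def SNSO : Prop :=
  ∀ (Λ ι G : Type) [CommRing Λ] [Finite Λ] [Fintype ι] [DecidableEq ι] [AddCommGroup G]
    [Module Λ G] [Finite G] (st : Λ →+* Λ) (au : Λ →+* F2) (τ : Λ) (N : ℕ) (S : Matrix ι ι Λ)
    (c : ι → Λ) (B P O J : Finset ι) (b : Bool) (m z γ : ℕ) (u : Module.End Λ G),
    LR st au τ N → Ok st au S c B P J b m z → Oa B P O → Nat.card G = 2 ^ γ →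
    Ex (Hs st B B) (fun H => Nat.card {g : ι → G //
      (Slo (S + H) c P O b u g ∧ Gen u g) ∧ sp Λ (xv P b u g) B ≠ ⊤}) ≤
      2 ^ (4 * γ * γ + 2 * γ * z + γ + 1) / 2 ^ m

/-- the moment estimate -/
def SMOO : Prop :=
  ∀ (Λ ι G : Type) [CommRing Λ] [Finite Λ] [Fintype ι] [DecidableEq ι] [AddCommGroup G]
    [Module Λ G] [Finite G] (st : Λ →+* Λ) (au : Λ →+* F2) (τ : Λ) (N : ℕ) (S : Matrix ι ι Λ)
    (c : ι → Λ) (B P O J : Finset ι) (b : Bool) (m z γ : ℕ) (u : Module.End Λ G),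
    LR st au τ N → Ok st au S c B P J b m z → Oa B P O → Nat.card G = 2 ^ γ →
    Ex (Hs st B B) (fun H => Suo (S + H) c P O b u) ≤ 1 / 2 ^ γ + Er γ z m

/-- the number of short chains -/
def SCHO : Prop :=
  ∀ (ι : Type) [Fintype ι] [DecidableEq ι] (S : Matrix ι ι F2) (e : ι → F2) (B P O J : Finset ι)
    (m z k : ℕ) (I : Finset (Fin (k + 1))) (a : Fin (k + 1) → F2) (i0 : Fin (k + 1))
    (ℓ : Fin (k + 1) → (Fin (k + 1) → ι → F2) →+ F2), Ok i2 i2 S e B P J false m z → Oa B P O →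
    4 * (k + 1) * (k + z + 3) ≤ m → i0 ∉ I → a i0 = 1 →
    Nat.card {y : Fin (k + 1) → ι → F2 // Cno S e B P O y ∧
        ∀ i ∈ I, dot B (y i) (pto P O (∑ j, a j • y j)) = ℓ i y} *
      2 ^ (k + 1 + Bᶜ.card * k + k * (k - 1) / 2 + I.card) ≤ 2 * 2 ^ ((k + 1) * Fintype.card ι)

/-- the mean number of closed chains -/
def SGDO : Prop :=
  ∀ (ι : Type) [Fintype ι] [DecidableEq ι] (S : Matrix ι ι F2) (e : ι → F2) (B P O : Finset ι)
    (m z k f : ℕ), Ok i2 i2 S e B P (P ∩ B) false m z → Oa B P O →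
    4 * (k + 1) * (k + z + 3) ≤ m → k + 1 < f →
    Ex (Hs i2 B (P ∩ B)) (fun H => GTo (S + H) e (P ∩ B) P O f) ≤ 2 ^ (z + 1 + f) / 2 ^ k

/-- the probability of a chain that starts off the fresh indices -/
def SNGO : Prop :=
  ∀ (ι : Type) [Fintype ι] [DecidableEq ι] (S : Matrix ι ι F2) (e : ι → F2) (B P O : Finset ι)
    (m z k κ : ℕ), Ok i2 i2 S e B P (P ∩ B) false m z → Oa B P O →
    4 * (k + 1) * (k + z + 3) ≤ m → Kr S e P ≤ 2 ^ κ →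
    Ex (Hs i2 B (P ∩ B)) (fun H => ind (NGo (S + H) e (P ∩ B) P O)) ≤ 2 ^ (κ + 2 * z + 2) / 2 ^ k

/-- failure in large degree -/
def SHDO : Prop :=
  ∀ (ι : Type) [Fintype ι] [DecidableEq ι] (S : Matrix ι ι F2) (e : ι → F2) (B P O : Finset ι)
    (m z k κ : ℕ), Ok i2 i2 S e B P (P ∩ B) false m z → Oa B P O →
    4 * (k + 1) * (k + z + 3) ≤ m → Kr S e P ≤ 2 ^ κ →
    Ex (Hs i2 B (P ∩ B)) (fun H => ind (Bdo (S + H) e P O (k + 2))) ≤
      ((P ∩ B).card + 1) * 2 ^ (κ + 2 * z + 2) / 2 ^ k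

/-- a generating solution in a space of given dimension -/
def SLDO : Prop :=
  ∀ (ι : Type) [Fintype ι] [DecidableEq ι] (S : Matrix ι ι F2) (e : ι → F2)
    (B P O J : Finset ι) (b : Bool) (m z γ : ℕ), Ok i2 i2 S e B P J b m z → Oa B P O →
    Ex (Hs i2 B B) (fun H => ind (∃ (u : Module.End F2 (Fin γ → F2)) (g : ι → Fin γ → F2),
      Slo (S + H) e P O b u g ∧ Gen u g)) ≤ 4 * (1 / 2 ^ γ + Er γ z m)

/-- reduction to small quotients and to fields -/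
def SQUO : Prop :=
  ∀ (ι : Type) [Fintype ι] [DecidableEq ι] (S : Matrix ι ι F2) (e : ι → F2) (P O : Finset ι)
    (b : Bool) (γ f : ℕ), 1 ≤ γ → γ ≤ f → O ⊆ P → BadG S e P O b γ →
    (∃ γ' ∈ Icc γ (γ + f), ∃ (u : Module.End F2 (Fin γ' → F2)) (g : ι → Fin γ' → F2),
      Slo S e P O b u g ∧ Gen u g) ∨ Bdo S e P O (f + 1)

/-- a large solution at one level -/
def SLVO : Prop :=
  ∀ γ : ℕ, 1 ≤ γ → ∃ x0 : ℕ, ∀ (ι : Type) [Fintype ι] [DecidableEq ι] (S : Matrix ι ι F2)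
    (e : ι → F2) (B P O J : Finset ι) (b : Bool) (x : ℕ) (η : ℝ), x0 ≤ x →
    Ok i2 i2 S e B P J b (x ^ 5) x → Ok i2 i2 S e B P (P ∩ B) false (x ^ 5) x → Oa B P O →
    (P ∩ B).card ≤ x ^ 11 → Ex (Hs i2 B B) (fun H => ind (2 ^ x < Kr (S + H) e P)) ≤ η →
    Ex (Hs i2 B B) (fun H => ind (BadG (S + H) e P O b γ)) ≤ η + 10 / 2 ^ γ

/-- good configurations satisfy the standing hypotheses at each level -/
def SOKO : Prop :=
  ∀ (Λ ι : Type) [CommRing Λ] [Fintype ι] [DecidableEq ι] (st : Λ →+* Λ) (au : Λ →+* F2)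
    (lv : ι → ℕ) (e : ι → F2) (B : Finset ι) (S : Matrix ι ι Λ) (c : ι → Λ)
    (tp j0 a a' : ℕ) (b : Bool), Nc lv e B (S.map au) tp j0 → 55 ≤ j0 → a ≤ tp → a' < tp →
    a = a' + (if b = true then 1 else 0) → Sym st au S c (B.filter fun l => a' ≤ lv l) →
    (∀ l, au (c l) = e l) →
    Ok (ι := {l // a' ≤ lv l}) st au (S.submatrix Subtype.val Subtype.val) (fun l => c l.1)
      (univ.filter fun l => l.1 ∈ B) (univ.filter fun l => lv l.1 = a')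
      ((univ.filter fun l => lv l.1 = a) ∩ univ.filter fun l => l.1 ∈ B) b (xx tp j0 a ^ 5)
      (xx tp j0 a) ∧
    ((univ.filter fun l : {l // a' ≤ lv l} => lv l.1 = a') ∩ univ.filter fun l => l.1 ∈ B).card ≤
      xx tp j0 a ^ 11

/-- elimination at level zero -/
structure SELM : Prop where
  sol : ∀ (ι G : Type) [Fintype ι] [DecidableEq ι] [AddCommGroup G] [Module F2 G] [Finite G]
    (lv : ι → ℕ) (e : ι → F2) (i1 : ι) (S : Matrix ι ι F2) (b : Bool) (u : Module.End F2 G)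
    (x : ι → G) (xt m : G) (γ : ℕ), lv i1 = 0 → e i1 = 0 → Lz lv e S b u x xt m →
    2 ^ γ ≤ Nat.card G → BadLo lv e i1 S γ 0 b
  add : ∀ (ι : Type) [Fintype ι] [DecidableEq ι] (lv : ι → ℕ) (e : ι → F2) (i1 : ι)
    (S H : Matrix ι ι F2), (∀ l, H l i1 = 0 ∧ H i1 l = 0) → elS lv e i1 (S + H) = elS lv e i1 S + H
  ok : ∀ (ι : Type) [Fintype ι] [DecidableEq ι] (lv : ι → ℕ) (e : ι → F2) (B : Finset ι) (i1 : ι)
    (S : Matrix ι ι F2) (tp j0 : ℕ) (b : Bool), Nc lv e B S tp j0 → Fv lv e B S i1 →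
    Sym i2 i2 S e B → 55 ≤ j0 → 2 ≤ tp →
    Ok (ι := Kp lv e i1) i2 i2 ((elS lv e i1 S).submatrix Subtype.val Subtype.val)
      (fun l => elc e i1 l.1) (univ.filter fun l => l.1 ∈ B) (elP lv e i1)
      ((univ.filter fun l => lv l.1 = if b = true then 1 else 0) ∩ univ.filter fun l => l.1 ∈ B) b
      (xx tp j0 1 ^ 5) (xx tp j0 1) ∧
    Oa (univ.filter fun l => l.1 ∈ B) (elP lv e i1) (elO lv e i1) ∧
    (elP lv e i1 ∩ univ.filter fun l => l.1 ∈ B).card ≤ xx tp j0 1 ^ 11 ∧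
    ∀ H : Matrix ι ι F2, (∀ l, H l i1 = 0 ∧ H i1 l = 0) →
      Kr ((elS lv e i1 (S + H)).submatrix Subtype.val Subtype.val) (fun l => elc e i1 l.1)
          (elP lv e i1) =
        Kr (ι := {l // 1 ≤ lv l}) ((S + H).submatrix Subtype.val Subtype.val) (fun l => e l.1) ∅

/-- large solutions at low levels are rare -/
def SRML : Prop :=
  ∀ (A : ℕ) (ε : ℝ), 0 < ε → ∃ γ : ℕ, ∀ j0 : ℕ, 55 ≤ j0 → ∃ tp0 : ℕ, ∀ (ι : Type) [Fintype ι]
    [DecidableEq ι] (lv : ι → ℕ) (e : ι → F2) (B : Finset ι) (i1 : ι) (S : Matrix ι ι F2) (tp : ℕ),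
    tp0 ≤ tp → Nc lv e B S tp j0 → Fv lv e B S i1 → Sym i2 i2 S e B →
    Ex (Hs i2 B B) (fun H => ind (∃ a ≤ A, ∃ b, BadLo lv e i1 (S + H) γ a b)) ≤ ε

/-- the bad events at intermediate levels -/
def SRMH : Prop :=
  ∃ (C : ℝ) (j1 : ℕ), (∀ (ι : Type) [Fintype ι] [DecidableEq ι] (lv : ι → ℕ) (e : ι → F2)
    (B : Finset ι) (S : Matrix ι ι F2) (tp j0 a : ℕ), Nc lv e B S tp j0 → Sym i2 i2 S e B →
    j1 ≤ j0 → 1 ≤ a → a + 2 ≤ tp →
    Ex (Hs i2 B B) (fun H => ind (BadL lv e (S + H) a (2 ^ nn tp j0 a + 1))) ≤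
      C / 2 ^ 2 ^ nn tp j0 a) ∧
  ∀ (Λ ι : Type) [CommRing Λ] [Finite Λ] [Fintype ι] [DecidableEq ι]
    (st : Λ →+* Λ) (au : Λ →+* F2) (τ : Λ) (lv : ι → ℕ) (e : ι → F2) (B : Finset ι)
    (S : Matrix ι ι Λ) (c : ι → Λ) (tp j0 a a' : ℕ) (b : Bool),
    LR st au τ (2 ^ nn tp j0 a) → Nc lv e B (S.map au) tp j0 → j1 ≤ j0 → a + 2 ≤ tp →
    a = a' + (if b = true then 1 else 0) → Sym st au S c (B.filter fun l => a' ≤ lv l) →
    (∀ l, au (c l) = e l) →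
    Ex (Hs st B B) (fun H =>
      ind (BadN au τ (2 ^ nn tp j0 a) (2 ^ nn tp j0 a) lv c (S + H) a' b)) ≤
      C * (9 / 10) ^ 2 ^ nn tp j0 a

/-- zeros of polynomials -/
def SSZ : Prop :=
  ∀ (r D c : ℕ) (ε : ℝ), 0 < ε → ∃ n0 : ℕ, ∀ (n : ℕ) (Λ σ : Type) [CommRing Λ] [Fintype σ]
    [DecidableEq σ] (st : Λ →+* Λ) (au : Λ →+* F2) (g : Λ) (f : MvPolynomial σ Λ), n0 ≤ n →
    LG st au g (2 ^ n) → Fintype.card σ ≤ r → f.totalDegree ≤ D →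
    (∃ m, ¬(g - 1) ^ c ∣ f.coeff m) →
    (Nat.card {a : σ → Fin (2 ^ (n - 1)) → F2 //
      MvPolynomial.eval (fun i => ∑ k, ((a i k).val : Λ) * (g + st g) ^ k.val) f = 0} : ℝ) ≤
      ε * Nat.card (σ → Fin (2 ^ (n - 1)) → F2)

/-- elimination of the eigenvalue -/
def STPR : Prop :=
  ∀ K j : ℕ, ∃ D c : ℕ, ∀ (n : ℕ) (Λ ι : Type) [CommRing Λ] [Fintype ι] [DecidableEq ι]
    (st : Λ →+* Λ) (au : Λ →+* F2) (g : Λ) (S : Matrix ι ι Λ) (c0 : ι → Λ) (P : Finset ι)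
    (b : Bool), LG st au g (2 ^ n) → c ≤ 2 ^ n → Fintype.card ι ≤ K →
    (∀ l, ¬(g - 1) ^ j ∣ c0 l) → ∃ f : MvPolynomial (ι × ι) Λ, f.totalDegree ≤ D ∧
      (∃ m, ¬(g - 1) ^ c ∣ f.coeff m) ∧
      ∀ y, BadT (S + HH st g y) c0 P b → MvPolynomial.eval y f = 0

/-- the bad events at the top levels -/
def SRMT : Prop :=
  ∀ (K j : ℕ) (ε : ℝ), 0 < ε → ∃ n0 : ℕ, ∀ (n : ℕ) (Λ ι : Type) [CommRing Λ] [Finite Λ]
    [Fintype ι] [DecidableEq ι] (st : Λ →+* Λ) (au : Λ →+* F2) (g : Λ) (lv : ι → ℕ)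
    (B : Finset ι) (S : Matrix ι ι Λ) (c : ι → Λ) (a0 : ℕ), n0 ≤ n → LG st au g (2 ^ n) →
    (univ.filter fun l => a0 ≤ lv l).card ≤ K →
    (∀ l, a0 ≤ lv l → l ∈ B ∧ ¬(g - 1) ^ j ∣ c l) →
    Ex (Hs st B B) (fun H => ind (∃ a, a0 ≤ a ∧ ∃ b, BadU lv c (S + H) a b)) ≤ ε

/-- solutions of systems with one free coordinate in each row -/
structure SRG : Prop where
  uns : ∀ (Λ ι G Ω : Type) [CommRing Λ] [Finite Λ] [Fintype ι] [DecidableEq ι] [AddCommGroup G]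
    [Module Λ G] [Finite G] [Finite Ω] (st : Λ →+* Λ) (B : Finset ι) (S : Matrix ι ι Λ)
    (ok : Ω → ι → G → G → Prop) (γ m : ℕ), (∀ h, st (st h) = h) → Nat.card G = 2 ^ γ →
    (∀ π, ∀ l ∈ B, Fnl (ok π l)) →
    Ex (Hs st B B) (fun H => ind (∃ (π : Ω) (y : ι → G),
      (∀ l ∈ B, ok π l (y l) (apB B (S + H) y l)) ∧ m ≤ Nat.card {l // l ∈ B ∧
        2 * Nat.card {q : G × G // q.1 ∈ sp Λ y B ∧ q.2 ∈ sp Λ y B ∧ ok π l q.1 q.2} ≤
          Nat.card (sp Λ y B)})) ≤ Nat.card Ω * 2 ^ (3 * γ * γ) / 2 ^ m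
  hit : ∀ (Λ ι G Ω : Type) [CommRing Λ] [Finite Λ] [Fintype ι] [DecidableEq ι] [AddCommGroup G]
    [Module Λ G] [Finite G] [Finite Ω] (st : Λ →+* Λ) (B J : Finset ι) (S : Matrix ι ι Λ)
    (ok : Ω → ι → G → G → Prop) (γ : ℕ), (∀ h, st (st h) = h) → Nat.card G = 2 ^ γ →
    (∀ π, ∀ l ∈ B, Fnl (ok π l)) → J ⊆ B →
    (∀ π, ∀ l ∈ J, ∀ y R R', ok π l y R → ok π l y R' → R = R') →
    Ex (Hs st B B) (fun H => ind (∃ (π : Ω) (y : ι → G),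
      (∀ l ∈ B, ok π l (y l) (apB B (S + H) y l)) ∧ ∃ y0 ∈ sp Λ y B,
        2 ^ (γ + 2) * Nat.card {l // l ∈ J ∧ y l = y0} < J.card)) ≤
      Nat.card Ω * 2 ^ (3 * γ * γ + γ) * Real.exp (-(J.card / 2 ^ (γ + 2)))

/-- the mean number of solutions of the primal system -/
def SRKN : Prop :=
  ∀ (Λ ι : Type) [CommRing Λ] [Finite Λ] [Fintype ι] [DecidableEq ι] (st : Λ →+* Λ)
    (au : Λ →+* F2) (g : Λ) (n : ℕ) (lv : ι → ℕ) (e : ι → F2) (B : Finset ι) (i1 : ι)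
    (M : Matrix ι ι Λ) (c : ι → Λ) (tp j0 ℓ : ℕ) (φ : Λ →+* Mb ℓ) (s u : Mb ℓ) (a : ℕ),
    Mx st au g n lv e B i1 M c tp j0 → Mo φ g s u a → a ≤ tp / 2 →
    Ex (Hs st B B) (fun H => nP φ g s u a lv e i1 (M + H) c) ≤ 2 ^ (3 * ℓ * ℓ + 3 * ℓ)

/-- families of solutions are spread out -/
def SRGN : Prop :=
  ∀ (ε : ℝ) (ℓ K A j0 : ℕ), 0 < ε → ∃ tp0 : ℕ, ∀ (Λ ι : Type) [CommRing Λ] [Finite Λ] [Fintype ι]
    [DecidableEq ι] (st : Λ →+* Λ) (au : Λ →+* F2) (g : Λ) (n : ℕ) (lv : ι → ℕ) (e c4 : ι → F2)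
    (B J1 J2 : Finset ι) (i1 : ι) (M : Matrix ι ι Λ) (c : ι → Λ) (tp : ℕ) (φ : Λ →+* Mb ℓ)
    (s u : Mb ℓ) (a : ℕ), tp0 ≤ tp → Mx st au g n lv e B i1 M c tp j0 → Mo φ g s u a → a ≤ A →
    (∀ l ∈ J1 ∪ J2, l ∈ B ∧ A < lv l) → 2 ^ (tp / 2) ≤ J1.card → 2 ^ (tp / 2) ≤ J2.card →
    Ex (Hs st B B) (fun H => ind (BadF φ g s u a lv e c4 i1 (M + H) c J1 J2 K)) ≤ ε

/-- failure for some small module is rare -/
def SRLO : Prop :=
  ∀ (ε : ℝ) (L A : ℕ), 0 < ε → ∃ κ : ℕ, ∀ j0 : ℕ, ∃ tp0 : ℕ, ∀ (Λ ι : Type) [CommRing Λ]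
    [Finite Λ] [Fintype ι] [DecidableEq ι] (st : Λ →+* Λ) (au : Λ →+* F2) (g : Λ) (n : ℕ)
    (lv : ι → ℕ) (e c4 : ι → F2) (B J1 J2 : Finset ι) (i1 : ι) (M : Matrix ι ι Λ) (c : ι → Λ)
    (tp : ℕ), tp0 ≤ tp → Mx st au g n lv e B i1 M c tp j0 →
    (∀ l ∈ J1 ∪ J2, l ∈ B ∧ A < lv l) → 2 ^ (tp / 2) ≤ J1.card → 2 ^ (tp / 2) ≤ J2.card →
    Ex (Hs st B B) (fun H => ind (BadR g lv e c4 i1 (M + H) c J1 J2 L A κ)) ≤ ε

/-- the choice of the parameters -/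
def SPAO : Prop :=
  ∀ (C ε : ℝ) (j1 : ℕ), 0 < ε → ∃ A j0 : ℕ, j1 ≤ j0 ∧ 3 ≤ A ∧ ∀ tp : ℕ,
    ∑ a ∈ Ioc A tp, (C / 2 ^ 2 ^ nn tp j0 a + 2 * (C * (9 / 10) ^ 2 ^ nn tp j0 a)) ≤ ε

def OfMLO : Prop := SQF → SMLO
def OfNSO : Prop := SAVG → SQF → SCR → SNSO
def OfMOO : Prop := SAVG → SQF → SCR → SROB → SMLO → SNSO → SMOO
def OfCHO : Prop := SQF → SCHO
def OfGDO : Prop := SAVG → SQF → SHP → SCHO → SGDO
def OfNGO : Prop := SAVG → SQF → SHP → SCHO → SNGO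
def OfHDO : Prop := SAVG → SGDO → SNGO → SHDO
def OfLDO : Prop := SAVG → SMOO → SLDO
def OfLVO : Prop := SAVG → SHDO → SLDO → SQUO → SLVO
def OfRML : Prop := SAVG → SLD → SLVO → SOKO → SELM → SRML
def OfRMH : Prop := SAVG → SLD → SLV → SMOD → SOKO → SRMH
def OfRMT : Prop := SAVG → SSZ → STPR → SRMT
def OfRG : Prop := SAVG → SQF → SCR → SRG
def OfRKN : Prop := SAVG → SQF → SCR → SRKN
def OfRGN : Prop := SAVG → SQF → SRG → SRGN
def OfRLO : Prop := SAVG → SRKN → SRGN → SRLO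

end Pool.Agent.MP_1246c0_nt.H25
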