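import Pool.Agent.MP_1246c0_nt.H25.SpecA
import Pool.Agent.MP_1246c0_nt.H25.SpecR

/-! The algebra of cocycles: statements of the pieces. -/

namespace Pool.Agent.MP_1246c0_nt.H25

open NumberField Polynomial Finset Matrix Pool.Agent.MP_db5b97_nt.H85
open Pool.Agent.MP_1246c0_nt.H12

section Defs

/-- the obstruction vanishes modulo four up to the choice of a lift -/
def Ro {M : Type} [AddCommGroup M] (d n : ℕ) (T : Module.End ℤ M) (ψ : Ga → M) (p : Ga × Ga) :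
    Prop := ∃ y, Eo d n T ψ p - 2 • (y - acn d n T p.1 y) ∈ Mu M 2

/-- a quotient modulo two -/
structure Qt {M Λ G : Type} [AddCommGroup M] [CommRing Λ] [AddCommGroup G] [Module Λ G]
    (T s u : Module.End ℤ M) (π : M →+ G) (g : Λ) (s' u' : Module.End Λ G) : Prop where
  sur : Function.Surjective π
  two : ∀ x, π (2 • x) = 0
  ht : ∀ x, π (T x) = g • π x
  hs : ∀ x, π (s x) = s' (π x)
  hu : ∀ x, π (u x) = u' (π x)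

variable {ι : Type} [Fintype ι] [DecidableEq ι] {ℓ : ℕ}

/-- the system of first order -/
structure Fs {M Λ G : Type} [AddCommGroup M] [CommRing Λ] [AddCommGroup G] [Module Λ G] (S : Sy)
    (pr : ι → ℕ) (P n n0 a : ℕ) (T : Module.End ℤ M) (ψ : Ga → M) (g : Λ) (s' u' : Module.End Λ G)
    (M' : Matrix ι ι Λ) (x : ι → G) (xt m : G) : Prop where
  kill : ∀ l, (g - 1) ^ 2 ^ lev (pr l) • x l = 0
  tz : dd pr P % 4 = 1 → xt = 0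
  row : ∀ l, Ro (dd pr P) n T ψ (S.Φ.fr (pr l), S.Φ.sg (pr l)) → rel g s' u' a (lev (pr l)) (x l)
    (∑ l', M' l l' • x l' + (eps (pr l)).val • xt + nu (lev (pr l)) (g - 1) • m)
  tau : dd pr P % 4 = 3 → Ro (dd pr P) n T ψ (S.Φ.fr 2, S.Φ.sg 2) → rel g s' u' a 0 xt m
  inf : Ro (dd pr P) n T ψ (S.Φ.cj, 1) → ∑ l, cX S.D n0 g (pr l) • x l + xt = 0
  four : Ro (dd pr P) n T ψ (p4 S.Φ (dd pr P)) → (∀ y : G, g • y = y) →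
    (dd pr P % 8 = 3 → ∑ l, (z0 (fun i => lev (pr i)) l).val • x l = xt) ∧
    (dd pr P % 8 = 1 ∨ dd pr P % 8 = 7 → ∑ l, (z0 (fun i => lev (pr i)) l).val • x l = 0)
  q0 : (∀ y : G, g • y = y) → m = ∑ l, (lg (pr l) P).val • x l

/-- the character sum in the recursion -/
noncomputable def cs (Φ : Frm) (μ : Md ℓ) (pr : ι → ℕ) (P : ℕ) (i1 : ι) (j : ℕ) : ℝ :=
  vp Φ μ pr P j * ∑ w : Option ι ⊕ Bool → Vb ℓ, ∑ v : Option ι → Vb ℓ,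
    ind (v ∈ Vg Φ μ pr P j ∧ w ∈ Ws Φ μ pr P i1 j ∧ w ≠ 0) * sg (pg Φ μ pr P j w v)

/-- reduced data -/
abbrev Rd (ℓ J : ℕ) : Type :=
  (Fin ℓ → Fin ℓ → Fin (2 ^ J)) × (Fin ℓ → Fin ℓ → Fin 4) × (Fin ℓ → Fin ℓ → Fin 4)

/-- the module attached to reduced data -/
def mdo {ℓ J : ℕ} (r : Rd ℓ J) (a n : ℕ) : Md ℓ :=
  ⟨Matrix.of fun i j => ((r.1 i j : ℕ) : ℤ), Matrix.of fun i j => ((r.2.1 i j : ℕ) : ℤ),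
    Matrix.of fun i j => ((r.2.2 i j : ℕ) : ℤ), a, n⟩

/-- the consequences of a solution of level `a` in the layer `n0` -/
def Hi (S : Sy) (pr : ι → ℕ) (P a : ℕ) : Prop :=
  ∀ (n0 : ℕ) (Λ : Type) [CommRing Λ] (st : Λ →+* Λ) (au : Λ →+* F2) (g : Λ) (M' : Matrix ι ι Λ),
    LG st au g (2 ^ n0) → n0 + 3 ≤ a → Cg g n0 (fun i => lev (pr i)) (MX S.D n0 g pr P) M' →
    (∀ f, BadL (fun i => lev (pr i)) (fun i => eps (pr i)) (Sm0 pr P) a (f + 1) ∨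
      BadN au (g - 1) (2 ^ n0) f (fun i => lev (pr i)) (fun i => cX S.D n0 g (pr i)) M' a false ∨
      BadN au (g - 1) (2 ^ n0) f (fun i => lev (pr i)) (fun i => cX S.D n0 g (pr i)) M' (a - 1)
        true) ∧
    (BadU (fun i => lev (pr i)) (fun i => cX S.D n0 g (pr i)) M' a false ∨
      BadU (fun i => lev (pr i)) (fun i => cX S.D n0 g (pr i)) M' (a - 1) true)

/-- the data of one prime -/
abbrev Ow (n : ℕ) : Type := ZMod (2 ^ n) × F2 × Co n × Co n × Co n × F2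

/-- the data of one prime -/
noncomputable def own (S : Sy) (n P l : ℕ) : Ow n :=
  (kap n (S.Φ.fr l), eps l, fl S n l S.Φ.cj, fl S n l S.Φ.f2, fl S n l (S.Φ.fr P),
    chi P (S.Φ.fr l))

/-- the table of all data of first order -/
noncomputable def tab (S : Sy) (n : ℕ) (pr : ι → ℕ) (P : ℕ) : (ι → Ow n) × (ι → ι → Co n) :=
  (fun l => own S n P (pr l), fun l l' => fl S n (pr l) (S.Φ.fr (pr l')))

end Defs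

/-! ### Statements -/

/-- cocycles modulo two -/
structure SDC1 : Prop where
  prj : ∀ (S : Sy) (n n' l : ℕ) (h : Ga) (k : ZMod (2 ^ n)), Ax S → n ≤ n' → Gd n' l →
    S.f n l h k = ∑ k' : ZMod (2 ^ n'), if (k'.val : ZMod (2 ^ n)) = k then S.f n' l h k' else 0
  ch : ∀ (S : Sy) (n l : ℕ) (h : Ga), Ax S → Gd 0 l →
    chi l h = ∑ k, fl S n l h k + eps l * chi (-1) h
  dec : ∀ (ι M : Type) [Fintype ι] [DecidableEq ι] [AddCommGroup M] (S : Sy) (pr : ι → ℕ)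
    (P n : ℕ) (i1 : ι) (T : Module.End ℤ M) (A : AddSubgroup M) (ψ : Ga → M), Ax S → Lb pr P i1 →
    Mu M 1 ≤ A → Ad T n A → (∀ x, gs T (2 ^ n) x ∈ A) → Cc S.Φ (dd pr P) P n T A ψ →
    (∀ l, (T ^ 2 ^ min (lev (pr l)) n) (ψ (S.Φ.sg (pr l))) - ψ (S.Φ.sg (pr l)) ∈ A) ∧
    T (ψ (S.Φ.sg 2)) - ψ (S.Φ.sg 2) ∈ A ∧
    ∀ h, ψ h - (∑ l, cw T (fl S n (pr l) h) (ψ (S.Φ.sg (pr l))) +
      (chi (-1) h).val • ψ (S.Φ.sg 2) + gs T (kap n h).val (ψ (S.Φ.fr 2))) ∈ A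
  ex : ∀ (ι M : Type) [Fintype ι] [DecidableEq ι] [AddCommGroup M] (S : Sy) (pr : ι → ℕ)
    (P n : ℕ) (i1 : ι) (T : Module.End ℤ M) (A : AddSubgroup M) (x : ι → M) (xt : M), Ax S →
    Lb pr P i1 → Mu M 1 ≤ A → Ad T n A → (∀ x, gs T (2 ^ n) x ∈ A) →
    (∀ l, (T ^ 2 ^ min (lev (pr l)) n) (x l) - x l ∈ A) → T xt - xt ∈ A →
    (dd pr P % 4 = 1 → xt ∈ A) → ∃ ψ, Cc S.Φ (dd pr P) P n T A ψ ∧
      (∀ l, ψ (S.Φ.sg (pr l)) - x l ∈ A) ∧ ψ (S.Φ.sg 2) - xt ∈ A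
  unit : ∀ (M : Type) [AddCommGroup M] (n k : ℕ) (T : Module.End ℤ M) (A : AddSubgroup M),
    Mu M 1 ≤ A → Ad T n A → Odd k → (∀ x, gs T k x ∈ A → x ∈ A) ∧ ∀ y, ∃ x, gs T k x - y ∈ A

/-- the matrices in mixed layers -/
structure SSY2 : Prop where
  sym : ∀ (ι Λ : Type) [Fintype ι] [DecidableEq ι] [CommRing Λ] (S : Sy) (st : Λ →+* Λ)
    (au : Λ →+* F2) (g : Λ) (n : ℕ) (pr : ι → ℕ) (P : ℕ), Ax S → LG st au g (2 ^ n) →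
    pr.Injective → (∀ i, Gd 0 (pr i)) →
    SymC st au g n (fun i => lev (pr i)) (MX S.D n g pr P) (fun i => cX S.D n g (pr i)) univ
  aus : ∀ (ι Λ : Type) [Fintype ι] [DecidableEq ι] [CommRing Λ] (D : ∀ n, Dat n) (st : Λ →+* Λ)
    (au : Λ →+* F2) (g : Λ) (n : ℕ) (pr : ι → ℕ) (P : ℕ), LG st au g (2 ^ n) →
    (∀ i, Gd 0 (pr i)) → (MX D n g pr P).map au = Sm0 pr P ∧
      ∀ i, au (cX D n g (pr i)) = eps (pr i)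
  col : ∀ (ι : Type) [Fintype ι] [DecidableEq ι] (pr : ι → ℕ) (P : ℕ) (i1 l' : ι), Lb pr P i1 →
    ∑ l, Sm0 pr P l l' = eps (pr l') + lg (pr l') P
  ent : ∀ (ι Λ : Type) [Fintype ι] [DecidableEq ι] [CommRing Λ] (S : Sy) (st : Λ →+* Λ)
    (au : Λ →+* F2) (g : Λ) (n0 n : ℕ) (pr : ι → ℕ) (P : ℕ) (i1 : ι), Ax S → LG st au g (2 ^ n0) →
    Lb pr P i1 → n0 ≤ n →
    (∀ l l', (g - 1) ^ 2 ^ min (min (lev (pr l)) (lev (pr l'))) n0 ∣ MX S.D n0 g pr P l l' -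
      (cv g (fl S n (pr l') (S.Φ.fr (pr l))) +
        if l = l' then ((chi (dd pr P) (S.Φ.fr (pr l))).val : Λ) else 0)) ∧
    ∀ l, (g - 1) ^ 2 ^ min (lev (pr l)) n0 ∣ cX S.D n0 g (pr l) - cv g (fl S n (pr l) S.Φ.cj)

/-- the system of first order -/
def SFS : Prop :=
  ∀ (ι M Λ G : Type) [Fintype ι] [DecidableEq ι] [AddCommGroup M] [CommRing Λ] [AddCommGroup G]
    [Module Λ G] (S : Sy) (pr : ι → ℕ) (P n n0 a : ℕ) (i1 : ι) (T s u : Module.End ℤ M)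
    (ψ : Ga → M) (st : Λ →+* Λ) (au : Λ →+* F2) (g : Λ) (π : M →+ G) (s' u' : Module.End Λ G)
    (M' : Matrix ι ι Λ), Ax S → Lb pr P i1 → Adm T s u a → a < n → n0 ≤ n → LG st au g (2 ^ n0) →
    Qt T s u π g s' u' → Cg g n0 (fun i => lev (pr i)) (MX S.D n0 g pr P) M' →
    Cc S.Φ (dd pr P) P n T (Mu M 1) ψ →
    Fs S pr P n n0 a T ψ g s' u' M' (fun l => π (ψ (S.Φ.sg (pr l)))) (π (ψ (S.Φ.sg 2)))
      (π (ψ (S.Φ.fr 2)))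

/-- the action of the group ring on vectors modulo two -/
def SLMD : Prop :=
  ∀ (ℓ J : ℕ) (μ : Md ℓ) (Λ : Type) [CommRing Λ] (st : Λ →+* Λ) (au : Λ →+* F2) (g : Λ),
    μ.Ok J → LG st au g (2 ^ μ.n) →
    ∃ φ : Λ →+* Mb ℓ, φ g = bar μ.g ∧ Mo φ g (bar μ.s) (bar μ.u) μ.a

/-- the pairings -/
structure SPR : Prop where
  one : ∀ (ι : Type) [Fintype ι] [DecidableEq ι] (ℓ : ℕ) (Φ : Frm) (μ : Md ℓ) (pr : ι → ℕ)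
    (P : ℕ) (i1 : ι) (w : Option ι ⊕ Bool → Vb ℓ), Ax1 Φ → Lb pr P i1 →
    (w ∈ Ws Φ μ pr P i1 1 ↔ W1 Φ μ pr P i1 w) ∧
    (W1 Φ μ pr P i1 w → ∀ ψ, (2 : ℤ) ∣ Pw Φ μ pr P w ψ)
  dvd : ∀ (ι : Type) [Fintype ι] [DecidableEq ι] (ℓ : ℕ) (Φ : Frm) (μ : Md ℓ) (pr : ι → ℕ)
    (P J j : ℕ) (i1 : ι) (w : Option ι ⊕ Bool → Vb ℓ) (ψ : Ga → Fin ℓ → ℤ), Ax1 Φ → Lb pr P i1 →
    μ.Ok J → j ≤ J → W1 Φ μ pr P i1 w → CC Φ μ pr P j ψ → (2 : ℤ) ^ j ∣ Pw Φ μ pr P w ψ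
  val : ∀ (ι : Type) [Fintype ι] [DecidableEq ι] (ℓ : ℕ) (Φ : Frm) (μ : Md ℓ) (pr : ι → ℕ)
    (P J j : ℕ) (i1 : ι) (w : Option ι ⊕ Bool → Vb ℓ) (ψ : Ga → Fin ℓ → ℤ), Ax1 Φ → Lb pr P i1 →
    μ.Ok J → 1 ≤ j → j ≤ J → w ∈ Ws Φ μ pr P i1 j → CC Φ μ pr P j ψ →
    (pg Φ μ pr P j w (red Φ pr ψ) = 0 ↔ (2 : ℤ) ^ (j + 1) ∣ Pw Φ μ pr P w ψ)
  det : ∀ (ι : Type) [Fintype ι] [DecidableEq ι] (ℓ : ℕ) (Φ : Frm) (μ : Md ℓ) (pr : ι → ℕ)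
    (P J j : ℕ) (i1 : ι) (ψ ψ' : Ga → Fin ℓ → ℤ), Ax1 Φ → Lb pr P i1 → μ.Ok J → 1 ≤ j → j ≤ J →
    CC Φ μ pr P j ψ → CC Φ μ pr P j ψ' → red Φ pr ψ = red Φ pr ψ' →
    ∃ ρ, CC Φ μ pr P (j - 1) ρ ∧ ∀ h, ψ h - ψ' h = 2 • ρ h
  step : ∀ (ι : Type) [Fintype ι] [DecidableEq ι] (ℓ : ℕ) (Φ : Frm) (μ : Md ℓ) (pr : ι → ℕ)
    (P J j : ℕ) (i1 : ι), Ax1 Φ → Lb pr P i1 → μ.Ok J → 1 ≤ j → j + 1 ≤ J →
    (∀ w, w ∈ Ws Φ μ pr P i1 (j + 1) ↔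
      w ∈ Ws Φ μ pr P i1 j ∧ ∀ v ∈ Vs Φ μ pr P j, pg Φ μ pr P j w v = 0) ∧
    Vs Φ μ pr P (j + 1) ⊆ Us Φ μ pr P i1 j ∧
    (Ws Φ μ pr P i1 (j + 1)).ncard * (Vs Φ μ pr P j).ncard =
      (Ws Φ μ pr P i1 j).ncard * (Us Φ μ pr P i1 j).ncard
  mono : ∀ (ι : Type) [Fintype ι] [DecidableEq ι] (ℓ : ℕ) (Φ : Frm) (μ : Md ℓ) (pr : ι → ℕ)
    (P J i j : ℕ) (i1 : ι), Ax1 Φ → Lb pr P i1 → μ.Ok J → 1 ≤ i → i ≤ j → j ≤ J →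
    Vs Φ μ pr P j ⊆ Vs Φ μ pr P i ∧ Ws Φ μ pr P i1 j ⊆ Ws Φ μ pr P i1 i ∧
    (2 ≤ j → Vs Φ μ pr P j ⊆ Us Φ μ pr P i1 1)
  grp : ∀ (ι : Type) [Fintype ι] [DecidableEq ι] (ℓ : ℕ) (Φ : Frm) (μ : Md ℓ) (pr : ι → ℕ)
    (P J j : ℕ) (i1 : ι), Ax1 Φ → Lb pr P i1 → μ.Ok J → 1 ≤ j → j ≤ J →
    0 ∈ Vs Φ μ pr P j ∧ 0 ∈ Ws Φ μ pr P i1 j ∧
    (∀ v ∈ Vs Φ μ pr P j, ∀ v' ∈ Vs Φ μ pr P j, v + v' ∈ Vs Φ μ pr P j ∧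
      ∀ w ∈ Ws Φ μ pr P i1 j, pg Φ μ pr P j w (v + v') = pg Φ μ pr P j w v + pg Φ μ pr P j w v') ∧
    ∀ w ∈ Ws Φ μ pr P i1 j, ∀ w' ∈ Ws Φ μ pr P i1 j, w + w' ∈ Ws Φ μ pr P i1 j ∧
      ∀ v ∈ Vs Φ μ pr P j, pg Φ μ pr P j (w + w') v = pg Φ μ pr P j w v + pg Φ μ pr P j w' v
  ub : ∀ (ι : Type) [Fintype ι] [DecidableEq ι] (ℓ : ℕ) (Φ : Frm) (μ : Md ℓ) (pr : ι → ℕ)
    (P J : ℕ) (i1 : ι) (E : Finset ι), Ax1 Φ → Lb pr P i1 → μ.Ok J →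
    {v | v ∈ Vs Φ μ pr P 1 ∧ ∀ w ∈ Ws Φ μ pr P i1 1, (∀ l ∈ E, w (.inl (some l)) = 0) →
      pg Φ μ pr P 1 w v = 0}.ncard ≤ (Us Φ μ pr P i1 1).ncard * 2 ^ (ℓ * E.card)

/-- the first groups -/
def SCNT : Prop :=
  ∀ (ι : Type) [Fintype ι] [DecidableEq ι] (ℓ : ℕ) (S : Sy) (μ : Md ℓ) (pr : ι → ℕ)
    (P J : ℕ) (i1 : ι), Ax S → Lb pr P i1 → μ.Ok J →
    (∀ v, v ∈ Vs S.Φ μ pr P 1 ↔ (dd pr P % 4 = 1 → v none = 0) ∧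
      ∀ o, bar μ.g ^ (kap μ.n (S.Φ.fr (po pr o))).val *ᵥ v o = v o) ∧
    (Ws S.Φ μ pr P i1 1).ncard = 2 ^ ℓ * (Vs S.Φ μ pr P 1).ncard

/-- the right kernel solves the primal system -/
def SUS : Prop :=
  ∀ (ι Λ : Type) [Fintype ι] [DecidableEq ι] [CommRing Λ] (ℓ : ℕ) (S : Sy) (μ : Md ℓ)
    (pr : ι → ℕ) (P J : ℕ) (i1 : ι) (st : Λ →+* Λ) (au : Λ →+* F2) (g : Λ) (φ : Λ →+* Mb ℓ)
    (M' : Matrix ι ι Λ), Ax S → Lb pr P i1 → μ.Ok J → LG st au g (2 ^ μ.n) → φ g = bar μ.g →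
    Cg g μ.n (fun i => lev (pr i)) (MX S.D μ.n g pr P) M' → ∀ v ∈ Us S.Φ μ pr P i1 1,
    ∃ m, Ps φ g (bar μ.s) (bar μ.u) μ.a (fun i => lev (pr i)) (fun i => eps (pr i)) i1 M'
      (fun i => cX S.D μ.n g (pr i)) v m

/-- the left kernel solves the dual system -/
def SDS : Prop :=
  ∀ (ι Λ : Type) [Fintype ι] [DecidableEq ι] [CommRing Λ] (ℓ : ℕ) (S : Sy) (μ : Md ℓ)
    (pr : ι → ℕ) (P J : ℕ) (i1 : ι) (st : Λ →+* Λ) (au : Λ →+* F2) (g : Λ) (φ : Λ →+* Mb ℓ)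
    (M' : Matrix ι ι Λ), Ax S → Lb pr P i1 → μ.Ok J → LG st au g (2 ^ μ.n) → φ g = bar μ.g →
    Cg g μ.n (fun i => lev (pr i)) (MX S.D μ.n g pr P) M' → ∀ w ∈ Ws S.Φ μ pr P i1 2,
    ∃ θ bt, Ds φ g (bar μ.s) (bar μ.u) μ.a (fun i => lev (pr i)) (fun i => eps (pr i))
      (fun i => fl S μ.n (pr i) S.Φ.f2 0) i1 M' (fun i => cX S.D μ.n g (pr i))
      (fun l => w (.inl (some l))) θ (w (.inr false)) bt ∧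
      (w ≠ 0 → (fun l => w (.inl (some l))) ≠ 0 ∨ θ ≠ 0 ∨ w (.inr false) ≠ 0)

/-- the recursion -/
def SZR : Prop :=
  ∀ (ι : Type) [Fintype ι] [DecidableEq ι] (ℓ : ℕ) (S : Sy) (μ : Md ℓ) (pr : ι → ℕ)
    (P J : ℕ) (i1 : ι), Ax S → Lb pr P i1 → μ.Ok J → 3 ≤ J →
    (Ws S.Φ μ pr P i1 2).ncard = 2 ^ ℓ * (Us S.Φ μ pr P i1 1).ncard ∧
    zz S.Φ μ pr P 3 ≤ (Us S.Φ μ pr P i1 1).ncard ^ 2 ∧
    ∀ j, 2 ≤ j → j + 1 ≤ J →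
      (2 : ℝ) ^ ℓ * zz S.Φ μ pr P (j + 1) ≤ zz S.Φ μ pr P j + cs S.Φ μ pr P i1 j

/-- orbits -/
def SORB : Prop :=
  ∀ (ι : Type) [Fintype ι] [DecidableEq ι] (ℓ : ℕ) (Φ : Frm) (μ : Md ℓ) (pr : ι → ℕ)
    (P J : ℕ) (i1 : ι), Ax1 Φ → Lb pr P i1 → μ.Ok J → (Vg Φ μ pr P J).Nonempty →
    (2 : ℝ) ^ (ℓ * ℓ * J) ≤ 2 ^ (ℓ * ℓ + 2) * ∑ r : Rd ℓ J,
      ind ((mdo r μ.a μ.n).Ok J) * zz Φ (mdo r μ.a μ.n) pr P J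

/-- lattices of large rank -/
def SLWA : Prop :=
  ∀ (ι : Type) [Fintype ι] [DecidableEq ι] (ℓ : ℕ) (S : Sy) (μ : Md ℓ) (pr : ι → ℕ)
    (P J γ : ℕ) (i1 : ι), Ax S → Lb pr P i1 → μ.Ok J → (Vg S.Φ μ pr P J).Nonempty →
    γ * 2 ^ (μ.a + 1) ≤ ℓ →
    BadLo (fun i => lev (pr i)) (fun i => eps (pr i)) i1 (Sm0 pr P) γ μ.a false ∨
      BadLo (fun i => lev (pr i)) (fun i => eps (pr i)) i1 (Sm0 pr P) γ (μ.a - 1) true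

/-- solutions of high level -/
def SHIG : Prop :=
  ∀ (ι O : Type) [Fintype ι] [DecidableEq ι] [CommRing O] [IsDomain O] [IsDiscreteValuationRing O]
    [CharZero O] [Finite (IsLocalRing.ResidueField O)] (S : Sy) (pr : ι → ℕ) (P n J a : ℕ)
    (i1 : ι) (t : O) (ψ : Ga → O), Ax S → Lb pr P i1 → 2 ≤ J → So S.Φ (dd pr P) P n J t a ψ →
    Hi S pr P a

/-- the criterion -/
def SCRT : Prop :=
  ∀ (ι : Type) [Fintype ι] [DecidableEq ι] (S : Sy) (pr : ι → ℕ) (P A J : ℕ) (i1 : ι), Ax S →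
    Lb pr P i1 → 2 ≤ J → ¬Gr (dd pr P) →
    (∃ (ℓ : ℕ) (μ : Md ℓ), 1 ≤ ℓ ∧ μ.a ≤ A ∧ μ.n = A + J ∧ μ.Ok J ∧ (Vg S.Φ μ pr P J).Nonempty) ∨
      ∃ a, A < a ∧ Hi S pr P a

/-- the table determines the first pairing -/
def STAB : Prop :=
  ∀ (ι : Type) [Fintype ι] [DecidableEq ι] (ℓ : ℕ) (S : Sy) (μ : Md ℓ) (x x' : ι → ℕ)
    (P J : ℕ) (i1 : ι), Ax S → Lb x P i1 → Lb x' P i1 → μ.Ok J →
    tab S μ.n x P = tab S μ.n x' P →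
    dd x P % 8 = dd x' P % 8 ∧
    (∀ l, chi (dd x P) (S.Φ.fr (x l)) = chi (dd x' P) (S.Φ.fr (x' l))) ∧
    Us S.Φ μ x P i1 1 = Us S.Φ μ x' P i1 1 ∧ Ws S.Φ μ x P i1 2 = Ws S.Φ μ x' P i1 2

def OfDC1 : Prop := SDEC → SQR → SCC → SDC1
def OfSY2 : Prop := SDEC → SQR → SLAM → SRF → SDAT → SSYM → SCC → SDC1 → SSY2
def OfFS : Prop := SDEC → SLAM → SCC → SDC1 → SSY2 → SFS
def OfLMD : Prop := SCC → SLMD
def OfPR : Prop := SQF → SCC → SPR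
def OfCNT : Prop := SQF → SCC → SDC1 → SPR → SCNT
def OfUS : Prop := SQF → SCC → SPR → SFS → SUS
def OfDS : Prop := SDEC → SLAM → SQF → SCC → SDC1 → SSY2 → SLMD → SPR → SDS
def OfZR : Prop := SQF → SPR → SCNT → SZR
def OfORB : Prop := SCC → SPR → SORB
def OfLWA : Prop := SDEC → SLAM → SCC → SSY2 → SFS → SELM → SLWA
def OfHIG : Prop := SDEC → SLAM → SV1 → SCC → SSY2 → SFS → SHIG
def OfCRT : Prop := SCC → SCR0 → SLWL → SHIG → SCRT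
def OfTAB : Prop := SDEC → SCC → SDC1 → SPR → SCNT → STAB

end Pool.Agent.MP_1246c0_nt.H25
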