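import Pool.Agent.MP_1246c0_nt.H25.SpecC

/-! Cubes, grids and governing fields: statements of the pieces. -/

namespace Pool.Agent.MP_1246c0_nt.H25

open NumberField Polynomial Finset Matrix Function Pool.Agent.MP_db5b97_nt.H85
open Pool.Agent.MP_1246c0_nt.H12

/-! ### Cubes of primes -/

section Cube

variable {ι : Type} [Fintype ι] [DecidableEq ι] {ℓ : ℕ}

/-- the alternating sum over a face -/
def cW {N : Type} [AddCommGroup N] (W : Finset ι) (x0 x1 : ι → ℕ) (f : (ι → ℕ) → N) : N :=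
  ∑ W' ∈ W.powerset, (-1 : ℤ) ^ W'.card • f (W'.piecewise x1 x0)

/-- all vertices of the face are in the set -/
def Vx (X : Set (ι → ℕ)) (W : Finset ι) (x0 x1 : ι → ℕ) : Prop :=
  ∀ W' ⊆ W, W'.piecewise x1 x0 ∈ X

/-- a set of tuples that differ only on `D` -/
structure Cb (Φ : Frm) (P : ℕ) (i1 : ι) (D : Finset ι) (a b : ι) (X : Set (ι → ℕ)) : Prop where
  lb : ∀ x ∈ X, Lb x P i1
  fix : ∀ x ∈ X, ∀ x' ∈ X, ∀ l, l ∉ D → x l = x' l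
  m8 : ∀ x ∈ X, ∀ x' ∈ X, dd x P % 8 = dd x' P % 8
  row : ∀ x ∈ X, ∀ x' ∈ X, ∀ l, l ∉ D →
    chi (dd x P) (Φ.fr (x l)) = chi (dd x' P) (Φ.fr (x l))
  nx : ∀ x ∈ X, ∀ x' ∈ X, ∀ l l', l ≠ l' → x l ≠ x' l'
  ad : a ∈ D
  bd : b ∉ D

/-- the elements on which the correction cancels -/
def Qs (Φ : Frm) (P : ℕ) (D : Finset ι) (a b : ι) (x0 x1 : ι → ℕ) (h : Ga) : Prop :=
  h = Φ.fr P ∨ h = Φ.fr 2 ∨ h = Φ.f2 ∨ h = Φ.cj ∨ h = Φ.f2 * Φ.sg 2 ∨ h = 1 ∨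
    (∃ l, l ∉ D ∧ l ≠ b ∧ h = Φ.fr (x0 l)) ∨ ∃ q, q.Prime ∧ q ≠ x0 a ∧ q ≠ x1 a ∧ h = Φ.sg q

/-- the correction -/
structure Gm (Φ : Frm) (μ : Md ℓ) (P : ℕ) (D : Finset ι) (a b : ι) (X : Set (ι → ℕ))
    (v : Fin ℓ → ℤ) (Γ : (ι → ℕ) → Ga → Fin ℓ → ℤ) : Prop where
  g1 : ∀ W ⊆ D, ∀ x0 x1 h h', Vx X W x0 x1 → cW W x0 x1 (fun x => Γ x (h * h') - Γ x h -
    acn (dd x P) μ.n (toLin' μ.g) h (Γ x h')) ∈ Mu _ ((W.erase a).card + 1)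
  g2 : ∀ W ⊆ D, ∀ x0 x1 h, Vx X W x0 x1 → cW W x0 x1 (fun x => Γ x h) ∈ Mu _ (W.erase a).card
  g3 : ∀ W ⊆ D, a ∈ W → ∀ x0 x1 h, Vx X W x0 x1 → Qs Φ P D a b x0 x1 h →
    cW W x0 x1 (fun x => Γ x h) = 0
  g4 : ∀ x ∈ X, Γ x (Φ.sg (x a)) = v ∧ ∀ x' ∈ X, x' a ≠ x a → Γ x (Φ.sg (x' a)) = 0
  g5 : ∀ x ∈ X, Ivt ⊥ (Γ x)

/-- the conditions on a face -/
def Cd (Φ : Frm) (D : Finset ι) (i : ℕ) (ψ Γ : (ι → ℕ) → Ga → Fin ℓ → ℤ) (W : Finset ι)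
    (x0 x1 : ι → ℕ) : Prop :=
  (∀ h, cW W x0 x1 (fun x => ψ x h - Γ x h) ∈ Mu _ (min W.card (i - 1))) ∧
    (W.Nonempty → ∀ o ∈ D, o ∉ W →
      cW W x0 x1 (fun x => ψ x (Φ.sg (x0 o))) ∈ Mu _ (min (W.card + 1) i))

/-- the cocycle at the last vertex -/
def clo (D : Finset ι) (x0 x1 : ι → ℕ) (ψ Γ : (ι → ℕ) → Ga → Fin ℓ → ℤ) (h : Ga) : Fin ℓ → ℤ :=
  (-1 : ℤ) ^ D.card • (cW D x0 x1 (fun x => Γ x h) -
    ∑ W ∈ D.powerset.erase D, (-1 : ℤ) ^ W.card • ψ (W.piecewise x1 x0) h)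

end Cube

/-! ### Governing cocycles -/

section Gov

variable {I : Type} [Fintype I] [DecidableEq I]

/-- the Galois group of the governing field -/
abbrev Xi (n : ℕ) (I : Type) : Type := ZMod (2 ^ n) × (I → F2)

/-- the projection -/
noncomputable def pix (n : ℕ) (z : I → ℕ) (h : Ga) : Xi n I := (kap n h, fun i => chi (z i) h)

/-- governing cocycles for the primes of one class -/
structure Gv (Φ : Frm) (n : ℕ) (z : I → ℕ) (Q : Finset Ga) (φ : ℕ → Ga → Xi n I → F2)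
    (A : Set ℕ) : Prop where
  coc : ∀ p ∈ A, ∀ h h' ξ, φ p (h * h') ξ = φ p h ξ + φ p h' (ξ - pix n z h)
  inv : ∀ p ∈ A, ∃ U, Op U ∧ ∀ h, ∀ u ∈ U, φ p (h * u) = φ p h
  own : ∀ p ∈ A, φ p (Φ.sg p) = Pi.single 0 1
  oth : ∀ p ∈ A, ∀ p' ∈ A, p ≠ p' → φ p (Φ.sg p') = 0
  unr : ∀ p ∈ A, ∀ p' ∈ A, ∀ q, q.Prime → q ≠ p → q ≠ p' → φ p (Φ.sg q) = φ p' (Φ.sg q)
  cls : ∀ p ∈ A, ∀ p' ∈ A, ∀ h ∈ Q, φ p h = φ p' h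

variable {ι : Type} [Fintype ι] [DecidableEq ι] {ℓ : ℕ}

/-- the correction attached to governing cocycles -/
noncomputable def gam (μ : Md ℓ) (D : Finset ι) (a : ι) (ix : ι → ℕ → I)
    (φ : ℕ → Ga → Xi μ.n I → F2) (v : Vb ℓ) (x : ι → ℕ) (h : Ga) : Fin ℓ → ℤ :=
  ∑ ξ : Xi μ.n I, (((φ (x a) h ξ).val : ℤ) * (-1) ^ (∑ s ∈ D.erase a, ξ.2 (ix s (x s))).val) •
    (toLin' μ.g ^ ξ.1.val) (lf v)

/-- the governing symbol -/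
noncomputable def hv (μ : Md ℓ) (D : Finset ι) (a : ι) (ix : ι → ℕ → I)
    (φ : ℕ → Ga → Xi μ.n I → F2) (w v : Vb ℓ) (x0 x1 : ι → ℕ) (h : Ga) : F2 :=
  ∑ ξ : Xi μ.n I, (∏ s ∈ D.erase a, (ξ.2 (ix s (x0 s)) + ξ.2 (ix s (x1 s)))) *
    (φ (x0 a) h ξ + φ (x1 a) h ξ) * (w ⬝ᵥ (bar μ.g ^ ξ.1.val *ᵥ v))

/-- the governing field -/
noncomputable def kE (n : ℕ) (z : I → ℕ) : IntermediateField ℚ Om :=
  IntermediateField.adjoin ℚ (insert (th n) (Set.range fun i => sqr (z i)))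

instance (n : ℕ) (z : I → ℕ) : NumberField (kE n z) :=
  have : Finite (insert (th n) (Set.range fun i => sqr (z i)) : Set Om) :=
    ((Set.finite_range _).insert _).to_subtype
  have : FiniteDimensional ℚ (kE n z) := IntermediateField.finiteDimensional_adjoin
    fun x _ => (Algebra.IsAlgebraic.isAlgebraic x).isIntegral
  NumberField.of_module_finite ℚ _

/-- radicands with private primes -/
structure Pv (z qz : I → ℕ) : Prop where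
  pos : ∀ i, z i ≠ 0
  gd : ∀ i, Gd 0 (qz i)
  val : ∀ i j, padicValNat (qz i) (z j) = if j = i then 1 else 0

/-- primes that split completely -/
def Spl (n : ℕ) (z : I → ℕ) (p : ℕ) : Prop := Gd n p ∧ ∀ i, ¬p ∣ z i ∧ lg (z i) p = 0

/-- the properties of the governing field -/
structure Ef (Φ : Frm) (n : ℕ) (z : I → ℕ) : Prop where
  mem : ∀ h, h ∈ (kE n z).fixingSubgroup ↔ pix n z h = 0
  sur : Surjective (pix n z)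
  op : Op (kE n z).fixingSubgroup
  rk : Module.finrank ℚ (kE n z) = 2 ^ n * 2 ^ Fintype.card I
  gal : IsGalois ℚ (kE n z)
  spl : ∀ p, Spl n z p → pix n z (Φ.fr p) = 0 ∧ pix n z (Φ.sg p) = 0 ∧
    ∃ (w : Pr (kE n z) 2) (ψ : 𝓞 (kE n z) →+* ZMod p), Ov (kE n z) (Φ.Q p) w.1 ∧
      w.1.asIdeal = RingHom.ker ψ ∧ (∀ x : Un (kE n z), x.val = p → ord w.1 x = 1) ∧
      ∀ h : Ga, (∀ x ∈ w.1.asIdeal, h • algebraMap (𝓞 (kE n z)) OO x ∈ Φ.Q p) → pix n z h = 0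

end Gov

/-! ### Abstract grids -/

section Grid

variable {D Z : Type} [DecidableEq D]

/-- all faces are good -/
def Gf (Y : (D → Z) → Prop) (C : Finset D → (D → Z) → (D → Z) → Prop) (W : Finset D)
    (x0 x1 : D → Z) : Prop := ∀ W' ⊆ W, Y (W'.piecewise x1 x0) ∧ C W' x0 x1

/-- additive systems -/
structure As (Y : (D → Z) → Prop) (C : Finset D → (D → Z) → (D → Z) → Prop) (B : ℕ) : Prop where
  loc : ∀ W x0 x1 x1', (∀ o ∈ W, x1 o = x1' o) → C W x0 x1 → C W x0 x1'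
  emp : ∀ x0 x1, C ∅ x0 x1
  lab : ∀ W o x0 x1, o ∈ W → ∃ lam : Z → Fin B, ∀ z z',
    Gf Y C (W.erase o) (update x0 o z) x1 → Gf Y C (W.erase o) (update x0 o z') x1 →
    lam z = lam z' → ∀ W' ⊆ W, o ∈ W' → C W' (update x0 o z) (update x1 o z')

/-- the last vertex of a cube -/
def Cl [Fintype D] {K : ℕ} (ty : (D → Z) → Option (Fin K)) (rk : Fin K → ℕ)
    (C : Fin K → Finset D → (D → Z) → (D → Z) → Prop) (F : (D → Z) → F2)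
    (H : (D → Z) → (D → Z) → F2) (t0 : Fin K) : Prop :=
  ∀ t x0 x1, (∀ W, W ≠ univ → ty (W.piecewise x1 x0) = some t ∧ C t W x0 x1) →
    ∃ t', ty x1 = some t' ∧ rk t ≤ rk t' ∧ (t = t0 → rk t' = rk t → t' = t ∧
      F x1 = ∑ W ∈ (univ : Finset (Finset D)).erase univ, F (W.piecewise x1 x0) + H x0 x1)

/-- the governing function on a grid -/
def Hg {k M n : ℕ} (lam : ZMod (2 ^ n) → F2) (G : Fin M → Xi n (Fin k × Fin M) → F2)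
    (x0 x1 : Option (Fin k) → Fin M) : F2 :=
  ∑ ξ : Xi n (Fin k × Fin M), (∏ s, (ξ.2 (s, x0 (some s)) + ξ.2 (s, x1 (some s)))) *
    (G (x0 none) ξ + G (x1 none) ξ) * lam ξ.1

end Grid

/-! ### Grids of primes -/

section Tup

variable {ι : Type} [Fintype ι] [DecidableEq ι] {ℓ k M : ℕ}

/-- the tuple at a point of the grid -/
noncomputable def tup (e : Option (Fin k) ↪ ι) (xs : ι → ℕ) (ζ : Fin k × Fin M → ℕ)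
    (ps : Fin M → ℕ) (x : Option (Fin k) → Fin M) : ι → ℕ :=
  Function.extend e (fun o => o.elim (ps (x none)) fun s => ζ (s, x (some s))) xs

/-- a grid with governing cocycles -/
structure Gs (Φ : Frm) (n P : ℕ) (e : Option (Fin k) ↪ ι) (b : ι) (xs : ι → ℕ)
    (ζ : Fin k × Fin M → ℕ) (zs : Fin k → ℕ) (ps : Fin M → ℕ) (Q : Finset Ga)
    (φ : ℕ → Ga → Xi n (Fin k × Fin M) → F2) : Prop where
  be : ∀ o, e o ≠ b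
  inj : ζ.Injective
  zs0 : ∀ s, zs s ≠ 0
  ne : ∀ r q, ps r ≠ ζ q
  gv : Gv Φ n (fun q => zs q.1 * ζ q) Q φ (Set.range ps)
  q1 : Φ.fr P ∈ Q ∧ Φ.fr 2 ∈ Q ∧ Φ.f2 ∈ Q ∧ Φ.cj ∈ Q ∧ Φ.f2 * Φ.sg 2 ∈ Q
  q2 : ∀ l, (∀ o, e o ≠ l) → l ≠ b → Φ.fr (xs l) ∈ Q

/-- the kernels vanish at the chosen indices -/
def Zr (Φ : Frm) (μ : Md ℓ) (pr : ι → ℕ) (P : ℕ) (i1 : ι) (e : Option (Fin k) ↪ ι) : Prop :=
  (∀ v ∈ Us Φ μ pr P i1 1, ∀ s, v (some (e (some s))) = 0) ∧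
    ∀ w ∈ Ws Φ μ pr P i1 2, ∀ o, w (.inl (some (e o))) = 0

/-- the class of a prime with respect to the fixed primes -/
noncomputable def cl (S : Sy) (n P : ℕ) (e : Option (Fin k) ↪ ι) (b : ι) (xs : ι → ℕ) (q : ℕ) :
    Ow n × Co n × (ι → Co n × Co n) :=
  (own S n P q, fl S n q (S.Φ.fr q), fun l => if (∃ o, e o = l) ∨ l = b then 0 else
    (fl S n q (S.Φ.fr (xs l)), fl S n (xs l) (S.Φ.fr q)))

/-- the function that is summed -/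
noncomputable def fv (Φ : Frm) (μ : Md ℓ) (P : ℕ) (i1 : ι) (e : Option (Fin k) ↪ ι) (b : ι)
    (κ : ℕ) (cf : Set (Option ι → Vb ℓ) → Set (Option ι ⊕ Bool → Vb ℓ) →
      (Option ι ⊕ Bool → Vb ℓ) → (Option ι → Vb ℓ) → ℝ) (pr : ι → ℕ) : ℝ :=
  vp Φ μ pr P (k + 1) * ∑ w : Option ι ⊕ Bool → Vb ℓ, ∑ v : Option ι → Vb ℓ,
    cf (Us Φ μ pr P i1 1) (Ws Φ μ pr P i1 2) w v *
      ind (Lb pr P i1 ∧ (Us Φ μ pr P i1 1).ncard ≤ 2 ^ κ ∧ Zr Φ μ pr P i1 e ∧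
        v ∈ Vg Φ μ pr P (k + 1) ∧ w ∈ Ws Φ μ pr P i1 (k + 1) ∧
        w (.inl (some b)) ⬝ᵥ v (some (e none)) = 1) * sg (pg Φ μ pr P (k + 1) w v)

end Tup

/-! ### Statements -/

/-- closing a cube -/
def SCLO : Prop :=
  ∀ (ι : Type) [Fintype ι] [DecidableEq ι] (ℓ : ℕ) (Φ : Frm) (μ : Md ℓ) (P J i : ℕ) (i1 : ι)
    (D : Finset ι) (a b : ι) (X : Set (ι → ℕ)) (v : Option ι → Vb ℓ)
    (ψ Γ : (ι → ℕ) → Ga → Fin ℓ → ℤ) (x0 x1 : ι → ℕ), Ax1 Φ → μ.Ok J → Cb Φ P i1 D a b X →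
    Gm Φ μ P D a b X (lf (v (some a))) Γ → 2 ≤ i → i ≤ D.card → D.card ≤ J → Vx X D x0 x1 →
    (∀ s ∈ D, s ≠ a → v (some s) = 0) →
    (∀ W ⊆ D, W ≠ D → CC Φ μ (W.piecewise x1 x0) P i (ψ (W.piecewise x1 x0)) ∧
      red Φ (W.piecewise x1 x0) (ψ (W.piecewise x1 x0)) = v ∧ Cd Φ D i ψ Γ W x0 x1) →
    CC Φ μ (D.piecewise x1 x0) P i (clo D x0 x1 ψ Γ) ∧
      red Φ (D.piecewise x1 x0) (clo D x0 x1 ψ Γ) = v

/-- the pairing at the last vertex -/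
def SCLP : Prop :=
  ∀ (ι : Type) [Fintype ι] [DecidableEq ι] (ℓ : ℕ) (Φ : Frm) (μ : Md ℓ) (P : ℕ) (i1 : ι)
    (D : Finset ι) (a b : ι) (X : Set (ι → ℕ)) (v : Fin ℓ → ℤ) (w : Option ι ⊕ Bool → Vb ℓ)
    (ψ Γ : (ι → ℕ) → Ga → Fin ℓ → ℤ) (x0 x1 : ι → ℕ), Ax1 Φ → Cb Φ P i1 D a b X →
    Gm Φ μ P D a b X v Γ → Vx X D x0 x1 → (∀ o ∈ D, w (.inl (some o)) = 0) →
    Pw Φ μ (D.piecewise x1 x0) P w (clo D x0 x1 ψ Γ) = (-1) ^ D.card *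
      (2 * (lf (w (.inl (some b))) ⬝ᵥ cW D x0 x1 fun x => Γ x (Φ.fr (x0 b))) -
        ∑ W ∈ D.powerset.erase D,
          (-1) ^ W.card * Pw Φ μ (W.piecewise x1 x0) P w (ψ (W.piecewise x1 x0)))

/-- the conditions on a face are equivalence relations with few classes -/
structure SAMQ : Prop where
  eqv : ∀ (ι : Type) [Fintype ι] [DecidableEq ι] (ℓ : ℕ) (Φ : Frm) (D W : Finset ι) (i : ℕ)
    (ψ Γ : (ι → ℕ) → Ga → Fin ℓ → ℤ) (x0 x1 : ι → ℕ) (o : ι), o ∈ W →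
    Equivalence fun z z' => Cd Φ D i ψ Γ W (update x0 o z) (update x1 o z')
  loc : ∀ (ι : Type) [Fintype ι] [DecidableEq ι] (ℓ : ℕ) (Φ : Frm) (D W : Finset ι) (i : ℕ)
    (ψ Γ : (ι → ℕ) → Ga → Fin ℓ → ℤ) (x0 x1 x1' : ι → ℕ), Cd Φ D i ψ Γ ∅ x0 x1 ∧
    ((∀ o ∈ W, x1 o = x1' o) → Cd Φ D i ψ Γ W x0 x1 → Cd Φ D i ψ Γ W x0 x1')
  amb : ∀ (ι : Type) [Fintype ι] [DecidableEq ι] (ℓ : ℕ) (Φ : Frm) (μ : Md ℓ) (P J i Bu : ℕ)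
    (i1 : ι) (D W : Finset ι) (a b o : ι) (X : Set (ι → ℕ)) (v : Option ι → Vb ℓ)
    (ψ Γ : (ι → ℕ) → Ga → Fin ℓ → ℤ) (x0 x1 : ι → ℕ) (z' : ℕ) (A : Finset ℕ), Ax1 Φ → μ.Ok J →
    Cb Φ P i1 D a b X → Gm Φ μ P D a b X (lf (v (some a))) Γ → 2 ≤ i → i ≤ J →
    (∀ s ∈ D, s ≠ a → v (some s) = 0) →
    (∀ x ∈ X, CC Φ μ x P i (ψ x) ∧ red Φ x (ψ x) = v ∧ (Us Φ μ x P i1 1).ncard ≤ Bu) →
    W ⊆ D → o ∈ W → Gf (· ∈ X) (Cd Φ D i ψ Γ) (W.erase o) (update x0 o z') x1 →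
    (∀ z ∈ A, Gf (· ∈ X) (Cd Φ D i ψ Γ) (W.erase o) (update x0 o z) x1 ∧
      ∀ W' ⊆ W, W' ≠ W → o ∈ W' → Cd Φ D i ψ Γ W' (update x0 o z) (update x1 o z')) →
    (∀ z ∈ A, ∀ y ∈ A, z ≠ y → ¬Cd Φ D i ψ Γ W (update x0 o z) (update x1 o y)) →
    A.card ≤ Bu * 2 ^ (ℓ * (2 * D.card + 1))

/-- the correction has the required properties -/
def SGAM : Prop :=
  ∀ (ι I : Type) [Fintype ι] [DecidableEq ι] [Fintype I] [DecidableEq I] (ℓ : ℕ) (Φ : Frm)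
    (μ : Md ℓ) (P J : ℕ) (i1 : ι) (D : Finset ι) (a b : ι) (X : Set (ι → ℕ)) (z : I → ℕ)
    (Q : Finset Ga) (φ : ℕ → Ga → Xi μ.n I → F2) (A : Set ℕ) (ix : ι → ℕ → I) (zs : ι → ℕ)
    (v : Vb ℓ), Ax1 Φ → μ.Ok J → D.card ≤ J → Cb Φ P i1 D a b X → Gv Φ μ.n z Q φ A →
    (∀ x ∈ X, x a ∈ A ∧ ∀ s ∈ D.erase a, zs s ≠ 0 ∧ z (ix s (x s)) = zs s * x s) →
    (Φ.fr P ∈ Q ∧ Φ.fr 2 ∈ Q ∧ Φ.f2 ∈ Q ∧ Φ.cj ∈ Q ∧ Φ.f2 * Φ.sg 2 ∈ Q) →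
    (∀ x ∈ X, ∀ l, l ∉ D → l ≠ b → Φ.fr (x l) ∈ Q) →
    Gm Φ μ P D a b X (lf v) (gam μ D a ix φ v) ∧ ∀ x0 x1 w h,
      (2 : ℤ) ^ ((D.erase a).card + 1) ∣ lf w ⬝ᵥ cW D x0 x1 (fun x => gam μ D a ix φ v x h) -
        2 ^ (D.erase a).card * ((hv μ D a ix φ w v x0 x1 h).val : ℤ)

/-- labels -/
def SLAB : Prop :=
  ∀ (Z κ : Type) [Finite Z] [Fintype κ] (r : κ → ℕ) (lt : κ → κ → Prop) (E : κ → Z → Z → Prop)
    (Y : Set Z) (B : ℕ), 0 < B → (∀ c, Equivalence (E c)) → (∀ c' c, lt c' c → r c' < r c) →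
    (∀ c, ∀ z' ∈ Y, ∀ A : Finset Z, (∀ z ∈ A, z ∈ Y ∧ ∀ c', lt c' c → E c' z z') →
      (∀ z ∈ A, ∀ y ∈ A, z ≠ y → ¬E c z y) → A.card ≤ B) →
    ∃ lam : Z → Fin (B ^ Fintype.card κ), ∀ z ∈ Y, ∀ z' ∈ Y, lam z = lam z' → ∀ c, E c z z'

/-- most points lie on many good cubes -/
def SDEN : Prop :=
  ∀ (d B : ℕ) (η : ℝ), 0 < η → ∃ δ : ℝ, 0 < δ ∧ ∀ (D Z : Type) [Fintype D] [DecidableEq D]
    [Fintype Z] [Nonempty Z] (Y : (D → Z) → Prop) (C : Finset D → (D → Z) → (D → Z) → Prop),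
    Fintype.card D ≤ d → As Y C B →
    (Nat.card {x1 // Y x1 ∧ (Nat.card {x0 // Gf Y C univ x0 x1} : ℝ) < δ * Nat.card (D → Z)} : ℝ) ≤
      η * Nat.card (D → Z)

/-- coding by few functions of fewer variables -/
def SCOD : Prop :=
  ∀ (d B K : ℕ) (η : ℝ), 0 < η → ∃ Ka Kb : ℕ, ∀ (D Z : Type) [Fintype D] [DecidableEq D]
    [Fintype Z] [Nonempty Z] [Nonempty D] (ty : (D → Z) → Option (Fin K)) (rk : Fin K → ℕ)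
    (C : Fin K → Finset D → (D → Z) → (D → Z) → Prop) (F : (D → Z) → F2)
    (H : (D → Z) → (D → Z) → F2) (t0 : Fin K), Fintype.card D ≤ d →
    (∀ t, As (fun x => ty x = some t) (C t) B) → Cl ty rk C F H t0 →
    ∃ (A : Fin Ka → D → Z) (oc : Fin Kb → D) (β : (D → Z) → Fin Kb → F2)
      (Ψ : (Fin Kb → F2) → Fin Ka × F2 × F2), (∀ c x z, β (update x (oc c) z) c = β x c) ∧
      |∑ x, ind (ty x = some t0) * sg (F x) -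
        ∑ x, ind ((Ψ (β x)).2.1 = 1) * sg ((Ψ (β x)).2.2 + H (A (Ψ (β x)).1) x)| ≤
        η * Nat.card (D → Z)

/-- independent signs -/
def SHOE : Prop :=
  ∀ (k n M Ka : ℕ) (η : ℝ) (lam : ZMod (2 ^ n) → F2) (A : Fin Ka → Option (Fin k) → Fin M)
    (ix : (Option (Fin k) → Fin M) → Fin Ka) (Y F : (Option (Fin k) → Fin M) → F2), 0 < η →
    lam 0 = 1 → 2 * ((k + 1) * Ka : ℝ) ≤ η * M →
    (Nat.card {G : Fin M → Xi n (Fin k × Fin M) → F2 //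
      η * M ^ (k + 1) < |∑ x, ind (Y x = 1) * sg (F x + Hg lam G (A (ix x)) x)|} : ℝ) ≤
      2 * Real.exp (-(η ^ 2 * M ^ (k + 1) / 8)) * Nat.card (Fin M → Xi n (Fin k × Fin M) → F2)

/-- cancellation on an abstract grid -/
def SGRA : Prop :=
  ∀ (k n B K : ℕ) (η : ℝ), 0 < η → ∃ M : ℕ, 1 ≤ M ∧
    ∃ Bd : Finset (Fin M → Xi n (Fin k × Fin M) → F2),
    (Bd.card : ℝ) ≤ η * Nat.card (Fin M → Xi n (Fin k × Fin M) → F2) ∧ ∀ G ∉ Bd,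
    ∀ (lam : ZMod (2 ^ n) → F2) (ty : (Option (Fin k) → Fin M) → Option (Fin K)) (rk : Fin K → ℕ)
      (C : Fin K → Finset (Option (Fin k)) → (Option (Fin k) → Fin M) →
        (Option (Fin k) → Fin M) → Prop) (F : (Option (Fin k) → Fin M) → F2) (t0 : Fin K),
      lam 0 = 1 → (∀ t, As (fun x => ty x = some t) (C t) B) → Cl ty rk C F (Hg lam G) t0 →
      |∑ x, ind (ty x = some t0) * sg (F x)| ≤ η * M ^ (k + 1)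

/-- cancellation for one type -/
def SGRS : Prop :=
  ∀ (ℓ k n κ : ℕ) (η : ℝ), 2 ≤ k → 0 < η → ∃ M : ℕ, 1 ≤ M ∧
    ∃ Bd : Finset (Fin M → Xi n (Fin k × Fin M) → F2),
    (Bd.card : ℝ) ≤ η * Nat.card (Fin M → Xi n (Fin k × Fin M) → F2) ∧
    ∀ (ι : Type) [Fintype ι] [DecidableEq ι] (S : Sy) (g s u : Matrix (Fin ℓ) (Fin ℓ) ℤ)
      (a J P : ℕ) (i1 b : ι) (e : Option (Fin k) ↪ ι) (xs : ι → ℕ) (ζ : Fin k × Fin M → ℕ)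
      (zs : Fin k → ℕ) (ps : Fin M → ℕ) (Q : Finset Ga) (φ : ℕ → Ga → Xi n (Fin k × Fin M) → F2)
      (y0 : (ι → Ow n) × (ι → ι → Co n)) (t : ℕ → Set (Option ι → Vb ℓ))
      (w : Option ι ⊕ Bool → Vb ℓ) (v : Option ι → Vb ℓ), Ax S → Md.Ok ⟨g, s, u, a, n⟩ J →
      k + 1 ≤ J → Gs S.Φ n P e b xs ζ zs ps Q φ → (fun r => φ (ps r) (S.Φ.fr (xs b))) ∉ Bd →
      w (.inl (some b)) ⬝ᵥ v (some (e none)) = 1 →
      |∑ x, ind (Lb (tup e xs ζ ps x) P i1 ∧ tab S n (tup e xs ζ ps x) P = y0 ∧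
          (Us S.Φ ⟨g, s, u, a, n⟩ (tup e xs ζ ps x) P i1 1).ncard ≤ 2 ^ κ ∧
          Zr S.Φ ⟨g, s, u, a, n⟩ (tup e xs ζ ps x) P i1 e ∧
          (∀ i ∈ Icc 2 (k + 1), Vs S.Φ ⟨g, s, u, a, n⟩ (tup e xs ζ ps x) P i = t i) ∧
          v ∈ Vs S.Φ ⟨g, s, u, a, n⟩ (tup e xs ζ ps x) P (k + 1) ∧
          w ∈ Ws S.Φ ⟨g, s, u, a, n⟩ (tup e xs ζ ps x) P i1 (k + 1)) *
        sg (pg S.Φ ⟨g, s, u, a, n⟩ (tup e xs ζ ps x) P (k + 1) w v)| ≤ η * M ^ (k + 1)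

/-- cancellation on a grid of primes -/
def SGRT : Prop :=
  ∀ (ℓ k n κ : ℕ) (η : ℝ), 2 ≤ k → 0 < η → ∃ M : ℕ, 1 ≤ M ∧
    ∃ Bd : Finset (Fin M → Xi n (Fin k × Fin M) → F2),
    (Bd.card : ℝ) ≤ η * Nat.card (Fin M → Xi n (Fin k × Fin M) → F2) ∧
    ∀ (ι : Type) [Fintype ι] [DecidableEq ι] (S : Sy) (g s u : Matrix (Fin ℓ) (Fin ℓ) ℤ)
      (a J P : ℕ) (i1 b : ι) (e : Option (Fin k) ↪ ι) (xs : ι → ℕ) (ζ : Fin k × Fin M → ℕ)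
      (zs : Fin k → ℕ) (ps : Fin M → ℕ) (Q : Finset Ga) (φ : ℕ → Ga → Xi n (Fin k × Fin M) → F2)
      (cf : Set (Option ι → Vb ℓ) → Set (Option ι ⊕ Bool → Vb ℓ) →
        (Option ι ⊕ Bool → Vb ℓ) → (Option ι → Vb ℓ) → ℝ), Ax S → Md.Ok ⟨g, s, u, a, n⟩ J →
      k + 1 ≤ J → Gs S.Φ n P e b xs ζ zs ps Q φ → (fun r => φ (ps r) (S.Φ.fr (xs b))) ∉ Bd →
      (∀ U W w v, |cf U W w v| ≤ 1) →
      (∀ s i i', cl S n P e b xs (ζ (s, i)) = cl S n P e b xs (ζ (s, i'))) →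
      (∀ r r', cl S n P e b xs (ps r) = cl S n P e b xs (ps r')) →
      |∑ x, fv S.Φ ⟨g, s, u, a, n⟩ P i1 e b κ cf (tup e xs ζ ps x)| ≤ η * M ^ (k + 1)

/-- the governing field -/
def SGVA : Prop :=
  ∀ (I : Type) [Fintype I] [DecidableEq I] (Φ : Frm) (n : ℕ) (z qz : I → ℕ), Ax1 Φ → Pv z qz →
    Ef Φ n z

/-- a basis of small height -/
def SGVB : Prop :=
  ∀ n c : ℕ, ∃ C : ℕ, ∀ (I : Type) [Fintype I] [DecidableEq I] (Φ : Frm) (z : I → ℕ) (Z : ℕ),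
    Ax1 Φ → Ef Φ n z → Fintype.card I ≤ c → 1 ≤ Z → (∀ i, z i ≤ Z ^ 2) →
    ∃ (e : Fin (2 ^ n * 2 ^ Fintype.card I) → 𝓞 (kE n z)) (κ : ℕ), Kit e κ ∧ κ ≤ (2 * Z) ^ C ∧
      LinearIndependent ℤ e ∧ (∀ (L : ℕ), ∀ x ∈ Box e L,
        |Algebra.norm ℤ x| ≤ ((2 * Z) ^ C * L) ^ (2 ^ n * 2 ^ Fintype.card I)) ∧
      ∀ (p : ℕ) (ψ : 𝓞 (kE n z) →+* ZMod p), p.Prime → p ≠ 2 → (∀ i, ¬p ∣ z i) →
        Bijective fun (a : Fin (2 ^ n * 2 ^ Fintype.card I) → ZMod p)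
          (σ : kE n z ≃ₐ[ℚ] kE n z) => ∑ j, a j * ψ (σ • e j)

/-- short generators up to few ideals -/
def SGVC : Prop :=
  ∀ (E : Type) [Field E] [NumberField E] (N K : ℕ) (e : Fin N → 𝓞 E) (A : Set ℕ) (w : ℕ → Sp E),
    Module.finrank ℚ E = N → 1 ≤ K → LinearIndependent ℤ e →
    (∀ (L : ℕ), ∀ x ∈ Box e L, |Algebra.norm ℤ x| ≤ (K * L) ^ N) →
    (∀ p ∈ A, K ^ N < p ∧ Ideal.absNorm (w p).asIdeal = p) →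
    ∃ (T : ℕ) (τ : ℕ → Fin T) (a : ℕ → 𝓞 E) (α : ℕ → Un E), T ≤ (K ^ N) ^ (N ^ 2 + 1) ∧
      (∀ p ∈ A, (α p).val = a p ∧ (∃ L, a p ∈ Box e L ∧ L ^ N ≤ p) ∧
        (∃ c : ℕ, 1 ≤ c ∧ c ≤ K ^ N ∧ |Algebra.norm ℤ (a p)| = p * c) ∧
        ord (w p) (α p) = 1 ∧
        ∀ v : Sp E, v ≠ w p → K ^ N < Ideal.absNorm v.asIdeal → ord v (α p) = 0) ∧
      ∀ p ∈ A, ∀ p' ∈ A, τ p = τ p' → ∀ v : Sp E, v ≠ w p → v ≠ w p' → ord v (α p) = ord v (α p')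

/-- existence and equidistribution of governing cocycles -/
def SGOV : Prop :=
  ∀ n c : ℕ, ∃ C : ℕ, 1 ≤ C ∧ ∀ (I : Type) [Fintype I] [DecidableEq I] (Φ : Frm) (z qz : I → ℕ)
    (Z : ℕ) (Q : Finset Ga), Ax1 Φ → Pv z qz → Fintype.card I ≤ c → 1 ≤ Z → (∀ i, z i ≤ Z ^ 2) →
    (∀ i, (z i).primeFactors.card ≤ 2) →
    ∃ (T : ℕ) (τ : ℕ → Fin T) (φ : ℕ → Ga → Xi n I → F2), T ≤ (2 * Z) ^ C * 2 ^ (C * Q.card) ∧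
      (∀ t, Gv Φ n z Q φ {p | Spl n z p ∧ (2 * Z) ^ C < p ∧ τ p = t}) ∧
      ∀ (μ : Finset (Xi n I)) (A A' : Finset ℕ) (u v : ℕ → ℝ) (M M' Y : ℕ), μ.Nonempty →
        (2 * Z) ^ C ≤ Y → (∀ p ∈ A, Spl n z p ∧ Y < p ∧ p ≤ M) →
        (∀ p ∈ A', Spl n z p ∧ Y < p ∧ p ≤ M') → (∀ p, |u p| ≤ 1) → (∀ p, |v p| ≤ 1) →
        |∑ p ∈ A, ∑ b ∈ A', u p * v b * sg (∑ ξ ∈ μ, φ p (Φ.fr b) ξ)| ≤
          (2 * Z : ℝ) ^ C * (Real.log M' + 2) / (Y : ℝ) ^ (1 / C : ℝ) * M * M'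

def OfCLO : Prop := SCC → SCLO
def OfCLP : Prop := SCC → SCLP
def OfAMQ : Prop := SCC → SPR → SAMQ
def OfGAM : Prop := SCC → SGAM
def OfCOD : Prop := SDEN → SCOD
def OfGRA : Prop := SCOD → SHOE → SGRA
def OfGRS : Prop := SPR → STAB → SCLO → SCLP → SAMQ → SGAM → SLAB → SGRA → SGRS
def OfGRT : Prop := SPR → SZR → STAB → SGRS → SGRT
def OfGVA : Prop := SCY → SLIFT → SKUM → SKQ → SGVA
def OfGVB : Prop := SCY → SKQ → SGVB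
def OfGOV : Prop := SQR → SRA → SRECT → SLIFT → SKUM → SGVA → SGVB → SGVC → SGOV

end Pool.Agent.MP_1246c0_nt.H25
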