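import Pool.Agent.MP_1246c0_nt.H25.Defs

/-! Sums over primes and abstract averaging: statements of the pieces. -/

namespace Pool.Agent.MP_1246c0_nt.H25

open NumberField Polynomial Finset Filter Function Pool.Agent.MP_db5b97_nt.H85
open Pool.Agent.MP_1246c0_nt.H12

/-! ### Series over ideals -/

section Ser

variable {K : Type} [Field K] [NumberField K]

/-- a complex power of the norm -/
noncomputable def nc (I : Ideal (𝓞 K)) (s : ℂ) : ℂ := ((Ideal.absNorm I : ℕ) : ℂ) ^ (-s)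

/-- a product of signs -/
noncomputable def sgA (A : Finset (K →+* ℝ)) (a : 𝓞 K) : ℂ :=
  ∏ ρ ∈ A, if ρ (a : K) < 0 then -1 else 1

/-- the series continues to a larger disc with the bound `B` -/
def Hol (ω : Ideal (𝓞 K) → ℂ) (B : ℝ) : Prop :=
  ∃ G : ℂ → ℂ, DifferentiableOn ℂ G (Metric.ball 2 (1 + 1 / (2 * Module.finrank ℚ K))) ∧
    (∀ s ∈ Metric.ball (2 : ℂ) (1 + 1 / (2 * Module.finrank ℚ K)), ‖G s‖ ≤ B) ∧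
    ∀ s ∈ Metric.ball (2 : ℂ) 1, G s = ∑' I, ω I * nc I s

/-- a family of characters -/
structure Cf {C : Type} [Fintype C] (k : ℕ) (A : ℝ) (ω : C → Ideal (𝓞 K) → ℂ)
    (ker : Ideal (𝓞 K) → Prop) (Tv : Finset C) : Prop where
  one : ∀ c, ω c ⊤ = 1
  mul : ∀ c I J, ω c (I * J) = ω c I * ω c J
  le : ∀ c I, ‖ω c I‖ ≤ 1
  orth : ∀ I, I ≠ ⊥ → ∑ c, ω c I = ((Fintype.card C * ind (ker I) : ℝ) : ℂ)
  md : ∀ I, ker I → Ideal.absNorm I % 2 ^ k = 1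
  hol : ∀ c, c ∉ Tv → Hol (ω c) (Real.exp (A * k))
  few : (Tv.card : ℝ) * 2 ^ k ≤ A * Fintype.card C

end Ser

/-- divisibility of a coefficient function -/
def Dj (j : ℕ) {n : ℕ} (f : Co n) : Prop := ((X : F2[X]) - 1) ^ j ∣ cv (X : F2[X]) f

open Classical in
/-- the sum of the reciprocals of the primes in an interval with a property -/
noncomputable def RS (y x : ℕ) (Q : ℕ → Prop) : ℝ :=
  ∑ p ∈ (Ioc y x).filter fun p => p.Prime ∧ Q p, 1 / (p : ℝ)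

/-! ### Parameters -/

/-- bound for the number of primes -/
noncomputable def m0 (X : ℕ) : ℕ := ⌊ll X ^ 2⌋₊

/-- upper end of the first window -/
noncomputable def Z1 (X : ℕ) : ℕ := ⌊Real.exp (Real.exp (ll X / 3))⌋₊

/-- lower end of the second window -/
noncomputable def Y2 (X : ℕ) : ℕ := ⌈Real.exp (Real.exp (ll X / 2))⌉₊

/-! ### Statements -/

/-- periodic functions of mean zero -/
def SAL1 : Prop :=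
  ∀ (K : Type) [Field K] [NumberField K], ∃ C : ℝ, ∀ (Q : ℕ) (θ : 𝓞 K → ℂ)
    (A : Finset (K →+* ℝ)) (Θ : Ideal (𝓞 K) → ℂ), 0 < Q → (∀ a, ‖θ a‖ ≤ 1) →
    (∀ a b, θ (a + Q * b) = θ a) → ∑ᶠ x : 𝓞 K ⧸ Ideal.span {(Q : 𝓞 K)}, θ x.out = 0 →
    (∀ I, ¬I.IsPrincipal → Θ I = 0) → (∀ a, a ≠ 0 → Θ (Ideal.span {a}) = θ a * sgA A a) →
    Hol Θ (C * Q ^ (Module.finrank ℚ K + 1))

/-- characters of ray classes -/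
def SAL2 : Prop :=
  ∀ (K : Type) [Field K] [NumberField K], ∃ C : ℝ, ∀ (m : ℕ) (ω : Ideal (𝓞 K) → ℂ) (θ : 𝓞 K → ℂ)
    (A : Finset (K →+* ℝ)), (∀ I J, ω (I * J) = ω I * ω J) → (∀ I, ‖ω I‖ ≤ 1) →
    (∀ I, IsCoprime I (Ideal.span {(2 : 𝓞 K)}) → ‖ω I‖ = 1) →
    (∀ a, a ≠ 0 → ω (Ideal.span {a}) = θ a * sgA A a) → (∀ a b, θ (a + 2 ^ m * b) = θ a) →
    (∀ a b, θ (a * b) = θ a * θ b) → (∃ b, IsCoprime b 2 ∧ θ b ≠ 1) →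
    Hol ω (C * (2 ^ m) ^ (Module.finrank ℚ K + 1))

/-- the product of Euler in exact form -/
def SEUX : Prop :=
  ∀ (K : Type) [Field K] [NumberField K] (f : Ideal (𝓞 K) → ℂ), f ⊤ = 1 → f ⊥ = 0 →
    (∀ I J, f (I * J) = f I * f J) → (Summable fun I => ‖f I‖) →
    (∀ v : Sp K, ‖f v.asIdeal‖ ≤ 1 / 2) →
    (Summable fun q : Sp K × ℕ => ‖f q.1.asIdeal‖ ^ (q.2 + 1)) ∧ ∑' I, f I ≠ 0 ∧
      Real.log ‖∑' I, f I‖ = (∑' q : Sp K × ℕ, f q.1.asIdeal ^ (q.2 + 1) / (q.2 + 1)).re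

/-- three circles -/
def STRC : Prop :=
  ∀ (G : ℂ → ℂ) (c : ℂ) (r1 r2 r3 R M1 M3 : ℝ), 0 < r1 → r1 ≤ r2 → r2 ≤ r3 → r1 < r3 → r3 < R →
    DifferentiableOn ℂ G (Metric.ball c R) → (∀ z ∈ Metric.sphere c r1, ‖G z‖ ≤ M1) →
    (∀ z ∈ Metric.sphere c r3, ‖G z‖ ≤ M3) → ∀ z ∈ Metric.sphere c r2,
    ‖G z‖ ≤ M1 ^ (1 - Real.log (r2 / r1) / Real.log (r3 / r1)) *
      M3 ^ (Real.log (r2 / r1) / Real.log (r3 / r1))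

/-- the primes in the kernel of a family of characters -/
def SCHS : Prop :=
  ∀ (K : Type) [Field K] [NumberField K] (A ε : ℝ), 0 < ε → ∃ k0 : ℕ, ∀ k, k0 ≤ k →
    ∀ (C : Type) [Fintype C] (ω : C → Ideal (𝓞 K) → ℂ) (ker : Ideal (𝓞 K) → Prop) (Tv : Finset C)
      (σ : ℝ), Cf k A ω ker Tv → 0 < σ → σ ≤ 1 / k ^ 2 →
      Fintype.card C * ∑' v : Sp K, ind (ker v.asIdeal) * nz v.asIdeal (1 + σ) ≤
        Tv.card * Real.log (1 / σ) + ε * Fintype.card C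

/-- the characters attached to units -/
def SLCH : Prop :=
  ∀ (n : ℕ) (D : Dat n), ∃ A : ℝ, ∀ (k : ℕ) (W : AddSubgroup (Co n)), 1 ≤ k →
    ∃ (C : Type) (_ : Fintype C) (ω : C → Ideal (𝓞 D.F) → ℂ) (ker : Ideal (𝓞 D.F) → Prop)
      (Tv : Finset C), Cf k A ω ker Tv ∧ Fintype.card C = 2 ^ (k - 1) * Nat.card W ∧
      Tv.card ≤ 2 ^ (n + 2) ∧ ∀ (q : ℕ) (ψ : 𝓞 D.F →+* ZMod q), q.Prime → q % 2 ^ k = 1 →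
        (∀ μ ∈ W, ∑ t, μ t * qr (ψ (D.γ⁻¹ ^ t.val • D.η)) = 0) → ker (RingHom.ker ψ)

/-- divisibility in the group ring -/
structure SDJ : Prop where
  ann : ∀ n j : ℕ, j ≤ 2 ^ n → ∃ W : AddSubgroup (Co n), 2 ^ j ≤ Nat.card W ∧
    ∀ f : Co n, Dj j f → ∀ μ ∈ W, ∀ i, ∑ t, μ t * f (t + i) = 0
  ring : ∀ (n j : ℕ) (Λ : Type) [CommRing Λ] (st : Λ →+* Λ) (au : Λ →+* F2) (g : Λ) (f : Co n),
    LG st au g (2 ^ n) → j ≤ 2 ^ n → (g - 1) ^ j ∣ cv g f → Dj j f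
  aug : ∀ (n j : ℕ) (f : Co n), 1 ≤ j → Dj j f → ∑ t, f t = 0

/-- the symbols of the unit are rarely divisible -/
def SUNT : Prop :=
  ∀ (n j : ℕ) (D : Dat n) (ε : ℝ), j ≤ 2 ^ n → 0 < ε → ∃ k0 : ℕ, ∀ k, k0 ≤ k → ∀ σ : ℝ, 0 < σ →
    σ ≤ 1 / k ^ 2 → SP' (fun q => q % 2 ^ k = 1 ∧ Dj j (D.cc q)) (pw σ) ≤
      8 * Real.log (1 / σ) / 2 ^ (k + j) + ε

/-- sums of reciprocals of primes -/
structure SWIN : Prop where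
  cls : ∃ C : ℝ, 0 ≤ C ∧ ∀ k b y x : ℕ, 1 ≤ k → Odd b → b < 2 ^ k → 3 ≤ y → y ≤ x →
    ((k : ℝ) + 1) ^ 10 ≤ Real.log y →
    2 / 2 ^ k * (ll x - ll y) - C ≤ RS y x fun p => p % 2 ^ k = b
  det : ∃ C : ℝ, 0 ≤ C ∧ ∀ (k y x : ℕ) (W : Finset ℕ), 1 ≤ k → W.Nonempty → (∀ l ∈ W, Gd 0 l) →
    3 ≤ y → y ≤ x → ((k : ℝ) + 1) ^ 10 ≤ Real.log y → (W.card : ℝ) ≤ Real.log y →
    1 / 2 ^ k * (ll x - ll y) - C * (Real.log (5 + k + ∑ l ∈ W, Real.log l) + ll y + 1) ≤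
      RS y x fun p => p % 2 ^ k = 1 ∧ p ∉ W ∧ ∑ l ∈ W, lg p l = 1
  up : ∀ (Q : ℕ → Prop) (x : ℕ), 3 ≤ x → RS 0 x Q ≤ 3 * SP' Q (pw (1 / Real.log x))
  lv : ∃ C : ℝ, 0 ≤ C ∧ ∀ a x : ℕ, 3 ≤ x →
    RS 0 x (fun p => a ≤ lev p) ≤ 3 * ll x / 2 ^ a + C / (6 / 5) ^ a
  tot : ∃ C : ℝ, 0 ≤ C ∧ ∀ x : ℕ, 3 ≤ x → RS 0 x (fun _ => True) ≤ ll x + C

/-- integers with few or many prime factors in a set -/
structure SHT : Prop where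
  few : ∃ C : ℝ, 0 ≤ C ∧ ∀ (x t : ℕ) (R : Finset ℕ), (∀ p ∈ R, p.Prime ∧ p ≤ x) →
    ({d : ℕ | d ≤ x ∧ Squarefree d ∧ (R.filter (· ∣ d)).card ≤ t}.ncard : ℝ) ≤
      C * x * 2 ^ t * Real.exp (-(∑ p ∈ R, 1 / (p : ℝ)) / 2)
  many : ∀ (x t : ℕ) (R : Finset ℕ),
    t * ({d : ℕ | 1 ≤ d ∧ d ≤ x ∧ t ≤ (R.filter (· ∣ d)).card}.ncard : ℝ) ≤ x * ∑ p ∈ R, 1 / (p : ℝ)

/-- the size of the parameters -/
def SPR2 : Prop :=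
  ∀ C : ℕ, ∀ᶠ X : ℕ in atTop, (C : ℝ) ≤ ll X ∧ 3 ≤ YY X ∧ YY X ≤ Z1 X ∧ (2 * Z1 X) ^ C ≤ Y2 X ∧
    Z1 X ≤ Y2 X ∧ Y2 X ≤ X.sqrt ∧ YY X ^ m0 X ≤ X.sqrt ∧ ll X ^ 5 ≤ Real.log (YY X) ∧
    Real.log (YY X) ≤ ll X ^ 5 + 1 ∧ ll (YY X) ≤ 6 * Real.log (ll X) ∧ ll X / 4 ≤ ll (Z1 X) ∧
    ll (Y2 X) ≤ 2 / 3 * ll X ∧ ll X - 1 ≤ ll X.sqrt ∧ Real.log X + 2 ≤ Real.exp (2 * ll X) ∧
    (2 * Z1 X : ℝ) ^ C * Real.exp (C * ll X ^ 5) ≤ (Y2 X : ℝ) ^ (1 / C : ℝ) ∧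
    ∀ N : ℕ, 1 ≤ N → (N : ℝ) ^ 5 ≤ ll X →
      dl C N (YY X) X * Real.exp (C * N * ll X ^ 4) ≤ 1 ∧ 1 ≤ dl C N (YY X) X * YY X ∧
      EE N (m0 X) (m0 X) X ≤ Real.exp (20 * N * ll X ^ 4)

/-- sampling -/
def SSMP : Prop :=
  ∀ (k M : ℕ) (A : Fin k → Finset ℕ) (A' B' : Finset ℕ) (U : Fin k → ℝ) (U' V' η δ : ℝ)
    (χ : ℕ → ℕ → F2) (F : (Fin k → ℕ) → ℕ → ℕ → ℝ), 1 ≤ M → 0 ≤ η → η ≤ 1 → 0 ≤ δ →
    (∀ s, ((A s).card : ℝ) ≤ U s ∧ 1 ≤ δ * U s) → (A'.card : ℝ) ≤ U' → (B'.card : ℝ) ≤ V' →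
    (∀ z p q, |F z p q| ≤ 1) →
    (∀ (s : Fin k) (u v : ℕ → ℝ), (∀ p, |u p| ≤ 1) → (∀ p, |v p| ≤ 1) →
      |∑ z ∈ A s, ∑ p ∈ A', u z * v p * sg (χ z p)| ≤ δ * U s * U' ∧
      |∑ z ∈ A s, ∑ p ∈ B', u z * v p * sg (χ z p)| ≤ δ * U s * V') →
    (∀ (zs : Fin k → ℕ) (ζ : Fin k × Fin M → ℕ), (∀ s, zs s ∈ A s) → (∀ i, ζ i ∈ A i.1) →
      ζ.Injective → (∀ i s, ζ i ≠ zs s) →
      |∑ p ∈ A'.filter fun p => ∀ i, χ (zs i.1) p + χ (ζ i) p = 0,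
        ∑ q ∈ B'.filter fun p => ∀ i, χ (zs i.1) p + χ (ζ i) p = 0,
          ∑ x : Fin k → Fin M, F (fun s => ζ (s, x s)) p q| ≤
        M ^ k * (η * (A'.filter fun p => ∀ i, χ (zs i.1) p + χ (ζ i) p = 0).card *
          (B'.filter fun p => ∀ i, χ (zs i.1) p + χ (ζ i) p = 0).card + δ * U' * V')) →
    |∑ z ∈ Fintype.piFinset A, ∑ p ∈ A', ∑ q ∈ B', F z p q| ≤
      η * (∏ s, ((A s).card : ℝ)) * A'.card * B'.card +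
        4 ^ (k * M) * (k * (M + 1) + 2) ^ 2 * δ * (∏ s, U s) * U' * V'

/-- few tuples have a bad pattern -/
def SFOU : Prop :=
  ∀ (Ξ : Type) [Fintype Ξ] [DecidableEq Ξ] (M T : ℕ) (Bd : Finset (Fin M → Ξ → F2))
    (A B : Finset ℕ) (τ : ℕ → Fin T) (φ : ℕ → ℕ → Ξ → F2) (G : ℕ → ℕ → ℝ) (η E : ℝ), 1 ≤ M →
    0 ≤ η → 0 ≤ E → (Bd.card : ℝ) ≤ η * Nat.card (Fin M → Ξ → F2) → (∀ p q, |G p q| ≤ 1) →
    (∀ ps : Fin M → ℕ, (∀ r, ps r ∈ A) → (∀ r r', τ (ps r) = τ (ps r')) → ∀ q ∈ B,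
      (fun r => φ (ps r) q) ∉ Bd → |∑ r, G (ps r) q| ≤ η * M) →
    (∀ (μ : Finset Ξ) (u v : ℕ → ℝ), μ.Nonempty → (∀ p, |u p| ≤ 1) → (∀ p, |v p| ≤ 1) →
      |∑ p ∈ A, ∑ q ∈ B, u p * v q * sg (∑ ξ ∈ μ, φ p q ξ)| ≤ E) →
    |∑ p ∈ A, ∑ q ∈ B, G p q| ≤ 2 * η * A.card * B.card + T * 2 ^ (M * Fintype.card Ξ) * E

/-- from boxes to the hyperbola -/
def SBOX : Prop :=
  ∀ (ι D Ω : Type) [Fintype ι] [DecidableEq ι] [Fintype D] [DecidableEq D] [Fintype Ω]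
    (e : D → ι) (T : ℕ) (c : (ι → ℕ) → ℕ → Ω) (F ω : (ι → ℕ) → ℝ) (η δ θ : ℝ), e.Injective →
    0 ≤ η → 0 ≤ δ → 0 < θ → θ ≤ 1 → (∀ x, |F x| ≤ ω x) → (∀ x i, x i = 0 → ω x = 0) →
    (∀ (xs : ι → ℕ) (A : D → Finset ℕ) (U : D → ℕ),
      (∀ o, ∀ y ∈ A o, y ≤ U o ∧ ∀ y' ∈ A o, c xs y = c xs y') → ∏ o, U o ≤ T →
      |∑ y ∈ Fintype.piFinset A, F (extend e y xs)| ≤
        η * ∑ y ∈ Fintype.piFinset A, ω (extend e y xs) + δ * ∏ o, (U o : ℝ)) →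
    |∑ x ∈ Fintype.piFinset fun _ : ι => range (T + 1), if ∏ i, x i ≤ T then F x else 0| ≤
      η * (∑ x ∈ Fintype.piFinset fun _ : ι => range (T + 1), if ∏ i, x i ≤ T then ω x else 0) +
      (∑ x ∈ Fintype.piFinset fun _ : ι => range (T + 1),
        if ∏ i, x i ≤ T then ω x * ind (T < (1 + θ) ^ Fintype.card D * ∏ i, (x i : ℝ)) else 0) +
      δ * T * (Fintype.card Ω * (2 * Real.log T / θ + 2)) ^ Fintype.card D *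
        (Real.log T + 2) ^ Fintype.card ι

def OfAL2 : Prop := SAL1 → SAL2
def OfCHS : Prop := SEUX → STRC → SCHS
def OfLCH : Prop := SCY → SUN → SQR → SRA → SRD → SAL2 → SLCH
def OfDJ : Prop := SLAM → SDJ
def OfUNT : Prop := SCY → SDEC → SDJ → SCHS → SLCH → SUNT
def OfWIN : Prop := SDEC → SMASS → SDET → SWIN
def OfHT : Prop := SWIN → SHT

end Pool.Agent.MP_1246c0_nt.H25
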