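import Pool.Agent.MP_1246c0_nt.H25.SpecG
import Pool.Agent.MP_1246c0_nt.H25.SpecU

/-! The count over all integers: statements of the pieces. -/

namespace Pool.Agent.MP_1246c0_nt.H25

open Finset Matrix Filter Function Pool.Agent.MP_db5b97_nt.H85
open Pool.Agent.MP_1246c0_nt.H55 (Fund kD)
open Pool.Agent.MP_1246c0_nt.H12

/-! ### The sum over all configurations -/

/-- the weight of the big primes -/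
noncomputable def wB (X p : ℕ) : ℝ := if p.Prime ∧ p ≠ 2 ∧ YY X < p then 1 else 0

/-- the weight of the distinguished prime -/
noncomputable def wF (X p : ℕ) : ℝ := if p.Prime ∧ p % 8 = 5 ∧ YY X < p then 1 else 0

/-- the number of choices for the distinguished prime -/
def n5 {m : ℕ} (p : Fin m → ℕ) : ℕ := 1 + (univ.filter fun i => p i % 8 = 5).card

/-- sets of small primes -/
noncomputable def Sm (X : ℕ) : Finset (Finset ℕ) :=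
  (OP (YY X)).powerset.filter fun Sg => Sg.card ≤ m0 X

/-- the sum over the big primes -/
noncomputable def TG (X : ℕ) (Sg : Finset ℕ) (m : ℕ) (Ψ : (Fin m → ℕ) → ℕ → ℝ) : ℝ :=
  TS m (X / ∏ l ∈ Sg, l) (wB X) (wF X) fun p P => Ψ p P / n5 p

/-- functions of a configuration -/
abbrev Fn : Type := ∀ (Sg : Finset ℕ) (m : ℕ), Sg → (Fin m → ℕ) → ℕ → ℝ

/-- the sum over all configurations -/
noncomputable def GS (X : ℕ) (Ψ : Fn) : ℝ :=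
  ∑ Sg ∈ Sm X, ∑ i1 : Sg, if i1.1 % 8 = 5 ∧ ∀ l ∈ Sg, l % 8 = 5 → i1.1 ≤ l then
    ∑ m ∈ range (m0 X + 1), 1 / (m.factorial : ℝ) * TG X Sg m (Ψ Sg m i1) else 0

/-- valid configurations -/
structure Vd (X : ℕ) (Sg : Finset ℕ) (m : ℕ) (i1 : Sg) (p : Fin m → ℕ) (P : ℕ) : Prop where
  sm : Sg ∈ Sm X
  le : m ≤ m0 X
  lb : Lb (prs Sg p) P (.inl i1)
  big : ∀ i, YY X < p i
  bP : YY X < P
  dd : dd (prs Sg p) P ≤ X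

/-! ### Typical integers -/

/-- the small prime factors -/
noncomputable def sm (X d : ℕ) : Finset ℕ := d.primeFactors.filter fun l => l ≤ YY X

/-- the big prime factors -/
noncomputable def bg (X d : ℕ) : Finset ℕ := d.primeFactors.filter fun l => YY X < l

/-- the first window -/
def T1 (X n q : ℕ) : Prop := YY X < q ∧ q ≤ Z1 X ∧ q % 2 ^ (n + 3) = 1

/-- the second window -/
def T2 (X n q : ℕ) : Prop := Y2 X < q ∧ q % 2 ^ (n + 3) = 1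

/-- the integers that are counted -/
def Cov (X d : ℕ) : Prop :=
  (∃ l ∈ sm X d, l % 8 = 5) ∧ (∃ l ∈ bg X d, l % 8 = 5) ∧ (sm X d).card ≤ m0 X ∧
    (bg X d).card ≤ m0 X

/-- upper bounds for the number of prime factors -/
structure NdU (X j0 K j : ℕ) {n : ℕ} (D : Dat n) (d : ℕ) : Prop where
  cnt : ∀ a ≤ tpX X j0, ∀ ε : F2,
    ((bg X d).filter fun l => lev l = a ∧ eps l = ε).card ≤ 2 ^ (2 * jj (tpX X j0) j0 a)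
  low : ∀ l ∈ sm X d, lev l ≤ tpX X j0 / 2
  sml : (sm X d).card ≤ xx (tpX X j0) j0 (tpX X j0 / 2 + 1)
  few : (sm X d).card ≤ m0 X
  big : (bg X d).card ≤ m0 X
  top : (d.primeFactors.filter fun l => tpX X j0 - 2 ≤ lev l).card ≤ K
  unit : ∀ l ∈ d.primeFactors, tpX X j0 - 2 ≤ lev l → ¬Dj j (D.cc l)

open Classical in
/-- lower bounds for the number of prime factors -/
structure NdL (X j0 n d : ℕ) : Prop where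
  cnt : ∀ a ≤ tpX X j0, ∀ ε : F2,
    2 ^ jj (tpX X j0) j0 a < ((bg X d).filter fun l => lev l = a ∧ eps l = ε).card
  det : ∀ W ⊆ sm X d, W.Nonempty → W.card ≤ m0 X →
    ∃ l ∈ bg X d, tpX X j0 / 2 < lev l ∧ eps l = 0 ∧ ∑ l' ∈ W, lg l l' = 1
  five : ∃ l ∈ sm X d, l % 8 = 5
  j1 : 2 ^ (tpX X j0 / 2) ≤ (d.primeFactors.filter (T1 X n)).card
  j2 : 2 ^ (tpX X j0 / 2) ≤ (d.primeFactors.filter (T2 X n)).card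

/-- the fixed parameters -/
structure Pa where
  j0 : ℕ
  n : ℕ
  nT : ℕ
  j : ℕ
  K : ℕ

section Lab

variable {ι : Type} [Fintype ι] [DecidableEq ι] {ℓ k : ℕ}

open Classical in
/-- the indices in the first window -/
noncomputable def Ja (X n : ℕ) (pr : ι → ℕ) : Finset ι := univ.filter fun i => T1 X n (pr i)

open Classical in
/-- the indices in the second window -/
noncomputable def Jb (X n : ℕ) (pr : ι → ℕ) : Finset ι := univ.filter fun i => T2 X n (pr i)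

/-- typical labelled configurations -/
structure NXm (S : Sy) (π : Pa) (X : ℕ) (B : Finset ι) (i1 : ι) (pr : ι → ℕ)
    (S0 : Matrix ι ι F2) : Prop where
  nc : Nc (fun i => lev (pr i)) (fun i => eps (pr i)) B S0 (tpX X π.j0) π.j0
  fv : Fv (fun i => lev (pr i)) (fun i => eps (pr i)) B S0 i1
  top : (univ.filter fun i => tpX X π.j0 - 2 ≤ lev (pr i)).card ≤ π.K
  unit : ∀ i, tpX X π.j0 - 2 ≤ lev (pr i) → ¬Dj π.j ((S.D π.nT).cc (pr i))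
  j1 : 2 ^ (tpX X π.j0 / 2) ≤ (Ja X π.n pr).card
  j2 : 2 ^ (tpX X π.j0 / 2) ≤ (Jb X π.n pr).card

/-- the constant of spreading -/
def cS (ℓ κ : ℕ) : ℕ := 4 ^ (2 * 2 ^ (κ + ℓ) * ℓ + 2)

/-- small and well spread kernels -/
structure Gq (μ : Md ℓ) (κ : ℕ) (J1 J2 : Finset ι) (U : Set (Option ι → Vb ℓ))
    (W : Set (Option ι ⊕ Bool → Vb ℓ)) : Prop where
  card : U.ncard ≤ 2 ^ κ
  spr : Spr (bar μ.g) (bar μ.s) (bar μ.u) (cS ℓ κ) J1 J2 (fun v : U => v.1)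
    (fun (w : W) l => w.1 (.inl (some l))) fun w => w.1 ≠ 0
  big : 2 * cS ℓ κ * μ.n ≤ J1.card
  ne : J2.Nonempty

/-- the same for a tuple of primes -/
def Gg (Φ : Frm) (μ : Md ℓ) (κ X : ℕ) (pr : ι → ℕ) (P : ℕ) (i1 : ι) : Prop :=
  Gq μ κ (Ja X μ.n pr) (Jb X μ.n pr) (Us Φ μ pr P i1 1) (Ws Φ μ pr P i1 2)

/-- admissible positions -/
def Pt (J1 J2 : Finset ι) (e : Option (Fin k) ↪ ι) (b : ι) : Prop :=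
  (∀ s, e (some s) ∈ J1) ∧ e none ∈ J2 ∧ b ∈ J2 ∧ e none ≠ b

/-- all moving positions -/
def eb (e : Option (Fin k) ↪ ι) (b : ι) (o : Option (Option (Fin k))) : ι := o.elim b e

/-- coefficients -/
abbrev Cof (ι : Type) (ℓ : ℕ) : Type :=
  Set (Option ι → Vb ℓ) → Set (Option ι ⊕ Bool → Vb ℓ) → (Option ι ⊕ Bool → Vb ℓ) →
    (Option ι → Vb ℓ) → ℝ

end Lab

/-- typical configurations -/
def NX (S : Sy) (π : Pa) (X : ℕ) (Sg : Finset ℕ) (m : ℕ) (i1 : Sg) (p : Fin m → ℕ) (P : ℕ) :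
    Prop := NXm S π X (BB Sg m) (.inl i1) (prs Sg p) (Sm0 (prs Sg p) P)

/-! ### Statements -/

/-- formal properties of the sum -/
structure SG0 : Prop where
  tmono : ∀ (X : ℕ) (Sg : Finset ℕ) (m : ℕ) (i1 : Sg) (Ψ Ψ' : (Fin m → ℕ) → ℕ → ℝ), Sg ∈ Sm X →
    m ≤ m0 X → i1.1 % 8 = 5 → (∀ p P, Vd X Sg m i1 p P → Ψ p P ≤ Ψ' p P) →
    TG X Sg m Ψ ≤ TG X Sg m Ψ'
  tadd : ∀ (X : ℕ) (Sg : Finset ℕ) (m : ℕ) (Ψ Ψ' : (Fin m → ℕ) → ℕ → ℝ),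
    TG X Sg m (fun p P => Ψ p P + Ψ' p P) = TG X Sg m Ψ + TG X Sg m Ψ'
  tmul : ∀ (X : ℕ) (Sg : Finset ℕ) (m : ℕ) (c : ℝ) (Ψ : (Fin m → ℕ) → ℕ → ℝ),
    TG X Sg m (fun p P => c * Ψ p P) = c * TG X Sg m Ψ
  tsum : ∀ (κ : Type) (s : Finset κ) (X : ℕ) (Sg : Finset ℕ) (m : ℕ)
    (Ψ : κ → (Fin m → ℕ) → ℕ → ℝ),
    TG X Sg m (fun p P => ∑ i ∈ s, Ψ i p P) = ∑ i ∈ s, TG X Sg m (Ψ i)
  mono : ∀ (X : ℕ) (Ψ Ψ' : Fn),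
    (∀ Sg m i1 p P, Vd X Sg m i1 p P → Ψ Sg m i1 p P ≤ Ψ' Sg m i1 p P) → GS X Ψ ≤ GS X Ψ'
  add : ∀ (X : ℕ) (Ψ Ψ' : Fn),
    GS X (fun Sg m i1 p P => Ψ Sg m i1 p P + Ψ' Sg m i1 p P) = GS X Ψ + GS X Ψ'
  mul : ∀ (X : ℕ) (c : ℝ) (Ψ : Fn), GS X (fun Sg m i1 p P => c * Ψ Sg m i1 p P) = c * GS X Ψ
  sum : ∀ (κ : Type) (s : Finset κ) (X : ℕ) (Ψ : κ → Fn),
    GS X (fun Sg m i1 p P => ∑ i ∈ s, Ψ i Sg m i1 p P) = ∑ i ∈ s, GS X (Ψ i)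
  cmp : ∀ (X : ℕ) (Ψ Ψ' : Fn) (E : ℝ), 0 ≤ E → (∀ Sg ∈ Sm X, ∀ m ≤ m0 X, ∀ i1 : Sg, i1.1 % 8 = 5 →
      TG X Sg m (Ψ Sg m i1) ≤ TG X Sg m (Ψ' Sg m i1) + E * (X / ∏ l ∈ Sg, l : ℕ)) →
    GS X Ψ ≤ GS X Ψ' + 3 * E * X * (Real.log X + 2)
  up : ∀ (X : ℕ) (Q : ℕ → Prop), GS X (fun Sg _ _ p P => ind (Q (dd (prs Sg p) P))) ≤
    {d : ℕ | 1 ≤ d ∧ d ≤ X ∧ Q d}.ncard
  tot : ∀ (X : ℕ) (c : ℝ), 0 ≤ c → GS X (fun _ _ _ _ _ => c) ≤ c * X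
  low : ∀ (X : ℕ) (Q : ℕ → Prop),
    ({d : ℕ | d ≤ X ∧ Squarefree d ∧ Odd d ∧ Cov X d ∧ Q d}.ncard : ℝ) ≤
      GS X fun Sg _ _ p P => ind (Q (dd (prs Sg p) P))

/-- typical integers give typical configurations -/
structure SNIC : Prop where
  nx : ∀ (S : Sy) (π : Pa) (X : ℕ) (Sg : Finset ℕ) (m : ℕ) (i1 : Sg) (p : Fin m → ℕ) (P : ℕ),
    Vd X Sg m i1 p P → NdU X π.j0 π.K π.j (S.D π.nT) (dd (prs Sg p) P) →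
    NdL X π.j0 π.n (dd (prs Sg p) P) → NX S π X Sg m i1 p P
  cov : ∀ (X j0 K j n n' : ℕ) (D : Dat n') (d : ℕ), Odd d → NdU X j0 K j D d → NdL X j0 n d →
    Cov X d
  inv : ∀ (ι : Type) [Fintype ι] [DecidableEq ι] (S : Sy) (π : Pa) (X : ℕ) (B : Finset ι) (i1 : ι)
    (pr pr' : ι → ℕ) (S0 S0' : Matrix ι ι F2),
    (∀ i, lev (pr i) = lev (pr' i) ∧ eps (pr i) = eps (pr' i) ∧
      (T1 X π.n (pr i) ↔ T1 X π.n (pr' i)) ∧ (T2 X π.n (pr i) ↔ T2 X π.n (pr' i)) ∧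
      (Dj π.j ((S.D π.nT).cc (pr i)) ↔ Dj π.j ((S.D π.nT).cc (pr' i)))) →
    (∀ i j, ¬(i ∈ B ∧ j ∈ B) → S0' i j = S0 i j) → NXm S π X B i1 pr S0 → NXm S π X B i1 pr' S0'

/-- the lower bounds hold for most integers -/
def SNL : Prop :=
  ∀ ε : ℝ, 0 < ε → ∃ j1 : ℕ, ∀ j0, j1 ≤ j0 → ∀ n : ℕ, ∀ᶠ X : ℕ in atTop,
    ({d : ℕ | d ≤ X ∧ Squarefree d ∧ Odd d ∧ ¬NdL X j0 n d}.ncard : ℝ) ≤ ε * X

/-- the upper bounds hold for most integers -/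
def SNU : Prop :=
  ∀ ε : ℝ, 0 < ε → ∃ j1 : ℕ, ∀ j0, j1 ≤ j0 → ∃ K j : ℕ, ∀ (n : ℕ) (D : Dat n), j ≤ 2 ^ n →
    ∀ᶠ X : ℕ in atTop, ({d : ℕ | 1 ≤ d ∧ d ≤ X ∧ ¬NdU X j0 K j D d}.ncard : ℝ) ≤ ε * X

/-- equidistribution of the matrices in mixed layers -/
def SEQ2 : Prop :=
  ∀ (S : Sy) (n : ℕ) (Λ Ω : Type) [CommRing Λ] [Finite Λ] [Fintype Ω] (st : Λ →+* Λ)
    (au : Λ →+* F2) (g : Λ) (ω : ℕ → Ω) (Sg : Finset ℕ) (m T Y : ℕ) (w w' : ℕ → ℝ) (δ : ℝ)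
    (Φ : (Fin m → ℕ) → Matrix (Sg ⊕ Fin m) (Sg ⊕ Fin m) Λ → ℝ), Ax S → LG st au g (2 ^ n) →
    (∀ l ∈ Sg, Gd 0 l) → Wt Sg Y w → Wt Sg Y w' → 0 ≤ δ →
    (∀ n' ≤ n, Bil (S.D n').rr (Gd n') Y T δ) → (∀ p M, |Φ p M| ≤ 1) →
    (∀ p p', (∀ i, w (p i) ≠ 0 ∧ w (p' i) ≠ 0 ∧ lev (p i) = lev (p' i) ∧ ω (p i) = ω (p' i)) →
      Φ p = Φ p') →
    (∀ p M M', Cg g n (fun i => lev (prs Sg p i)) M M' →
      (∀ i j, ¬(i ∈ BB Sg m ∧ j ∈ BB Sg m) → M' i j = M i j) → Φ p M' = Φ p M) →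
    |TS m T w w' fun p P => Φ p (MX S.D n g (prs Sg p) P) -
        Ex (Hs st (BB Sg m) (BB Sg m)) fun H => Φ p (MX S.D n g (prs Sg p) P + H)| ≤
      δ * T * Fintype.card Ω ^ (m + 1) * EE (2 ^ n) Sg.card m T

/-- events that are rare for random matrices are rare -/
def SGEQ : Prop :=
  ∀ (S : Sy) (π : Pa), Ax S → ∀ᶠ X : ℕ in atTop, ∀ (n : ℕ) (Λ Ω : Type) [CommRing Λ] [Finite Λ]
    [Fintype Ω] (st : Λ →+* Λ) (au : Λ →+* F2) (g : Λ) (ω : ℕ → Ω)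
    (Bad : ∀ (Sg : Finset ℕ) (m : ℕ), Sg → (Fin m → ℕ) →
      Matrix (Sg ⊕ Fin m) (Sg ⊕ Fin m) Λ → Prop) (ε : ℝ), LG st au g (2 ^ n) →
    ((2 : ℝ) ^ n) ^ 5 ≤ ll X → (Fintype.card Ω : ℝ) ≤ Real.exp (ll X ^ 2) → 0 ≤ ε →
    (∀ Sg m i1 p p' M, (∀ i, lev (p i) = lev (p' i) ∧ eps (p i) = eps (p' i) ∧
      ω (p i) = ω (p' i)) → Bad Sg m i1 p M → Bad Sg m i1 p' M) →
    (∀ Sg m i1 p P, Vd X Sg m i1 p P → NX S π X Sg m i1 p P →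
      Ex (Hs st (BB Sg m) (BB Sg m))
        (fun H => ind (Bad Sg m i1 p (MX S.D n g (prs Sg p) P + H))) ≤ ε) →
    GS X (fun Sg m i1 p P => ind (NX S π X Sg m i1 p P ∧
      ∀ M', Cg g n (fun i => lev (prs Sg p i)) (MX S.D n g (prs Sg p) P) M' →
        Bad Sg m i1 p M')) ≤ ε * X + X / Real.exp (ll X)

/-- large solutions at low levels -/
def SE1 : Prop :=
  ∀ (A : ℕ) (ε : ℝ), 0 < ε → ∃ γ : ℕ, ∀ (S : Sy) (π : Pa), Ax S → 55 ≤ π.j0 → ∀ᶠ X : ℕ in atTop,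
    GS X (fun Sg m i1 p P => ind (NX S π X Sg m i1 p P ∧ ∃ a ≤ A, ∃ b,
      BadLo (fun i => lev (prs Sg p i)) (fun i => eps (prs Sg p i)) (.inl i1) (Sm0 (prs Sg p) P)
        γ a b)) ≤ ε * X

/-- the kernels are good unless the matrix is bad -/
def SGOOD : Prop :=
  ∀ (ι Λ : Type) [Fintype ι] [DecidableEq ι] [CommRing Λ] (ℓ : ℕ) (S : Sy) (μ : Md ℓ)
    (pr : ι → ℕ) (P L A κ : ℕ) (i1 : ι) (st : Λ →+* Λ) (au : Λ →+* F2) (g : Λ)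
    (M' : Matrix ι ι Λ) (J1 J2 : Finset ι), Ax S → Lb pr P i1 → μ.Ok 3 → LG st au g (2 ^ μ.n) →
    Cg g μ.n (fun i => lev (pr i)) (MX S.D μ.n g pr P) M' → ℓ ≤ L → μ.a ≤ A →
    2 * cS ℓ κ * μ.n ≤ J1.card → J2.Nonempty →
    ¬BadR g (fun i => lev (pr i)) (fun i => eps (pr i)) (fun i => fl S μ.n (pr i) S.Φ.f2 0) i1 M'
      (fun i => cX S.D μ.n g (pr i)) J1 J2 L A κ →
    Gq μ κ J1 J2 (Us S.Φ μ pr P i1 1) (Ws S.Φ μ pr P i1 2)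

/-- bad kernels -/
def SE2 : Prop :=
  ∀ (ε : ℝ) (L A : ℕ), 0 < ε → ∃ κ : ℕ, ∀ (S : Sy) (π : Pa), Ax S → A ≤ π.n → ∀ᶠ X : ℕ in atTop,
    GS X (fun Sg m i1 p P => ind (NX S π X Sg m i1 p P ∧ ∃ ℓ ≤ L, ∃ μ : Md ℓ, μ.a ≤ A ∧
      μ.n = π.n ∧ μ.Ok 3 ∧ ¬Gg S.Φ μ κ X (prs Sg p) P (.inl i1))) ≤ ε * X

/-- intermediate levels -/
def SE3 : Prop :=
  ∀ (ε : ℝ) (j1 : ℕ), 0 < ε → ∃ A j0 : ℕ, j1 ≤ j0 ∧ ∀ (S : Sy) (π : Pa), Ax S → π.j0 = j0 →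
    ∀ᶠ X : ℕ in atTop, GS X (fun Sg m i1 p P => ind (NX S π X Sg m i1 p P ∧
      ∃ a, A < a ∧ a + 2 ≤ tpX X π.j0 ∧ Hi S (prs Sg p) P a)) ≤ ε * X

/-- top levels -/
def SE4 : Prop :=
  ∀ (K j : ℕ) (ε : ℝ), 0 < ε → ∃ n0 : ℕ, ∀ (S : Sy) (π : Pa), Ax S → π.K = K → π.j = j →
    n0 ≤ π.nT → j ≤ 2 ^ π.nT → ∀ᶠ X : ℕ in atTop,
    GS X (fun Sg m i1 p P => ind (NX S π X Sg m i1 p P ∧
      ∃ a, tpX X π.j0 ≤ a + 1 ∧ Hi S (prs Sg p) P a)) ≤ ε * X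

/-- the character sum as an average over positions -/
structure SADM : Prop where
  eq : ∀ ℓ k κ : ℕ, ∃ C : ℝ, 0 ≤ C ∧ ∀ (ι : Type) [Fintype ι] [DecidableEq ι] (μ : Md ℓ)
    (J1 J2 : Finset ι), Disjoint J1 J2 → ∃ cf : Cof ι ℓ, (∀ U W w v, |cf U W w v| ≤ 1) ∧
    ∀ (S : Sy) (pr : ι → ℕ) (P J : ℕ) (i1 : ι), Ax S → Lb pr P i1 → μ.Ok J → 1 ≤ k → k + 1 ≤ J →
      (J1.card : ℝ) ^ k * J2.card ^ 2 * (ind (Gq μ κ J1 J2 (Us S.Φ μ pr P i1 1)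
        (Ws S.Φ μ pr P i1 2)) * cs S.Φ μ pr P i1 (k + 1)) =
      C * ∑ e : Option (Fin k) ↪ ι, ∑ b, ind (Pt J1 J2 e b) * fv S.Φ μ P i1 e b κ cf pr
  bd : ∀ (ι : Type) [Fintype ι] [DecidableEq ι] (ℓ k κ : ℕ) (S : Sy) (μ : Md ℓ) (pr : ι → ℕ)
    (P J : ℕ) (i1 b : ι) (e : Option (Fin k) ↪ ι) (cf : Cof ι ℓ), Ax S → μ.Ok J → 2 ≤ k →
    k + 1 ≤ J → (∀ U W w v, |cf U W w v| ≤ 1) →
    |fv S.Φ μ P i1 e b κ cf pr| ≤ 2 ^ (κ * (k + 1) + ℓ) * ind (Lb pr P i1)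
  cnt : ∀ (ι : Type) [Fintype ι] [DecidableEq ι] (k : ℕ) (J1 J2 : Finset ι),
    ∑ e : Option (Fin k) ↪ ι, ∑ b, ind (Pt J1 J2 e b) ≤ (J1.card : ℝ) ^ k * J2.card ^ 2

/-- cancellation in a cell -/
def SCL1 : Prop :=
  ∀ (ℓ k n κ : ℕ) (η : ℝ), 2 ≤ k → 0 < η → ∃ C : ℕ, 1 ≤ C ∧ ∀ (ι : Type) [Fintype ι]
    [DecidableEq ι] (S : Sy) (μ : Md ℓ) (J P : ℕ) (i1 b : ι) (e : Option (Fin k) ↪ ι) (xs : ι → ℕ)
    (cf : Cof ι ℓ) (A : Option (Option (Fin k)) → Finset ℕ) (U : Option (Option (Fin k)) → ℕ)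
    (Y Z Y' T : ℕ) (δ : ℝ), Ax S → μ.n = n → μ.Ok J → k + 1 ≤ J → (∀ o, e o ≠ b) →
    (∀ U W w v, |cf U W w v| ≤ 1) → (∀ o, ∀ y ∈ A o, Gd n y ∧ Y < y ∧ y ≤ U o) →
    (∀ s, ∀ y ∈ A (some (some s)), y ≤ Z) → (∀ y ∈ A none ∪ A (some none), Y' < y) →
    (∀ o, ∀ y ∈ A o, ∀ y' ∈ A o, cl S n P e b xs y = cl S n P e b xs y') → ∏ o, U o ≤ T →
    Bil (fun p p' (_ : Unit) => lg p p') (Gd 0) Y T δ → 1 ≤ δ * Y → (2 * Z) ^ C ≤ Y' →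
    (2 * Z : ℝ) ^ C * 2 ^ (C * Fintype.card ι) * (Real.log T + 2) ≤ δ * (Y' : ℝ) ^ (1 / C : ℝ) →
    |∑ y ∈ Fintype.piFinset A, fv S.Φ μ P i1 e b κ cf (extend (eb e b) y xs)| ≤
      η * ∏ o, ((A o).card : ℝ) + C * δ * ∏ o, (U o : ℝ)

/-- almost all tuples of a cell are labellings -/
def SLBC : Prop :=
  ∀ (ι D : Type) [Fintype ι] [DecidableEq ι] [Fintype D] [DecidableEq D] (e : D → ι) (xs : ι → ℕ)
    (P Y : ℕ) (i1 : ι) (A : D → Finset ℕ) (U : D → ℕ) (y0 : D → ℕ), e.Injective →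
    (∀ o, e o ≠ i1) → Lb (extend e y0 xs) P i1 → (∀ o, ∀ y ∈ A o, Gd 0 y ∧ Y < y ∧ y ≤ U o) →
    Y * ∏ o, ((A o).card : ℝ) ≤ Y * ∑ y ∈ Fintype.piFinset A, ind (Lb (extend e y xs) P i1) +
      Fintype.card D * (Fintype.card ι + 1) * ∏ o, (U o : ℝ)

/-- cancellation for fixed positions -/
def SCL2 : Prop :=
  ∀ (ℓ k n κ : ℕ) (η θ : ℝ), 2 ≤ k → 0 < η → 0 < θ → θ ≤ 1 → ∃ C : ℕ, 1 ≤ C ∧
    ∀ (S : Sy) (μ : Md ℓ) (J X : ℕ) (Sg : Finset ℕ) (m : ℕ) (i1 : Sg)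
      (J1 J2 : Finset (Sg ⊕ Fin m)) (e : Option (Fin k) ↪ Sg ⊕ Fin m) (b : Sg ⊕ Fin m)
      (cf : Cof (Sg ⊕ Fin m) ℓ) (δ : ℝ), Ax S → μ.n = n → μ.Ok J → k + 1 ≤ J →
      (∀ U W w v, |cf U W w v| ≤ 1) → Sg ∈ Sm X → i1.1 % 8 = 5 → Pt J1 J2 e b → YY X ≤ Z1 X →
      1 ≤ θ * YY X → Bil (fun p p' (_ : Unit) => lg p p') (Gd 0) (YY X) X δ → 1 ≤ δ * YY X →
      (2 * Z1 X) ^ C ≤ Y2 X → (2 * Z1 X : ℝ) ^ C * 2 ^ (C * (Sg.card + m)) * (Real.log X + 2) ≤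
        δ * (Y2 X : ℝ) ^ (1 / C : ℝ) →
      |TG X Sg m fun p P => ind (Ja X n (prs Sg p) = J1 ∧ Jb X n (prs Sg p) = J2) *
          fv S.Φ μ P (.inl i1) e b κ cf (prs Sg p)| ≤
        η * TG X Sg m (fun p _ => ind (Ja X n (prs Sg p) = J1 ∧ Jb X n (prs Sg p) = J2)) +
        2 ^ (κ * (k + 1) + ℓ) * TG X Sg m (fun p P =>
          ind (Ja X n (prs Sg p) = J1 ∧ Jb X n (prs Sg p) = J2) *
            ind (X < (1 + θ) ^ (k + 3) * dd (prs Sg p) P)) +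
        δ * (C * (Real.log X + 2)) ^ (C * (Sg.card + m + 1)) * (X / ∏ l ∈ Sg, l : ℕ)

/-- cancellation in the character sum -/
def SGLB : Prop :=
  ∀ (ℓ k κ J : ℕ) (μ : Md ℓ) (S : Sy) (η : ℝ), Ax S → μ.Ok J → 2 ≤ k → k + 1 ≤ J → 0 < η →
    ∀ᶠ X : ℕ in atTop, GS X (fun Sg _ i1 p P => ind (Gg S.Φ μ κ X (prs Sg p) P (.inl i1)) *
      cs S.Φ μ (prs Sg p) P (.inl i1) (k + 1)) ≤ η * X

/-- the mean of the counting function -/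
def SREC : Prop :=
  ∀ (ℓ κ J : ℕ) (μ : Md ℓ) (S : Sy) (η : ℝ), Ax S → μ.Ok J → 3 ≤ J → 0 < η →
    ∀ᶠ X : ℕ in atTop, GS X (fun Sg _ i1 p P => ind (Gg S.Φ μ κ X (prs Sg p) P (.inl i1)) *
      zz S.Φ μ (prs Sg p) P J) ≤ (4 ^ κ / 2 ^ (ℓ * (J - 3)) + η) * X

/-- lattices of small rank -/
def SE5 : Prop :=
  ∀ (ε : ℝ) (L A κ : ℕ), 0 < ε → ∃ J : ℕ, 3 ≤ J ∧ ∀ S : Sy, Ax S → ∀ᶠ X : ℕ in atTop,
    GS X (fun Sg _ i1 p P => ind (∃ (ℓ : ℕ) (μ : Md ℓ), 1 ≤ ℓ ∧ ℓ ≤ L ∧ μ.a ≤ A ∧ μ.n = A + J ∧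
      μ.Ok J ∧ (Vg S.Φ μ (prs Sg p) P J).Nonempty ∧ ∀ μ' : Md ℓ, μ'.a ≤ A → μ'.n = A + J →
        μ'.Ok 3 → Gg S.Φ μ' κ X (prs Sg p) P (.inl i1))) ≤ ε * X

/-- the exceptions have density zero -/
def SMN : Prop :=
  ∀ ε : ℝ, 0 < ε → ∀ᶠ X : ℕ in atTop,
    ({d : ℕ | d ≤ X ∧ Squarefree d ∧ Odd d ∧ ¬Gr d}.ncard : ℝ) ≤ ε * X

/-- the theorem -/
def SFN : Prop :=
  ∀ ε : ℝ, 0 < ε → ∃ X₀ : ℕ, ∀ X : ℕ, X₀ ≤ X →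
    (1 - ε) * (Set.ncard {D : ℕ | D ≤ X ∧ Fund D} : ℝ) ≤
      (Set.ncard {D : ℕ | D ≤ X ∧ Fund D ∧ Green2 (kD D)} : ℝ)

def OfG0 : Prop := SCFG → SG0
def OfNIC : Prop := SDEC → SQR → SNIC
def OfNL : Prop := SDEC → SPRM → SPR2 → SWIN → SHT → SNL
def OfNU : Prop := SDEC → SDAT → SPRM → SPR2 → SDJ → SUNT → SWIN → SHT → SNU
def OfEQ2 : Prop := SAVG → SDEC → SLAM → SQR → SDAT → SUL → SSY2 → SEQ2
def OfGEQ : Prop := SAVG → SDEC → SBIL → SSY2 → SPR2 → SG0 → SNIC → SEQ2 → SGEQ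
def OfE1 : Prop := SLAM → SQR → SPRM → SSY2 → SRML → SG0 → SGEQ → SE1
def OfGOOD : Prop := SLMD → SPR → SUS → SDS → SZR → SGOOD
def OfE2 : Prop := SDEC → SLAM → SPRM → SPR2 → SSY2 → SRLO → SG0 → SGEQ → SGOOD → SE2
def OfE3 : Prop := SAVG → SLAM → SQR → SPRM → SPR2 → SSY2 → SRMH → SPAO → SG0 → SGEQ → SE3
def OfE4 : Prop := SLAM → SPRM → SPR2 → SDJ → SRMT → SG0 → SGEQ → SE4
def OfADM : Prop := SPR → SZR → SADM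
def OfCL1 : Prop := SQR → SGRT → SGOV → SSMP → SFOU → SADM → SCL1
def OfCL2 : Prop := SDEC → SBOX → SADM → SCL1 → SLBC → SCL2
def OfGLB : Prop := SDAT → SBIL → SPR2 → SG0 → SADM → SCL2 → SGLB
def OfREC : Prop := SZR → SG0 → SGLB → SREC
def OfE5 : Prop := SORB → SG0 → SREC → SE5
def OfMN : Prop := (∃ S, Ax S) → SLWA → SCRT → SG0 → SNIC → SNL → SNU → SE1 → SE2 → SE3 → SE4 →
  SE5 → SMN
def OfFN : Prop := SBRG → SMN → SFN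

end Pool.Agent.MP_1246c0_nt.H25
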